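import Mathlib

namespace Pool.Agent.Lib.helper7.Perron

open Matrix

variable {n : Type*} [Fintype n] [DecidableEq n]

lemma exists_eigvec {A : Matrix n n ℝ} {l : ℝ} (h : l ∈ spectrum ℝ A) :
    ∃ y : n → ℝ, y ≠ 0 ∧ A *ᵥ y = l • y := by
  rw [spectrum.mem_iff, Matrix.isUnit_iff_isUnit_det, isUnit_iff_ne_zero, not_not,
    ← Matrix.exists_mulVec_eq_zero_iff] at h
  obtain ⟨y, h1, h2⟩ := h
  refine ⟨y, h1, ?_⟩
  rw [Matrix.sub_mulVec, Algebra.algebraMap_eq_smul_one, Matrix.smul_mulVec, Matrix.one_mulVec,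
    sub_eq_zero] at h2
  exact h2.symm

/-- a positive strict supersolution bounds all real eigenvalues -/
theorem lt_of_super {A : Matrix n n ℝ} (hA : ∀ i j, i ≠ j → 0 ≤ A i j) {x : n → ℝ}
    (hx : ∀ i, 0 < x i) {c : ℝ} (hc : ∀ i, (A *ᵥ x) i < c * x i) {l : ℝ}
    (hl : l ∈ spectrum ℝ A) : l < c := by
  obtain ⟨y, hy, he⟩ := exists_eigvec hl
  obtain ⟨k, hk⟩ := Function.ne_iff.1 hy
  obtain ⟨i, -, hi⟩ := Finset.exists_max_image Finset.univ (fun i => |y i| / x i)
    ⟨k, Finset.mem_univ k⟩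
  set t := |y i| / x i with ht
  have htpos : 0 < t := lt_of_lt_of_le (div_pos (abs_pos.2 hk) (hx k)) (hi k (Finset.mem_univ k))
  have hb : ∀ j, |y j| ≤ t * x j := fun j => (div_le_iff₀ (hx j)).1 (hi j (Finset.mem_univ j))
  have hyi : |y i| = t * x i := by rw [ht, div_mul_cancel₀ _ (hx i).ne']
  have e1 : (l - A i i) * y i = ∑ j ∈ Finset.univ.erase i, A i j * y j := by
    have := congrFun he i
    rw [Pi.smul_apply, smul_eq_mul, Matrix.mulVec, dotProduct,
      ← Finset.add_sum_erase _ _ (Finset.mem_univ i)] at this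
    linarith
  have e2 : (l - A i i) * |y i| ≤ t * ∑ j ∈ Finset.univ.erase i, A i j * x j := by
    calc (l - A i i) * |y i| ≤ |(l - A i i) * y i| := by
          rw [abs_mul]; exact mul_le_mul_of_nonneg_right (le_abs_self _) (abs_nonneg _)
      _ ≤ ∑ j ∈ Finset.univ.erase i, |A i j * y j| := by
          rw [e1]; exact Finset.abs_sum_le_sum_abs _ _
      _ ≤ _ := by
          rw [Finset.mul_sum]
          refine Finset.sum_le_sum fun j hj => ?_
          have := hA i j (Finset.ne_of_mem_erase hj).symm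
          rw [abs_mul, abs_of_nonneg this]
          have := mul_le_mul_of_nonneg_left (hb j) this
          linarith
  have e3 := hc i
  rw [Matrix.mulVec, dotProduct, ← Finset.add_sum_erase _ _ (Finset.mem_univ i)] at e3
  rw [hyi] at e2
  have e4 : t * (l * x i) < t * (c * x i) := by nlinarith
  exact lt_of_mul_lt_mul_right (lt_of_mul_lt_mul_left e4 htpos.le) (hx i).le

/-- a Rayleigh quotient bound gives an eigenvalue -/
theorem exists_ge {A : Matrix n n ℝ} (hA : A.IsHermitian) {x : n → ℝ} (hx : x ≠ 0) {c : ℝ}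
    (hc : c * (x ⬝ᵥ x) ≤ x ⬝ᵥ (A *ᵥ x)) : ∃ l ∈ spectrum ℝ A, c ≤ l := by
  by_contra hn
  push Not at hn
  have hB : (c • (1 : Matrix n n ℝ) - A).IsHermitian :=
    IsHermitian.sub (by simp [IsHermitian]) hA
  have hpd : (c • (1 : Matrix n n ℝ) - A).PosDef := by
    rw [hB.posDef_iff_eigenvalues_pos]
    intro i
    have h1 := hB.eigenvalues_mem_spectrum_real i
    have : c - hB.eigenvalues i ∈ spectrum ℝ A := by
      rw [spectrum.mem_iff] at h1 ⊢
      intro hu
      apply h1
      have := hu.neg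
      convert this using 1
      simp only [Algebra.algebraMap_eq_smul_one, sub_smul]
      abel
    have := hn _ this
    linarith
  have := hpd.dotProduct_mulVec_pos hx
  rw [Matrix.sub_mulVec, Matrix.smul_mulVec, Matrix.one_mulVec, star_trivial, dotProduct_sub,
    dotProduct_smul, smul_eq_mul] at this
  linarith

theorem exists_isGreatest [Nonempty n] {A : Matrix n n ℝ} (hA : A.IsHermitian) :
    ∃ l, IsGreatest (spectrum ℝ A) l := by
  obtain ⟨l, h1, h2⟩ := Set.exists_max_image _ id A.finite_spectrum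
    ⟨_, hA.eigenvalues_mem_spectrum_real (Classical.arbitrary n)⟩
  exact ⟨l, h1, h2⟩

/-- a graph whose edges join each vertex to a smaller parent is acyclic -/
theorem acyclic_of_parent {V : Type*} [LinearOrder V] (G : SimpleGraph V) (p : V → V)
    (h : ∀ u w, G.Adj u w → w ≤ u → w = p u) : G.IsAcyclic := by
  intro v c hc
  obtain ⟨u, hu, hmax⟩ := Finset.exists_max_image c.support.toFinset id
    ⟨v, by simp⟩
  rw [List.mem_toFinset] at hu
  have hc' := hc.rotate hu
  have hnil := hc'.not_nil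
  have hm : ∀ w ∈ (c.rotate u hu).support, w ≤ u := fun w hw =>
    hmax w (List.mem_toFinset.2 ((SimpleGraph.Walk.mem_support_rotate_iff c u hu).1 hw))
  apply hc'.snd_ne_penultimate
  rw [h u _ (SimpleGraph.Walk.adj_snd hnil) (hm _ (SimpleGraph.Walk.getVert_mem_support _ _)),
    h u _ (SimpleGraph.Walk.adj_penultimate hnil).symm
      (hm _ (SimpleGraph.Walk.getVert_mem_support _ _))]

end Pool.Agent.Lib.helper7.Perron
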