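import Mathlib
import Pool.Agent.Lib.helper9.BorsukUlam

set_option autoImplicit false

namespace Pool.Agent.Lib.helper7.K33

open Set

noncomputable def pp (u : ℝ × ℝ) : Fin 3 → ℝ :=
  ![max (u.1 - max u.2 0) 0, max (u.2 - max u.1 0) 0, max (0 - max u.1 u.2) 0]

theorem pp_cont (i : Fin 3) : Continuous fun u => pp u i := by
  fin_cases i <;> simp [pp] <;> fun_prop

theorem pp_nonneg (u : ℝ × ℝ) (i : Fin 3) : 0 ≤ pp u i := by
  fin_cases i <;> simp [pp]

theorem pp_supp (u : ℝ × ℝ) : ∃ i i' : Fin 3, i ≠ i' ∧ (∀ k, k ≠ i → pp u k = 0) ∧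
    ∀ k, k ≠ i' → pp (-u) k = 0 := by
  obtain ⟨s, t⟩ := u
  rcases le_total s t with h1 | h1 <;> rcases le_total s 0 with h2 | h2 <;>
    rcases le_total t 0 with h3 | h3
  · refine ⟨2, 0, by decide, ?_, ?_⟩ <;> intro k hk <;> fin_cases k <;> simp_all [pp]
  · refine ⟨1, 0, by decide, ?_, ?_⟩ <;> intro k hk <;> fin_cases k <;> simp_all [pp]
  · refine ⟨1, 0, by decide, ?_, ?_⟩ <;> intro k hk <;> fin_cases k <;> simp_all [pp]
    all_goals linarith
  · refine ⟨1, 2, by decide, ?_, ?_⟩ <;> intro k hk <;> fin_cases k <;> simp_all [pp]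
  · refine ⟨2, 1, by decide, ?_, ?_⟩ <;> intro k hk <;> fin_cases k <;> simp_all [pp]
  · refine ⟨0, 1, by decide, ?_, ?_⟩ <;> intro k hk <;> fin_cases k <;> simp_all [pp]
    all_goals linarith
  · refine ⟨0, 1, by decide, ?_, ?_⟩ <;> intro k hk <;> fin_cases k <;> simp_all [pp]
  · refine ⟨0, 2, by decide, ?_, ?_⟩ <;> intro k hk <;> fin_cases k <;> simp_all [pp]

theorem pp_zero (u : ℝ × ℝ) (h : ∀ k, pp u k = 0) (h' : ∀ k, pp (-u) k = 0) : u = 0 := by
  obtain ⟨s, t⟩ := u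
  have a0 := h 0
  have a1 := h 1
  have a2 := h 2
  have b0 := h' 0
  have b1 := h' 1
  have b2 := h' 2
  simp [pp] at a0 a1 a2 b0 b1 b2
  have : s = 0 ∧ t = 0 := by
    rcases a0 with a0 | a0 <;> rcases a1 with a1 | a1 <;> rcases a2 with a2 | a2 <;>
      rcases b0 with b0 | b0 <;> rcases b1 with b1 | b1 <;> rcases b2 with b2 | b2 <;>
      constructor <;> linarith
  simp [this.1, this.2]

noncomputable def cone (γ : unitInterval → ℝ × ℝ) (z : ℝ × ℝ) : ℝ × ℝ :=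
  (z.1 + z.2) • γ (projIcc 0 1 zero_le_one (z.2 / (z.1 + z.2)))

theorem cone_cont (γ : unitInterval → ℝ × ℝ) (hγ : Continuous γ) : Continuous (cone γ) := by
  rw [continuous_iff_continuousAt]
  intro z
  by_cases hz : z.1 + z.2 = 0
  · obtain ⟨M, hM⟩ := (isCompact_range hγ).isBounded.exists_norm_le
    have h0 : cone γ z = 0 := by simp [cone, hz]
    rw [ContinuousAt, h0]
    refine NormedField.tendsto_zero_smul_of_tendsto_zero_of_bounded (ε := fun y : ℝ × ℝ => y.1 + y.2)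
      (f := fun y : ℝ × ℝ => γ (projIcc 0 1 zero_le_one (y.2 / (y.1 + y.2)))) ?_ ?_
    · have : Continuous fun y : ℝ × ℝ => y.1 + y.2 := by fun_prop
      simpa [hz] using this.tendsto z
    · exact ⟨M, Filter.eventually_map.2 (Filter.Eventually.of_forall fun y => hM _ ⟨_, rfl⟩)⟩
  · have h1 : ContinuousAt (fun y : ℝ × ℝ => y.1 + y.2) z := by fun_prop
    have h2 : ContinuousAt (fun y : ℝ × ℝ => y.2 / (y.1 + y.2)) z :=
      ContinuousAt.div (by fun_prop) h1 hz
    exact h1.smul (hγ.continuousAt.comp (continuous_projIcc.continuousAt.comp h2))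

theorem cone_left (γ : unitInterval → ℝ × ℝ) (a : ℝ) : cone γ (a, 0) = a • γ 0 := by
  simp [cone]

theorem cone_right (γ : unitInterval → ℝ × ℝ) (a : ℝ) : cone γ (0, a) = a • γ 1 := by
  by_cases h : a = 0
  · simp [cone, h]
  · simp [cone, h]

/-- van Kampen - Flores for the complete bipartite graph on three plus three vertices. -/
theorem cross (Γ : Fin 3 → Fin 3 → unitInterval → ℝ × ℝ) (A B : Fin 3 → ℝ × ℝ)
    (hc : ∀ i j, Continuous (Γ i j)) (h0 : ∀ i j, Γ i j 0 = A i) (h1 : ∀ i j, Γ i j 1 = B j) :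
    ∃ i j i' j' s t, i ≠ i' ∧ j ≠ j' ∧ Γ i j s = Γ i' j' t := by
  set Φ : (ℝ × ℝ) × (ℝ × ℝ) → ℝ × ℝ := fun x =>
    ∑ i, ∑ j, (cone (Γ i j) (pp x.1 i, pp x.2 j) - pp x.1 i • A i - pp x.2 j • B j) +
      ∑ i, pp x.1 i • A i + ∑ j, pp x.2 j • B j with hΦ
  set T : (ℝ × ℝ) × (ℝ × ℝ) → ℝ := fun x => ∑ i, pp x.1 i + ∑ j, pp x.2 j with hT
  have c1 : ∀ i, Continuous fun x : (ℝ × ℝ) × (ℝ × ℝ) => pp x.1 i := fun i =>
    (pp_cont i).comp continuous_fst
  have c2 : ∀ i, Continuous fun x : (ℝ × ℝ) × (ℝ × ℝ) => pp x.2 i := fun i =>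
    (pp_cont i).comp continuous_snd
  have cΦ : Continuous Φ := by
    refine Continuous.add (Continuous.add ?_ ?_) ?_
    · refine continuous_finsetSum _ fun i _ => continuous_finsetSum _ fun j _ => ?_
      exact (((cone_cont _ (hc i j)).comp ((c1 i).prodMk (c2 j))).sub
        ((c1 i).smul continuous_const)).sub ((c2 j).smul continuous_const)
    · exact continuous_finsetSum _ fun i _ => (c1 i).smul continuous_const
    · exact continuous_finsetSum _ fun i _ => (c2 i).smul continuous_const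
  have cT : Continuous T :=
    (continuous_finsetSum _ fun i _ => c1 i).add (continuous_finsetSum _ fun i _ => c2 i)
  have key : ∀ (x : (ℝ × ℝ) × (ℝ × ℝ)) (i j : Fin 3), (∀ k, k ≠ i → pp x.1 k = 0) →
      (∀ k, k ≠ j → pp x.2 k = 0) →
      Φ x = cone (Γ i j) (pp x.1 i, pp x.2 j) ∧ T x = pp x.1 i + pp x.2 j := by
    intro x i j hi hj
    constructor
    · simp only [hΦ]
      rw [Finset.sum_eq_single i, Finset.sum_eq_single j, Finset.sum_eq_single i,
        Finset.sum_eq_single j]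
      · abel
      · intro k _ hk; simp [hj k hk]
      · simp
      · intro k _ hk; simp [hi k hk]
      · simp
      · intro k _ hk; simp [hj k hk, cone_left, h0]
      · simp
      · intro k _ hk
        refine Finset.sum_eq_zero fun l _ => ?_
        simp [hi k hk, cone_right, h1]
      · simp
    · simp only [hT]
      rw [Finset.sum_eq_single i, Finset.sum_eq_single j]
      · intro k _ hk; exact hj k hk
      · simp
      · intro k _ hk; exact hi k hk
      · simp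
  obtain ⟨x, hx, hx0⟩ := Pool.Agent.Lib.helper9.BorsukUlam.borsuk_ulam
    (E := (ℝ × ℝ) × (ℝ × ℝ)) (F := ℝ × (ℝ × ℝ)) (Or.inr (by simp))
    (fun x => (T x - T (-x), Φ x - Φ (-x)))
    (((cT.sub (cT.comp continuous_neg)).prodMk (cΦ.sub (cΦ.comp continuous_neg))).continuousOn)
    (by intro x _; simp)
  obtain ⟨i, i', hii, hi, hi'⟩ := pp_supp x.1
  obtain ⟨j, j', hjj, hj, hj'⟩ := pp_supp x.2
  obtain ⟨e1, e2⟩ := key x i j hi hj
  obtain ⟨e3, e4⟩ := key (-x) i' j' hi' hj'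
  simp only [Prod.mk_eq_zero, sub_eq_zero] at hx0
  obtain ⟨f1, f2⟩ := hx0
  have hne : T x ≠ 0 := by
    intro h
    have n1 := pp_nonneg x.1 i
    have n2 := pp_nonneg x.2 j
    have n3 := pp_nonneg (-x).1 i'
    have n4 := pp_nonneg (-x).2 j'
    have z1 : x.1 = 0 := pp_zero _
      (fun k => by by_cases hk : k = i; · subst hk; linarith
                   · exact hi k hk)
      (fun k => by by_cases hk : k = i'; · subst hk; change pp (-x).1 k = 0; linarith
                   · exact hi' k hk)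
    have z2 : x.2 = 0 := pp_zero _
      (fun k => by by_cases hk : k = j; · subst hk; linarith
                   · exact hj k hk)
      (fun k => by by_cases hk : k = j'; · subst hk; change pp (-x).2 k = 0; linarith
                   · exact hj' k hk)
    have : x = 0 := Prod.ext z1 z2
    simp [this] at hx
  rw [e1, e3] at f2
  simp only [cone] at f2
  rw [← e2, ← e4, ← f1] at f2
  exact ⟨i, j, i', j', _, _, hii, hjj, smul_right_injective _ hne f2⟩

/-- No plane drawing of a graph containing K33 with at most one edge subdivided once. -/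
theorem no_drawing {V : Type} (G : SimpleGraph V) (a b : Fin 3 → V) (w : V)
    (ha : Function.Injective a) (hb : Function.Injective b) (hab : ∀ i j, a i ≠ b j)
    (hwa : ∀ i, w ≠ a i) (hwb : ∀ i, w ≠ b i)
    (h : ∀ i j, G.Adj (a i) (b j) ∨ (i = 0 ∧ j = 0 ∧ G.Adj (a 0) w ∧ G.Adj w (b 0)))
    (p : V → ℝ × ℝ) (γ : V → V → unitInterval → ℝ × ℝ) (hp : Function.Injective p)
    (h1 : ∀ u v, G.Adj u v → Continuous (γ u v) ∧ γ u v 0 = p u ∧ γ u v 1 = p v)
    (h2 : ∀ u v x y, G.Adj u v → G.Adj x y → s(u, v) ≠ s(x, y) →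
      ∀ s t, γ u v s = γ x y t → s = 0 ∨ s = 1) : False := by
  have dis : ∀ u v x y, G.Adj u v → G.Adj x y → u ≠ x → u ≠ y → v ≠ x → v ≠ y →
      ∀ s t, γ u v s ≠ γ x y t := by
    intro u v x y huv hxy n1 n2 n3 n4 s t e
    have ne : s(u, v) ≠ s(x, y) := by simp [n1, n2]
    obtain ⟨-, a0, a1⟩ := h1 u v huv
    obtain ⟨-, b0, b1⟩ := h1 x y hxy
    rcases h2 u v x y huv hxy ne s t e with rfl | rfl <;>
      rcases h2 x y u v hxy huv ne.symm t _ e.symm with rfl | rfl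
    · exact n1 (hp (by rw [← a0, ← b0, e]))
    · exact n2 (hp (by rw [← a0, ← b1, e]))
    · exact n3 (hp (by rw [← a1, ← b0, e]))
    · exact n4 (hp (by rw [← a1, ← b1, e]))
  have ex : ∀ i j, ∃ Γ : unitInterval → ℝ × ℝ, Continuous Γ ∧ Γ 0 = p (a i) ∧ Γ 1 = p (b j) ∧
      ∀ s, ∃ u v t, G.Adj u v ∧ Γ s = γ u v t ∧ (u = a i ∨ (u = w ∧ i = 0)) ∧
        (v = b j ∨ (v = w ∧ i = 0)) := by
    intro i j
    rcases h i j with h | ⟨rfl, rfl, h, h'⟩
    · obtain ⟨c, a0, a1⟩ := h1 _ _ h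
      exact ⟨_, c, a0, a1, fun s => ⟨_, _, s, h, rfl, Or.inl rfl, Or.inl rfl⟩⟩
    · obtain ⟨c, a0, a1⟩ := h1 _ _ h
      obtain ⟨c', b0, b1⟩ := h1 _ _ h'
      let P : Path (p (a 0)) (p w) := ⟨⟨_, c⟩, a0, a1⟩
      let Q : Path (p w) (p (b 0)) := ⟨⟨_, c'⟩, b0, b1⟩
      refine ⟨P.trans Q, (P.trans Q).continuous, by simp, by simp, fun s => ?_⟩
      have : (P.trans Q) s ∈ range P ∪ range Q := by
        rw [← Path.trans_range]; exact ⟨s, rfl⟩
      rcases this with ⟨t, ht⟩ | ⟨t, ht⟩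
      · exact ⟨_, _, t, h, ht.symm, Or.inl rfl, Or.inr ⟨rfl, rfl⟩⟩
      · exact ⟨_, _, t, h', ht.symm, Or.inr ⟨rfl, rfl⟩, Or.inl rfl⟩
  choose Γ c a0 a1 hΓ using ex
  obtain ⟨i, j, i', j', s, t, hi, hj, e⟩ := cross Γ _ _ c a0 a1
  obtain ⟨u, v, s', huv, e1, hu, hv⟩ := hΓ i j s
  obtain ⟨x, y, t', hxy, e2, hx, hy⟩ := hΓ i' j' t
  have n1 : a i ≠ a i' := fun h => hi (ha h)
  have n2 : b j ≠ b j' := fun h => hj (hb h)
  refine dis u v x y huv hxy ?_ ?_ ?_ ?_ s' t' (by rw [← e1, ← e2, e])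
  · rcases hu with rfl | ⟨rfl, rfl⟩ <;> rcases hx with rfl | ⟨rfl, rfl⟩
    exacts [n1, (hwa _).symm, hwa _, (hi rfl).elim]
  · rcases hu with rfl | ⟨rfl, rfl⟩ <;> rcases hy with rfl | ⟨rfl, rfl⟩
    exacts [hab _ _, (hwa _).symm, hwb _, (hi rfl).elim]
  · rcases hv with rfl | ⟨rfl, rfl⟩ <;> rcases hx with rfl | ⟨rfl, rfl⟩
    exacts [(hab _ _).symm, (hwb _).symm, hwa _, (hi rfl).elim]
  · rcases hv with rfl | ⟨rfl, rfl⟩ <;> rcases hy with rfl | ⟨rfl, rfl⟩
    exacts [n2, (hwb _).symm, hwb _, (hi rfl).elim]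

end Pool.Agent.Lib.helper7.K33
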