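import Pool.Agent.Lib.helper7.OrdHom

set_option autoImplicit false

/-! 2-torsion in the homology of an order complex from a simplicial certificate. -/

namespace Pool.Agent.Lib.helper7.OrdHom

open Finset

variable {X : Type}

theorem bd_single (k : ℕ) (c : Fin (k + 1) → X) : bd X k (Finsupp.single c 1) =
    ∑ j : Fin (k + 1), (-1 : ℤ) ^ (j : ℕ) • Finsupp.single (c ∘ j.succAbove) (1 : ℤ) := by
  simp [bd]

theorem bd_bd (k : ℕ) (u : (Fin (k + 2) → X) →₀ ℤ) : bd X k (bd X (k + 1) u) = 0 := by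
  have key : ∀ c : Fin (k + 2) → X, bd X k (bd X (k + 1) (Finsupp.single c 1)) = 0 := by
    intro c
    have e : bd X k (bd X (k + 1) (Finsupp.single c 1)) = ∑ p : Fin (k + 2) × Fin (k + 1),
        (-1 : ℤ) ^ ((p.1 : ℕ) + p.2) •
          Finsupp.single (c ∘ (p.1.succAbove ∘ p.2.succAbove)) (1 : ℤ) := by
      simp only [bd_single, map_sum, map_smul, Fintype.sum_prod_type, smul_sum, smul_smul, pow_add]
      rfl
    rw [e]
    refine Finset.sum_involution (fun p _ => (p.1.succAbove p.2, p.2.predAbove p.1)) ?_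
      (fun p _ _ h => Fin.succAbove_ne _ _ (congrArg Prod.fst h)) (fun _ _ => mem_univ _) ?_
    · intro p _
      have : (p.1.succAbove p.2).succAbove ∘ (p.2.predAbove p.1).succAbove
          = p.1.succAbove ∘ p.2.succAbove :=
        funext fun i => Fin.succAbove_succAbove_succAbove_predAbove _ _ _
      simp only [this, Fin.neg_one_pow_succAbove_add_predAbove, neg_smul, add_neg_cancel]
    · intro p _
      simp only [Fin.predAbove_predAbove_succAbove, Fin.succAbove_succAbove_predAbove]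
  induction u using Finsupp.induction_linear with
  | zero => simp
  | add f g hf hg => simp [hf, hg]
  | single c a => rw [← Finsupp.smul_single_one, map_smul, map_smul, key, smul_zero]

theorem even_gen {ι : Type} (k : ℕ) (A : Finset ι) (g : ι → Fin (k + 1) → X)
    (h : ∀ (j : Fin (k + 1)) (f : (Fin k → X) → ZMod 2), ∑ a ∈ A, f (g a ∘ j.succAbove) = 0)
    (c : Fin k → X) : (2 : ℤ) ∣ bd X k (∑ a ∈ A, Finsupp.single (g a) 1) c := by
  have : ((bd X k (∑ a ∈ A, Finsupp.single (g a) 1) c : ℤ) : ZMod 2) = ∑ j : Fin (k + 1), ∑ a ∈ A,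
      ((((-1 : ℤ) ^ (j : ℕ) •
      Finsupp.single (g a ∘ j.succAbove) (1 : ℤ) : _ →₀ ℤ) c : ℤ) : ZMod 2) := by
    rw [sum_comm, map_sum, Finsupp.finsetSum_apply, Int.cast_sum]
    refine sum_congr rfl fun a _ => ?_
    rw [bd_single, Finsupp.finsetSum_apply, Int.cast_sum]
  refine (ZMod.intCast_zmod_eq_zero_iff_dvd _ 2).mp (this.trans (sum_eq_zero fun j _ => ?_))
  exact h j fun d => ((((-1 : ℤ) ^ (j : ℕ) •
      Finsupp.single d (1 : ℤ) : _ →₀ ℤ) c : ℤ) : ZMod 2)

/-- alternating sum of a cochain over the faces -/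
def Dl {V : Type} {k : ℕ} (f : (Fin k → V) → ℤ) (s : Fin (k + 1) → V) : ℤ :=
  ∑ j : Fin (k + 1), (-1) ^ (j : ℕ) * f (s ∘ j.succAbove)

theorem Dl_deg {V : Type} {k : ℕ} (f : (Fin (k + 1) → V) → ℤ)
    (hf : ∀ s, ¬ Function.Injective s → f s = 0) (s : Fin (k + 2) → V) (j : Fin (k + 1))
    (h : s j.castSucc = s j.succ) : Dl f s = 0 := by
  rw [Dl, sum_eq_add j.castSucc j.succ Fin.castSucc_lt_succ.ne]
  · have : s ∘ j.succ.succAbove = s ∘ j.castSucc.succAbove := by
      funext t
      rcases lt_trichotomy t j with ht | rfl | ht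
      · simp only [Function.comp, Fin.succAbove_succ_of_le _ _ ht.le,
          Fin.succAbove_castSucc_of_lt _ _ ht]
      · simp [h]
      · simp only [Function.comp, Fin.succAbove_succ_of_lt _ _ ht,
          Fin.succAbove_castSucc_of_le _ _ ht.le]
    rw [this]
    simp [pow_succ]
  · intro i _ hi
    obtain ⟨a, ha⟩ := Fin.exists_succAbove_eq hi.1.symm
    obtain ⟨b, hb⟩ := Fin.exists_succAbove_eq hi.2.symm
    rw [hf, mul_zero]
    intro hinj
    have : a = b := hinj (by simp only [Function.comp, ha, hb, h])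
    exact Fin.castSucc_lt_succ.ne (ha.symm.trans (this ▸ hb))
  · simp
  · simp

theorem sum_perm_last {M : Type} [AddCommMonoid M] {n : ℕ} (F : (Fin n → Fin (n + 1)) → M) :
    ∑ p : Equiv.Perm (Fin (n + 1)), F (p ∘ Fin.castSucc)
      = ∑ v : Fin (n + 1), ∑ e : Equiv.Perm (Fin n), F (v.succAbove ∘ e) := by
  let m : Fin (n + 1) × Equiv.Perm (Fin n) → Equiv.Perm (Fin (n + 1)) := fun w =>
    finSuccEquivLast.trans (w.2.optionCongr.trans (finSuccEquiv' w.1).symm)
  have h1 : ∀ w, m w ∘ Fin.castSucc = w.1.succAbove ∘ w.2 := fun w => funext fun x => by simp [m]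
  have h2 : ∀ w, m w (Fin.last n) = w.1 := fun w => by simp [m]
  have hb : Function.Bijective m := by
    refine (Fintype.bijective_iff_injective_and_card m).mpr ⟨fun w w' h => ?_, ?_⟩
    · have e : w.1 = w'.1 := by rw [← h2, h, h2]
      refine Prod.ext e (Equiv.ext fun x => w.1.succAbove_right_injective ?_)
      have := congrFun ((h1 w).symm.trans (h ▸ h1 w')) x
      simpa [e] using this
    · simp [Fintype.card_perm, Nat.factorial_succ]
  rw [← hb.sum_comp, Fintype.sum_prod_type]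
  simp only [h1]

variable [PartialOrder X]

theorem bd_mem (P : Set X) (k : ℕ) (u : (Fin (k + 1) → X) →₀ ℤ) (hu : u ∈ Chains P (k + 1)) :
    bd X k u ∈ Chains P k := by
  rw [Chains, Finsupp.supported_eq_span_single] at hu
  refine Submodule.span_induction (fun x hx => ?_) (by simp) (fun x y _ _ hx hy => ?_)
    (fun a x _ hx => ?_) hu
  · obtain ⟨c, hc, rfl⟩ := hx
    rw [bd_single]
    refine Submodule.sum_mem _ fun j _ => Submodule.smul_mem _ _ ?_
    exact Finsupp.single_mem_supported ℤ 1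
      ⟨hc.1.comp (Fin.strictMono_succAbove j), fun i => hc.2 _⟩
  · rw [map_add]; exact Submodule.add_mem _ hx hy
  · rw [map_smul]; exact Submodule.smul_mem _ _ hx

theorem gen (P : Set X) (k : ℕ) {ι : Type} (A : Finset ι) (g : ι → Fin (k + 2) → X)
    (hg : ∀ a ∈ A, StrictMono (g a) ∧ ∀ i, g a i ∈ P)
    (hf : ∀ (j : Fin (k + 2)) (f : (Fin (k + 1) → X) → ZMod 2), ∑ a ∈ A, f (g a ∘ j.succAbove) = 0)
    (f : (Fin (k + 1) → X) → ℤ) (he : ∀ c, StrictMono c → (∀ i, c i ∈ P) → 2 ∣ Dl f c)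
    (hs : (∑ a ∈ A, Dl f (g a)) % 4 = 2) : ∃ x : Hom P k, x ≠ 0 ∧ 2 • x = 0 := by
  let F : ((Fin (k + 1) → X) →₀ ℤ) →ₗ[ℤ] ℤ := Finsupp.linearCombination ℤ f
  have hF : ∀ c, F (bd X (k + 1) (Finsupp.single c 1)) = Dl f c := fun c => by
    simp [bd_single, F, Dl]
  let w : (Fin (k + 2) → X) →₀ ℤ := ∑ a ∈ A, Finsupp.single (g a) 1
  have hw : w ∈ Chains P (k + 2) :=
    Submodule.sum_mem _ fun a ha => Finsupp.single_mem_supported ℤ 1 (hg a ha)
  have h : F (bd X (k + 1) w) % 4 = 2 := by simpa only [w, map_sum, hF] using hs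
  have hF' : ∀ u ∈ Chains P (k + 2), (2 : ℤ) ∣ F (bd X (k + 1) u) := by
    intro u hu
    rw [Chains, Finsupp.supported_eq_span_single] at hu
    refine Submodule.span_induction (fun x hx => ?_) (by simp) (fun x y _ _ hx hy => ?_)
      (fun a x _ hx => ?_) hu
    · obtain ⟨c, hc, rfl⟩ := hx
      rw [hF]
      exact he c hc.1 hc.2
    · rw [map_add, map_add]; exact dvd_add hx hy
    · rw [map_smul, map_smul]; exact hx.mul_left a
  let z : (Fin (k + 1) → X) →₀ ℤ := (bd X (k + 1) w).mapRange (· / 2) (by simp)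
  have hz : (2 : ℤ) • z = bd X (k + 1) w := by
    ext c
    simp only [z, Finsupp.smul_apply, Finsupp.mapRange_apply, smul_eq_mul]
    exact Int.mul_ediv_cancel' (even_gen _ A g hf c)
  have hc : z ∈ Cyc P k := by
    refine ⟨?_, ?_⟩
    · exact (Finset.coe_subset.mpr Finsupp.support_mapRange).trans (bd_mem P _ w hw)
    · have := bd_bd k w
      rw [← hz, map_smul] at this
      exact (smul_eq_zero.mp this).resolve_left two_ne_zero
  refine ⟨Submodule.Quotient.mk ⟨z, hc⟩, fun h0 => ?_, ?_⟩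
  · obtain ⟨u, hu, e⟩ := (Submodule.Quotient.mk_eq_zero _).mp h0
    have h1 := hF' u hu
    rw [← hz, map_smul, smul_eq_mul] at h
    have e' : bd X (k + 1) u = z := e
    rw [e'] at h1
    omega
  · rw [← Submodule.Quotient.mk_smul, Submodule.Quotient.mk_eq_zero]
    refine ⟨w, hw, ?_⟩
    rw [← hz]
    simp [two_smul]

/-- flags of faces of a simplicial mod 2 cycle, pushed into the poset -/
def flag {k : ℕ} (q : Finset ℕ → X) (a : Fin k → ℕ) (j : Fin k) : X := q ((Iic j).image a)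

omit [PartialOrder X] in
theorem flag_face {k : ℕ} {ι : Type} [Fintype ι] (s : ι → Fin (k + 1) → ℕ) (q : Finset ℕ → X)
    (hr : ∀ f : (Fin k → ℕ) → ZMod 2, ∑ i, ∑ v : Fin (k + 1), f (s i ∘ v.succAbove) = 0)
    (j : Fin (k + 1)) (f : (Fin k → X) → ZMod 2) :
    ∑ a : ι × Equiv.Perm (Fin (k + 1)), f (flag q (s a.1 ∘ a.2) ∘ j.succAbove) = 0 := by
  rw [Fintype.sum_prod_type]
  rcases Fin.eq_castSucc_or_eq_last j with ⟨i, rfl⟩ | rfl
  · refine sum_eq_zero fun x _ => sum_involution (fun p _ => p * Equiv.swap i.castSucc i.succ)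
      (fun p _ => ?_) (fun p _ _ h => ?_) (fun _ _ => mem_univ _) fun p _ => by simp [mul_assoc]
    · have : flag q (s x ∘ ⇑(p * Equiv.swap i.castSucc i.succ)) ∘ i.castSucc.succAbove
          = flag q (s x ∘ p) ∘ i.castSucc.succAbove := by
        funext t
        have ht := Fin.succAbove_ne i.castSucc t
        simp only [Function.comp, flag]
        generalize i.castSucc.succAbove t = u at ht
        congr 1
        have : (Iic u).image (Equiv.swap i.castSucc i.succ) = Iic u := by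
          refine eq_of_subset_of_card_le (fun y hy => ?_)
            (card_image_of_injective _ (Equiv.injective _)).ge
          obtain ⟨z, hz, rfl⟩ := mem_image.mp hy
          rw [mem_Iic] at hz ⊢
          rw [Equiv.swap_apply_def]
          split_ifs with h1 h2
          · exact Fin.castSucc_lt_iff_succ_le.mp (lt_of_le_of_ne (h1 ▸ hz) ht.symm)
          · exact Fin.castSucc_lt_succ.le.trans (h2 ▸ hz)
          · exact hz
        conv_rhs => rw [← this, image_image]
        rfl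
      rw [this, CharTwo.add_self_eq_zero]
    · have := Equiv.congr_fun h i.succ
      simp only [Equiv.Perm.mul_apply, Equiv.swap_apply_right, EmbeddingLike.apply_eq_iff_eq] at this
      exact Fin.castSucc_lt_succ.ne this
  · refine Eq.trans (sum_congr rfl fun x _ => ?_)
      (hr fun b => ∑ e : Equiv.Perm (Fin k), f (flag q (b ∘ e)))
    refine Eq.trans (sum_congr rfl fun p _ => ?_) (sum_perm_last fun r => f (flag q (s x ∘ r)))
    congr 1
    funext t
    simp only [Function.comp, flag, Fin.succAbove_last]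
    congr 1
    rw [← Fin.finsetImage_castSucc_Iic, image_image]
    rfl

theorem cert (P : Set X) (k : ℕ) {ι : Type} [Fintype ι] (s : ι → Fin (k + 2) → ℕ)
    (q : Finset ℕ → X) (g : X → ℕ)
    (h1 : ∀ i (S T : Finset (Fin (k + 2))), S ⊂ T → q (S.image (s i)) < q (T.image (s i)))
    (h2 : ∀ i (S : Finset (Fin (k + 2))), S.Nonempty → q (S.image (s i)) ∈ P)
    (h3 : ∀ i (S : Finset (Fin (k + 2))) t, t ∈ S → (∀ u ∈ S, u ≤ t) → g (q (S.image (s i))) = s i t)
    (hg : ∀ x ∈ P, ∀ y, x ≤ y → g y ≤ g x)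
    (hr : ∀ f : (Fin (k + 1) → ℕ) → ZMod 2, ∑ i, ∑ v : Fin (k + 2), f (s i ∘ v.succAbove) = 0)
    (f : (Fin (k + 1) → ℕ) → ℤ) (hf : ∀ a, ¬ Function.Injective a → f a = 0)
    (he : ∀ c, StrictMono c → (∀ i, c i ∈ P) → StrictAnti (g ∘ c) → 2 ∣ Dl f (g ∘ c))
    (hs' : (∑ i, Dl f (s i)) % 4 = 2) :
    ∃ c : ι × Equiv.Perm (Fin (k + 2)) → Fin (k + 2) → X,
      (∀ a, StrictMono (c a) ∧ ∀ i, c a i ∈ P) ∧
      (∀ (j : Fin (k + 2)) (f : (Fin (k + 1) → X) → ZMod 2), ∑ a, f (c a ∘ j.succAbove) = 0) ∧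
      (∀ c, StrictMono c → (∀ i, c i ∈ P) → 2 ∣ Dl (fun a => f (g ∘ a)) c) ∧
      (∑ a, Dl (fun a => f (g ∘ a)) (c a)) % 4 = 2 := by
  have deg : ∀ c : Fin (k + 2) → X, StrictMono c → (∀ i, c i ∈ P) → ¬ StrictAnti (g ∘ c) →
      Dl f (g ∘ c) = 0 := by
    intro c hc hP h
    rw [Fin.strictAnti_iff_succ_lt] at h
    push Not at h
    obtain ⟨j, hj⟩ := h
    exact Dl_deg f hf _ j (le_antisymm hj (hg _ (hP _) _ (hc Fin.castSucc_lt_succ).le))
  have e : ∀ i (p : Equiv.Perm (Fin (k + 2))) j,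
      flag q (s i ∘ p) j = q (((Iic j).image p).image (s i)) := fun i p j => by
    rw [flag, image_image]
  have hm : ∀ a : ι × Equiv.Perm (Fin (k + 2)),
      StrictMono (flag q (s a.1 ∘ a.2)) ∧ ∀ i, flag q (s a.1 ∘ a.2) i ∈ P := fun a =>
    ⟨fun i j hij => by
      rw [e, e]
      exact h1 _ _ _ ((image_ssubset_image a.2.injective).mpr (Iic_ssubset_Iic.mpr hij)),
     fun i => by rw [e]; exact h2 _ _ (nonempty_Iic.image _)⟩
  refine ⟨fun a => flag q (s a.1 ∘ a.2), hm, flag_face s q hr, fun c hc hP => ?_, ?_⟩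
  · by_cases h : StrictAnti (g ∘ c)
    · exact he c hc hP h
    · exact (deg c hc hP h).symm ▸ dvd_zero 2
  · rw [Fintype.sum_prod_type, ← hs']
    congr 1
    refine sum_congr rfl fun i _ => ?_
    refine (sum_eq_single 1 (fun p _ hp => deg _ (hm (i, p)).1 (hm (i, p)).2 fun h => hp ?_)
      (fun h => absurd (mem_univ _) h)).trans (congrArg (Dl f) (funext fun j => ?_))
    swap
    · exact h3 i (Iic j) j (mem_Iic.mpr le_rfl) fun u hu => mem_Iic.mp hu
    · refine (Equiv.Perm.monotone_iff p).mp (Fin.monotone_iff_le_succ.mpr fun j => ?_)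
      by_contra hn
      obtain ⟨t, ht, hmax⟩ := exists_max_image ((Iic j.castSucc).image p) id (nonempty_Iic.image _)
      have a1 := h3 i _ t ht hmax
      have a2 := h3 i ((Iic j.succ).image p) t
        (image_subset_image (Iic_subset_Iic.mpr Fin.castSucc_lt_succ.le) ht) fun u hu => by
          obtain ⟨z, hz, rfl⟩ := mem_image.mp hu
          rcases (mem_Iic.mp hz).eq_or_lt with rfl | hz
          · exact (not_le.mp hn).le.trans (hmax _ (mem_image_of_mem _ (mem_Iic.mpr le_rfl)))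
          · exact hmax _ (mem_image_of_mem _ (mem_Iic.mpr (Fin.le_castSucc_iff.mpr hz)))
      have := h (Fin.castSucc_lt_succ (i := j))
      simp only [Function.comp, e, a1, a2] at this
      exact lt_irrefl _ this

end Pool.Agent.Lib.helper7.OrdHom
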