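import Pool.Agent.Lib.helper7.CXSharpDefs
import Pool.Agent.Lib.lead.CXCook

/-! Typed certificates for counting problems; the parsimonious Cook-Levin theorem. -/

namespace Pool.Agent.Lib.CX

open Function

variable {α β γ V : Type}

def tokStep (s : Bool × List (Option Bool)) (b : Bool) : Bool × List (Option Bool) :=
  bif s.1 then (false, some b :: s.2) else bif b then (false, none :: s.2) else (true, s.2)

def Tr.toks : Tr → List (Option Bool)
  | .leaf b => [some b]
  | .node l r => r.toks ++ l.toks ++ [none]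

theorem tok_code (t : Tr) : ∀ s, t.code.foldl tokStep (false, s) = (false, t.toks ++ s) := by
  induction t with
  | leaf b => intro s; simp [Tr.code, Tr.toks, tokStep]
  | node l r ih1 ih2 => intro s; simp [Tr.code, Tr.toks, ih1, ih2, tokStep]

theorem tok_pad (k : ℕ) : ∀ b s, ∃ l, ((List.replicate k false).foldl tokStep (b, s)).2 = l ++ s := by
  induction k with
  | zero => exact fun _ _ => ⟨[], rfl⟩
  | succ k ih =>
    rintro (_ | _) s
    · simpa [List.replicate_succ, tokStep] using ih true s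
    · obtain ⟨l, e⟩ := ih false (some false :: s)
      exact ⟨l ++ [some false], by simpa [List.replicate_succ, tokStep] using e⟩

def bldStep (s : List Tr) (o : Option Bool) : List Tr :=
  bif o.isSome then .leaf (o.getD false) :: s
  else .node (s.headD (.leaf false)) (s.tail.headD (.leaf false)) :: s.tail.tail

theorem bld_toks (t : Tr) : ∀ s, t.toks.foldl bldStep s = t :: s := by
  induction t with
  | leaf b => intro s; simp [Tr.toks, bldStep]
  | node l r ih1 ih2 => intro s; simp [Tr.toks, ih1, ih2, bldStep]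

def parse2 (y : List Bool) : Tr := ((y.foldl tokStep (false, [])).2.foldl bldStep []).headD (.leaf false)

theorem parse2_code (t : Tr) (k : ℕ) : parse2 (t.code ++ List.replicate k false) = t := by
  obtain ⟨l, e⟩ := tok_pad k false t.toks
  simp [parse2, tok_code, e, bld_toks]

theorem PT.parse2 : PT parse2 := by
  have h1 : PT fun y : List Bool => y.foldl tokStep (false, []) :=
    PT.foldl_add (F := fun _ => tokStep) (i := fun _ => (false, [])) (l := fun y : List Bool => y)
      (D := fun _ => 10) (by unfold tokStep; fun_prop) (by fun_prop) (by fun_prop) (by fun_prop)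
      fun _ ⟨u, s⟩ b _ => by cases u <;> cases b <;> simp [tokStep, size_pair] <;> omega
  exact (PT.foldl_add (F := fun _ => bldStep) (i := fun _ => []) (D := fun _ => 10) (by unfold bldStep; fun_prop)
    (by fun_prop) h1.snd (by fun_prop) fun _ s o _ => by
      have : ∀ b, CX.size (Tr.leaf b) = 2 := fun _ => rfl
      cases o <;> rcases s with _ | ⟨x, _ | ⟨y, s⟩⟩ <;> simp [bldStep, size_node, this] <;> omega).headD (PT.const _)

/-- a function counting typed certificates of polynomial size -/
theorem InSharpP.of_cert [Enc α] [Enc γ] [Dec γ] {f : α → ℕ} (V : α → γ → Prop) {i : ∀ a c, Decidable (V a c)}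
    (B : α → ℕ) (hV : PT fun p : α × γ => @decide (V p.1 p.2) (i p.1 p.2)) (hB : PB B)
    (bound : ∀ a c, V a c → size c ≤ B a) (h : ∀ a, f a = {c | V a c}.ncard) : InSharpP f := by
  obtain ⟨q, hq⟩ := hB
  have hd : PT fun p : α × List Bool => (Dec.dec (parse2 p.2) : γ) := Dec.pt.comp (PT.parse2.comp PT.snd')
  refine ⟨q, fun p => @decide _ (i p.1 (Dec.dec (parse2 p.2))) && decide (p.2 = enc (Dec.dec (parse2 p.2) : γ) ++
    (p.2.drop (size (Dec.dec (parse2 p.2) : γ))).map fun _ => false),
    (hV.comp (PT.fst'.pair hd)).and (by fun_prop), fun a => ?_⟩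
  have key : ∀ (c : γ) k, Dec.dec (parse2 (enc c ++ List.replicate k false)) = c := fun c k => by
    rw [enc, parse2_code, Dec.dec_tr]
  rw [h, ← Set.ncard_image_of_injective _ (f := fun c => enc c ++ List.replicate (q.eval (size a) - size c) false)
    fun c d e => (key c _).symm.trans ((congrArg (fun y => Dec.dec (parse2 y)) e).trans (key d _))]
  congr 1
  ext y
  simp only [Set.mem_image, Set.mem_ofPred_eq, Bool.and_eq_true, decide_eq_true_eq, List.map_const']
  constructor
  · rintro ⟨c, hc, rfl⟩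
    have := (bound a c hc).trans (hq a)
    rw [key]
    exact ⟨by simp only [size] at *; simp; omega, hc, by simp [size]⟩
  · rintro ⟨h1, h2, h3⟩
    exact ⟨_, h2, by rw [← h1, ← List.length_drop, ← h3]⟩

theorem TRed.comp [Enc α] [Enc β] [Enc γ] {f : α → ℕ} {g : β → ℕ} {k : γ → ℕ} (r : α → β) (h : α × ℕ → ℕ)
    (hr : PT r) (hh : PT h) (e : ∀ a, f a = h (a, g (r a))) (t : TRed g k) : TRed f k :=
  let ⟨Q, h', a, b, c⟩ := t
  ⟨fun x => Q (r x), fun p => h (p.1, h' (r p.1, p.2)), a.comp hr, by fun_prop, fun x => by rw [e, c]⟩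

/-- the number of satisfying assignments of the variables occurring in `φ` -/
noncomputable def Cnt3 [DecidableEq V] (φ : List (Cl3 V)) : ℕ :=
  {s : Finset V | s ⊆ (φ.flatMap Cl3.vars).toFinset ∧ ∀ C ∈ φ, C.ok fun x => decide (x ∈ s)}.ncard

def clos [DecidableEq V] (vs : List V) (φ : List (Cl3 V)) : List (Cl3 V) :=
  φ ++ vs.map (fun x => ((x, true), (x, false), (x, true))) ++
    ((φ.flatMap Cl3.vars).filter fun x => decide (x ∉ vs)).map fun x => unit x false

theorem PT.clos [DecidableEq V] [Enc V] : PT fun a : List V × List (Cl3 V) => clos a.1 a.2 := by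
  unfold CX.clos Cl3.vars unit; fun_prop

theorem cnt3_clos [DecidableEq V] (vs : List V) (φ : List (Cl3 V)) : Cnt3 (clos vs φ) =
    {s : Finset V | s ⊆ vs.toFinset ∧ ∀ C ∈ φ, C.ok fun x => decide (x ∈ s)}.ncard := by
  unfold Cnt3
  congr 1
  ext s
  have : ∀ x, x ∈ (clos vs φ).flatMap Cl3.vars ↔ x ∈ vs ∨ x ∈ φ.flatMap Cl3.vars := fun x => by
    simp only [clos, List.flatMap_append, List.flatMap_map, List.mem_append]
    simp [Cl3.vars, unit]
    grind
  simp only [Set.mem_ofPred_eq, Finset.subset_iff, List.mem_toFinset, this]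
  simp only [clos, List.forall_mem_append, List.forall_mem_map, List.mem_filter]
  simp only [Cl3.ok, unit]
  grind

open Classical in
noncomputable def tabV (p : Prog) (a : List (Option Bool) × List Unit) : List (ℕ × Cell) :=
  (labels p).flatMap (fun κ => (List.range (a.2.length + 1)).map fun t => (t, lab p κ)) ++
  (List.range (a.2.length + 1)).flatMap fun t =>
    (cells (nst p) (a.2.length + 2 + a.1.length - t)).map fun x => (t, x)

open Classical in
noncomputable def tab2 (p : Prog) (a : List (Option Bool) × List Unit) : List (Cl3 (ℕ × Cell)) :=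
  [unit (0, lab p [p]) true, unit (a.2.length, 1, 0, 1) true] ++
  (cells (nst p) (a.2.length + 2 + a.1.length)).flatMap (fun x => (ini a.1 x).toList.map fun c => unit (0, x) c) ++
  (labels p).flatMap fun κ => ((List.range a.2.length).flatMap fun t =>
    [(((t, lab p κ), false), ((t, cnd κ), false), ((t + 1, lab p (nxt κ true)), true)),
      (((t, lab p κ), false), ((t, cnd κ), true), ((t + 1, lab p (nxt κ false)), true))] ++
    (cells (nst p) (a.2.length + 2 + a.1.length - (t + 1))).flatMap fun x =>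
      [(((t, lab p κ), false), ((t, src κ x), false), ((t + 1, x), true)),
        (((t, lab p κ), false), ((t, src κ x), true), ((t + 1, x), false))]) ++
    ((labels p).filter (· ≠ κ)).flatMap fun κ' => (List.range (a.2.length + 1)).map fun t =>
      (((t, lab p κ), false), ((t, lab p κ'), false), ((t, lab p κ), false))

theorem PT.tabV (p : Prog) : PT (tabV p) :=
  PT.append (PT.flatMap_const _ fun κ _ => by fun_prop) (by unfold cells; fun_prop)

theorem PT.tab2 (p : Prog) : PT (tab2 p) := by
  refine PT.append (by unfold cells ini unit; fun_prop) (PT.flatMap_const _ fun κ _ => PT.append ?_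
    (PT.flatMap_const _ fun κ' _ => by fun_prop))
  have := PT.src κ
  unfold cells; fun_prop

open Classical in
noncomputable def tval (p : Prog) (w : List Bool) (y : ℕ × Cell) : Bool :=
  if y.2.1 = 4 then decide (y.2 = lab p (step^[y.1] ([p], io w)).1) else cval (step^[y.1] ([p], io w)).2 y.2

theorem mem_tabV {p pat U y} : y ∈ tabV p (pat, U) ↔ y.1 ≤ U.length ∧ ((∃ κ ∈ labels p, lab p κ = y.2) ∨
    (y.2.1 < 4 ∧ y.2.2.1 < nst p ∧ y.2.2.2 + y.1 < U.length + 2 + pat.length)) := by
  obtain ⟨t, x⟩ := y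
  simp only [tabV, List.mem_append, List.mem_flatMap, List.mem_map, List.mem_range, mem_cells, Prod.mk.injEq]
  constructor
  · rintro (⟨κ, a, _, b, rfl, c⟩ | ⟨_, a, _, ⟨b, c, d⟩, rfl, rfl⟩)
    exacts [⟨by omega, .inl ⟨κ, a, c⟩⟩, ⟨by omega, .inr ⟨b, c, by omega⟩⟩]
  · rintro ⟨a, ⟨κ, b, c⟩ | ⟨b, c, d⟩⟩
    exacts [.inl ⟨κ, b, t, by omega, rfl, c⟩, .inr ⟨t, by omega, x, ⟨b, c, by omega⟩, rfl, rfl⟩]

theorem tab2_iff (p : Prog) (pat : List (Option Bool)) (U : List Unit) (v : ℕ × Cell → Bool) :
    (∀ C ∈ tab2 p (pat, U), C.ok v) ↔ ∃ w, (Fits pat w ∧ cval (step^[U.length] ([p], io w)).2 (1, 0, 1) = true) ∧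
      ∀ y ∈ tabV p (pat, U), v y = tval p w y := by
  simp only [tab2, List.forall_mem_append, List.forall_mem_flatMap, List.forall_mem_cons, List.forall_mem_map,
    List.not_mem_nil, IsEmpty.forall_iff, implies_true, and_true, Cl3.ok, unit, or_self, mem_cells, List.mem_range,
    Option.mem_toList, mem_tabV, List.mem_filter, decide_eq_true_eq]
  generalize U.length = T
  classical
  have l4 : ∀ κ, (lab p κ).1 = 4 := fun _ => rfl
  constructor
  · rintro ⟨⟨⟨h0, hT⟩, h1⟩, h2⟩
    refine ⟨pat.mapIdx fun j o => o.getD (v (0, 1, 0, j)), ?_⟩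
    set w := pat.mapIdx fun j o => o.getD (v (0, 1, 0, j))
    have : ∀ t ≤ T, v (t, lab p (step^[t] ([p], io w)).1) = true ∧ ∀ x : Cell, x.1 < 4 → x.2.1 < nst p →
        x.2.2 + t < T + 2 + pat.length → v (t, x) = cval (step^[t] ([p], io w)).2 x := fun t => by
      induction t with
      | zero =>
        refine fun _ => ⟨h0, fun x a b c => ?_⟩
        rcases e : ini pat x with _ | c
        · obtain ⟨e1, e2⟩ := ini_none (fun j => v (0, 1, 0, j)) e
          exact (congrArg (fun y => v (0, y)) e1).trans e2.symm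
        · exact (h1 x ⟨a, b, by omega⟩ c e).trans ((fits_fill pat _).ini e).symm
      | succ t ih =>
        intro ht
        obtain ⟨i1, i2⟩ := ih (by omega)
        have hl := run_label p (io w) t
        rw [iterate_succ_apply']
        generalize step^[t] ([p], io w) = c at *
        obtain ⟨κ, s⟩ := c
        obtain ⟨⟨a1, a2⟩, a3⟩ := (h2 κ hl).1 t (by omega)
        refine ⟨?_, fun x a b c => ?_⟩
        · rw [step_fst, ← i2 _ (cnd_bound κ).1 (cnd_lt hl) (by rw [(cnd_bound κ).2]; omega)]
          cases h : v (t, cnd κ) <;> simp_all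
        · obtain ⟨b1, b2, b3⟩ := src_bound κ x
          rw [step_snd, ← i2 _ (b1 a) (b2 ▸ b) (by omega)]
          have := a3 x ⟨a, b, by omega⟩
          cases h : v (t, src κ x) <;> simp_all
    refine ⟨⟨fits_fill pat _, ?_⟩, ?_⟩
    · rw [← (this T le_rfl).2 _ (by simp) (by simp [nst]) (by simp; omega), hT]
    rintro ⟨t, x⟩ ⟨ht, ⟨κ, hκ, rfl⟩ | ⟨a, b, c⟩⟩
    · simp only [tval, l4, if_true]
      by_cases e : (step^[t] ([p], io w)).1 = κ
      · simpa [e] using (this t ht).1
      · have a := (h2 κ hκ).2 _ ⟨run_label p (io w) t, e⟩ t (Nat.lt_succ_of_le ht)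
        have b : lab p κ ≠ lab p (step^[t] ([p], io w)).1 := fun h => e (lab_inj hκ h).symm
        simpa [b, (this t ht).1] using a
    · rw [tval, if_neg a.ne]; exact (this t ht).2 x a b c
  · rintro ⟨w, ⟨hw, hT⟩, h⟩
    have hl : ∀ t ≤ T, ∀ κ ∈ labels p, v (t, lab p κ) = decide (κ = (step^[t] ([p], io w)).1) := fun t ht κ hκ => by
      rw [h _ ⟨ht, .inl ⟨κ, hκ, rfl⟩⟩, tval, if_pos (l4 κ), decide_eq_decide]
      exact ⟨lab_inj hκ, fun e => congrArg (lab p) e⟩
    have hc : ∀ t ≤ T, ∀ x : Cell, x.1 < 4 → x.2.1 < nst p → x.2.2 + t < T + 2 + pat.length →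
        v (t, x) = cval (step^[t] ([p], io w)).2 x := fun t ht x a b c => by
      rw [h _ ⟨ht, .inr ⟨a, b, c⟩⟩, tval, if_neg a.ne]
    refine ⟨⟨⟨by simpa using hl 0 (by omega) _ (run_label p (io w) 0), ?_⟩, fun x hx c e => ?_⟩,
      fun κ hκ => ⟨fun t ht => ?_, fun κ' hκ' t ht => ?_⟩⟩
    · rw [hc T le_rfl _ (by simp) (by simp [nst]) (by simp; omega), hT]
    · rw [hc 0 (by omega) x hx.1 hx.2.1 hx.2.2]; exact hw.ini e
    · rw [hl t ht.le κ hκ, hl _ ht _ (labels_closed hκ _), hl _ ht _ (labels_closed hκ _),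
        hc t ht.le _ (cnd_bound κ).1 (cnd_lt hκ) (by rw [(cnd_bound κ).2]; omega), iterate_succ_apply']
      by_cases e : κ = (step^[t] ([p], io w)).1
      · refine ⟨?_, fun x hx => ?_⟩
        · generalize step^[t] ([p], io w) = c at *
          obtain ⟨κ', s⟩ := c
          subst e
          rw [step_fst]; cases cval s (cnd κ) <;> simp
        · obtain ⟨b1, b2, b3⟩ := src_bound κ x
          rw [hc t ht.le _ (b1 hx.1) (b2 ▸ hx.2.1) (by omega), hc _ ht _ hx.1 hx.2.1 (by omega), iterate_succ_apply']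
          generalize step^[t] ([p], io w) = c at *
          obtain ⟨κ', s⟩ := c
          subst e
          rw [step_snd]; cases cval s (src κ x) <;> simp
      · simp [e]
    · rw [hl t (by omega) κ hκ, hl t (by omega) κ' hκ'.1]
      have := hκ'.2
      grind

theorem cnt_tab2 (p : Prog) (pat : List (Option Bool)) (U : List Unit) :
    Cnt3 (clos (tabV p (pat, U)) (tab2 p (pat, U))) =
      {w | Fits pat w ∧ cval (step^[U.length] ([p], io w)).2 (1, 0, 1) = true}.ncard := by
  rw [cnt3_clos, ← Set.InjOn.ncard_image (f := fun w => (tabV p (pat, U)).toFinset.filter fun y => tval p w y = true)]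
  · congr 1
    ext s
    simp only [Set.mem_ofPred_eq, tab2_iff, Set.mem_image]
    constructor
    · rintro ⟨h, w, a, b⟩
      refine ⟨w, a, Finset.ext fun y => ?_⟩
      rw [Finset.mem_filter, List.mem_toFinset]
      exact ⟨fun c => by simpa [c.2] using b y c.1, fun c => ⟨by simpa using h c, by
        simpa [c] using b y (by simpa using h c)⟩⟩
    · rintro ⟨w, a, rfl⟩
      exact ⟨Finset.filter_subset _ _, w, a, fun y hy => by simp [hy]⟩
  · rintro w ⟨a, -⟩ w' ⟨b, -⟩ e
    have a := a.length_eq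
    have b := b.length_eq
    refine List.ext_getElem (by omega) fun j h1 h2 => ?_
    have c : ((0, 1, 0, j) : ℕ × Cell) ∈ tabV p (pat, U) :=
      mem_tabV.2 ⟨by simp, .inr ⟨by simp, by simp [nst], by simp; omega⟩⟩
    have := Finset.ext_iff.1 e (0, 1, 0, j)
    simpa [c, tval, cval, io, h1, h2] using this

theorem cook_count [Enc α] {f : α → ℕ} (h : InSharpP f) :
    ∃ g : α → List (Cl3 (ℕ × Cell)), PT g ∧ ∀ a, g a ≠ [] ∧ f a = Cnt3 (g a) := by
  obtain ⟨q, V, ⟨p, r, hV⟩, h⟩ := h
  let u := fun a : α => (certPat (true :: enc a) (q.eval (size a)),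
    List.replicate (r.eval (size a + (3 * q.eval (size a) + 2) + 1)) ())
  have hu : PT u := by unfold u certPat; fun_prop
  have h1 := (PT.tabV p).comp hu
  have h2 := (PT.tab2 p).comp hu
  refine ⟨fun a => clos (tabV p (u a)) (tab2 p (u a)), PT.clos.comp (h1.pair h2),
    fun a => ⟨by simp [clos, tab2], ?_⟩⟩
  have key : ∀ y : List Bool, y.length = q.eval (size a) →
      cval (step^[r.eval (size a + (3 * q.eval (size a) + 2) + 1)] ([p], io ((true :: enc a) ++ enc y))).2 (1, 0, 1) =
        V (a, y) := fun y hy => by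
    obtain ⟨n, m, hn, e⟩ := hV (a, y)
    rw [size_pair, size_bits y, hy] at hn
    exact (congrArg (fun c => cval c.2 (1, 0, 1)) (e.run_le hn)).trans rfl
  rw [h, cnt_tab2, ← Set.ncard_image_of_injective _ (f := fun y : List Bool => (true :: enc a) ++ enc y)
    fun y z e => by
      have := congrArg parse2 (List.append_cancel_left e)
      rw [← List.append_nil (enc y), ← List.append_nil (enc z)] at this
      exact Enc.inj ((parse2_code _ 0).symm.trans (this.trans (parse2_code _ 0)))]
  congr 1
  ext w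
  simp only [fits_certPat, List.length_replicate, Set.mem_image, Set.mem_ofPred_eq]
  constructor
  · rintro ⟨y, ⟨hy, e⟩, rfl⟩
    exact ⟨⟨y, hy, rfl⟩, (key y hy).trans e⟩
  · rintro ⟨⟨y, hy, rfl⟩, e⟩
    exact ⟨y, ⟨hy, (key y hy).symm.trans e⟩, rfl⟩

/-- hardness by a reduction from counting satisfying assignments of (nonempty) 3-CNF formulas -/
theorem SharpPHard.of_cnt3 [Enc β] {g : β → ℕ} (Q : List (Cl3 (ℕ × Cell)) → List β)
    (h : List (Cl3 (ℕ × Cell)) × List ℕ → ℕ) (hQ : PT Q) (hh : PT h)
    (e : ∀ φ, φ ≠ [] → Cnt3 φ = h (φ, (Q φ).map g)) : SharpPHard g := fun _ hf =>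
  let ⟨r, a, b⟩ := cook_count hf
  ⟨fun x => Q (r x), fun p => h (r p.1, p.2), hQ.comp a, by fun_prop, fun x => (b x).2.trans (e _ (b x).1)⟩

end Pool.Agent.Lib.CX
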