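import Mathlib

set_option autoImplicit false

/-! Alexander-Spanier cochains on lists of points: homotopy invariance, Mayer-Vietoris. -/

namespace Pool.Agent.Lib.helper7.AS

open Set

section alg
variable {R : Type} [CommRing R] {X Y : Type}

/-- coboundary -/
def d : List X → (List X → R) → R
  | [], _ => 0
  | x :: l, a => a l - d l fun m => a (x :: m)

def dd (a : List X → R) : List X → R := fun l => d l a

theorem d_add (l : List X) (a b : List X → R) : d l (fun m => a m + b m) = d l a + d l b := by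
  induction l generalizing a b with
  | nil => simp [d]
  | cons x l ih => simp only [d, ih]; ring

theorem d_mul (l : List X) (c : R) (a : List X → R) : d l (fun m => c * a m) = c * d l a := by
  induction l generalizing a with
  | nil => simp [d]
  | cons x l ih => simp only [d, ih]; ring

theorem d_sub (l : List X) (a b : List X → R) : d l (fun m => a m - b m) = d l a - d l b := by
  induction l generalizing a b with
  | nil => simp [d]
  | cons x l ih => simp only [d, ih]; ring

theorem d_sum {ι : Type} (s : Finset ι) (l : List X) (a : ι → List X → R) :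
    d l (fun m => ∑ i ∈ s, a i m) = ∑ i ∈ s, d l (a i) := by
  induction l generalizing a with
  | nil => simp [d]
  | cons x l ih => simp only [d, ih, Finset.sum_sub_distrib]

theorem d_d (l : List X) (a : List X → R) : d l (fun m => d m a) = 0 := by
  induction l generalizing a with
  | nil => simp [d]
  | cons x l ih => simp only [d, d_sub, ih]; ring

theorem d_map (f : X → Y) (l : List X) (a : List Y → R) :
    d l (fun m => a (m.map f)) = d (l.map f) a := by
  induction l generalizing a with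
  | nil => simp [d]
  | cons x l ih => simp only [d, List.map_cons, ← ih]

theorem d_hom {S : Type} [CommRing S] (f : R →+* S) (l : List X) (a : List X → R) :
    f (d l a) = d l fun m => f (a m) := by
  induction l generalizing a with
  | nil => simp [d]
  | cons x l ih => simp only [d, map_sub, ih]

theorem d_zero (l : List X) (a : List X → R)
    (h : ∀ m, m.Sublist l → m.length + 1 = l.length → a m = 0) : d l a = 0 := by
  induction l generalizing a with
  | nil => rfl
  | cons x l ih =>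
    rw [d, h l (List.sublist_cons_self x l) rfl, ih, sub_zero]
    exact fun m hm e => h _ (hm.cons_cons x) (by simp [e])

theorem d_congr (l : List X) (a b : List X → R)
    (h : ∀ m, m.Sublist l → m.length + 1 = l.length → a m = b m) : d l a = d l b := by
  rw [← sub_eq_zero, ← d_sub]
  exact d_zero _ _ fun m hm e => sub_eq_zero.mpr (h m hm e)

/-- prism operator -/
def pr (f g : X → Y) : List X → (List Y → R) → R
  | [], _ => 0
  | x :: l, a => a (f x :: g x :: l.map g) - pr f g l fun m => a (f x :: m)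

theorem pr_sub (f g : X → Y) (l : List X) (a b : List Y → R) :
    pr f g l (fun m => a m - b m) = pr f g l a - pr f g l b := by
  induction l generalizing a b with
  | nil => simp [pr]
  | cons x l ih => simp only [pr, ih]; ring

theorem pr_d (f g : X → Y) (l : List X) (a : List Y → R) :
    d l (fun m => pr f g m a) + pr f g l (fun m => d m a) = a (l.map g) - a (l.map f) := by
  induction l generalizing a with
  | nil => simp [pr, d]
  | cons x l ih =>
    have := ih fun m => a (f x :: m)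
    simp only [d, pr, d_sub, pr_sub, List.map_cons,
      d_map g l fun m => a (f x :: g x :: m)] at this ⊢
    linear_combination this

theorem pr_zero (f g : X → Y) (l : List X) (a : List Y → R)
    (h : ∀ m, m.length = l.length + 1 → (∀ y ∈ m, ∃ x ∈ l, y = f x ∨ y = g x) → a m = 0) :
    pr f g l a = 0 := by
  induction l generalizing a with
  | nil => rfl
  | cons x l ih =>
    rw [pr, h, ih, sub_zero]
    · intro m e hm
      refine h _ (by simp [e]) fun y hy => ?_
      rcases List.mem_cons.mp hy with rfl | hy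
      · exact ⟨x, by simp, Or.inl rfl⟩
      · obtain ⟨z, hz, e⟩ := hm y hy
        exact ⟨z, by simp [hz], e⟩
    · simp
    · intro y hy
      simp only [List.mem_cons, List.mem_map] at hy
      rcases hy with rfl | rfl | ⟨z, hz, rfl⟩
      · exact ⟨x, by simp, Or.inl rfl⟩
      · exact ⟨x, by simp, Or.inr rfl⟩
      · exact ⟨z, by simp [hz], Or.inr rfl⟩

end alg

variable {R : Type} [CommRing R] {X Y : Type} [PseudoMetricSpace X] [PseudoMetricSpace Y]

/-- small lists of `k` points of `A` -/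
def Sm (e : ℝ) (k : ℕ) (A : Set X) (l : List X) : Prop :=
  l.length = k ∧ (∀ x ∈ l, x ∈ A) ∧ ∀ x ∈ l, ∀ y ∈ l, dist x y < e

/-- `a` and `b` agree on small lists of `k` points of `A` -/
def Z (k : ℕ) (A : Set X) (a b : List X → R) : Prop := ∃ e > 0, ∀ l, Sm e k A l → a l = b l

theorem Sm.mono {e e' : ℝ} {k : ℕ} {A B : Set X} {l : List X} (h : Sm e k A l) (he : e ≤ e')
    (hA : A ⊆ B) : Sm e' k B l :=
  ⟨h.1, fun x hx => hA (h.2.1 x hx), fun x hx y hy => (h.2.2 x hx y hy).trans_le he⟩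

theorem Sm.sub {e : ℝ} {k : ℕ} {A : Set X} {l m : List X} (h : Sm e (k + 1) A l)
    (hm : m.Sublist l) (he : m.length + 1 = l.length) : Sm e k A m :=
  ⟨by have := h.1; omega, fun x hx => h.2.1 x (hm.subset hx),
    fun x hx y hy => h.2.2 x (hm.subset hx) y (hm.subset hy)⟩

omit [CommRing R] in
theorem Z.mono {k : ℕ} {A B : Set X} {a b : List X → R} (h : Z k B a b) (hA : A ⊆ B) :
    Z k A a b := by
  obtain ⟨e, he, h⟩ := h
  exact ⟨e, he, fun l hl => h l (hl.mono le_rfl hA)⟩

omit [CommRing R] in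
theorem Z.two {k : ℕ} {A : Set X} {a b a' b' c c' : List X → R} (h : Z k A a b)
    (h' : Z k A a' b') (H : ∀ l, a l = b l → a' l = b' l → c l = c' l) : Z k A c c' := by
  obtain ⟨e, he, h⟩ := h
  obtain ⟨e', he', h'⟩ := h'
  exact ⟨min e e', lt_min he he', fun l hl => H l (h l (hl.mono (min_le_left _ _) subset_rfl))
    (h' l (hl.mono (min_le_right _ _) subset_rfl))⟩

omit [CommRing R] in
theorem Z.one {k : ℕ} {A : Set X} {a b c c' : List X → R} (h : Z k A a b)
    (H : ∀ l, a l = b l → c l = c' l) : Z k A c c' := h.two h fun l h _ => H l h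

theorem Z.d {k : ℕ} {A : Set X} {a b : List X → R} (h : Z k A a b) :
    Z (k + 1) A (dd a) (dd b) := by
  obtain ⟨e, he, h⟩ := h
  exact ⟨e, he, fun l hl => d_congr _ _ _ fun m hm e => h m (hl.sub hm e)⟩

omit [CommRing R] in
theorem Z.map {k : ℕ} {A : Set X} {B : Set Y} {a b : List Y → R} (h : Z k B a b) {f : X → Y}
    (hf : UniformContinuousOn f A) (hm : MapsTo f A B) :
    Z k A (fun l => a (l.map f)) fun l => b (l.map f) := by
  obtain ⟨e, he, h⟩ := h
  obtain ⟨e', he', h'⟩ := Metric.uniformContinuousOn_iff.mp hf e he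
  refine ⟨e', he', fun l hl => h _ ⟨by simp [hl.1], ?_, ?_⟩⟩
  · intro y hy
    obtain ⟨x, hx, rfl⟩ := List.mem_map.mp hy
    exact hm (hl.2.1 x hx)
  · intro y hy y' hy'
    obtain ⟨x, hx, rfl⟩ := List.mem_map.mp hy
    obtain ⟨x', hx', rfl⟩ := List.mem_map.mp hy'
    exact h' x (hl.2.1 x hx) x' (hl.2.1 x' hx') (hl.2.2 x hx x' hx')

omit [CommRing R] in
theorem Z.fin {ι : Type} [Finite ι] {k : ℕ} {A : ι → Set X} {a b : ι → List X → R}
    (h : ∀ i, Z k (A i) (a i) (b i)) : ∃ e > 0, ∀ i l, Sm e k (A i) l → a i l = b i l := by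
  choose e he h using h
  obtain ⟨e', he', h'⟩ := Pi.exists_forall_pos_add_lt (x := fun _ : ι => (0 : ℝ)) (y := e) he
  exact ⟨e', he', fun i l hl => h i l (hl.mono (by simpa using (h' i).le) subset_rfl)⟩

theorem homot {k : ℕ} {A : Set X} {B : Set Y} (hA : IsCompact A) (H : ℝ × X → Y)
    (hH : ContinuousOn H (Icc 0 1 ×ˢ A)) (hm : MapsTo H (Icc 0 1 ×ˢ A) B) (a : List Y → R)
    (ha : Z (k + 1) B (dd a) 0) :
    ∃ t : List X → R, Z k A (fun l => a (l.map fun x => H (1, x)) - a (l.map fun x => H (0, x)))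
      (dd t) := by
  obtain ⟨e, he, ha⟩ := ha
  obtain ⟨r, hr, h⟩ := Metric.uniformContinuousOn_iff.mp
    ((isCompact_Icc.prod hA).uniformContinuousOn_of_continuous hH) e he
  have key : ∀ n : ℕ, ∀ s ∈ Icc (0 : ℝ) 1, s ≤ n * (r / 2) → ∃ t : List X → R, ∀ l, Sm r k A l →
      a (l.map fun x => H (s, x)) - a (l.map fun x => H (0, x)) = d l t := by
    intro n
    induction n with
    | zero =>
      intro s hs h0
      obtain rfl : s = 0 := le_antisymm (by simpa using h0) hs.1
      exact ⟨0, fun l _ => by rw [sub_self, d_zero]; intros; rfl⟩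
    | succ n ih =>
      intro s hs h0
      have hs' : max 0 (s - r / 2) ∈ Icc (0 : ℝ) 1 :=
        ⟨le_max_left _ _, max_le zero_le_one (by linarith [hs.2])⟩
      obtain ⟨t, ht⟩ := ih _ hs' (max_le (by positivity) (by push_cast at h0; linarith))
      have hd : dist (max 0 (s - r / 2)) s < r := by
        rw [Real.dist_eq, abs_lt]
        constructor
        · linarith [le_max_right 0 (s - r / 2)]
        · linarith [max_le hs.1 (by linarith : s - r / 2 ≤ s)]
      set s' := max 0 (s - r / 2)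
      refine ⟨fun m => t m + pr (fun x => H (s', x)) (fun x => H (s, x)) m a, fun l hl => ?_⟩
      have h1 := pr_d (fun x => H (s', x)) (fun x => H (s, x)) l a
      rw [pr_zero _ _ l fun m => d m a] at h1
      · rw [d_add, ← ht l hl]; linear_combination -h1
      · intro m hm' hy
        have : ∀ y ∈ m, ∃ x ∈ l, ∃ u ∈ Icc (0 : ℝ) 1, (u = s' ∨ u = s) ∧ y = H (u, x) := by
          intro y hy'
          obtain ⟨x, hx, e | e⟩ := hy y hy'
          exacts [⟨x, hx, s', hs', Or.inl rfl, e⟩, ⟨x, hx, s, hs, Or.inr rfl, e⟩]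
        refine ha m ⟨by rw [hm', hl.1], fun y hy => ?_, fun y hy y' hy' => ?_⟩
        · obtain ⟨x, hx, u, hu, _, rfl⟩ := this y hy
          exact hm ⟨hu, hl.2.1 x hx⟩
        · obtain ⟨x, hx, u, hu, e, rfl⟩ := this y hy
          obtain ⟨x', hx', u', hu', e', rfl⟩ := this y' hy'
          refine h _ ⟨hu, hl.2.1 x hx⟩ _ ⟨hu', hl.2.1 x' hx'⟩ ?_
          rw [Prod.dist_eq]
          refine max_lt ?_ (hl.2.2 x hx x' hx')
          have hd' := dist_comm s s' ▸ hd
          rcases e with e | e <;> rcases e' with e' | e' <;> simp only [e, e', dist_self] <;>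
            assumption
  obtain ⟨n, hn⟩ := exists_nat_ge (1 / (r / 2))
  obtain ⟨t, ht⟩ := key n 1 ⟨zero_le_one, le_rfl⟩ ((div_le_iff₀ (by positivity)).mp hn)
  exact ⟨t, r, hr, ht⟩

/-- no `c`-torsion in the reduced cohomology of `A` on `k` points (degree `k - 1`) -/
def P (c : R) (k : ℕ) (A : Set X) : Prop :=
  ∀ a : List X → R, Z (k + 1) A (dd a) 0 → (∃ f, Z k A (fun l => c * a l) (dd f)) →
    ∃ t, Z k A a (dd t)

theorem dom {c : R} {k : ℕ} {A : Set X} {B : Set Y} (hA : IsCompact A) (hB : IsCompact B)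
    (f : X → Y) (g : Y → X) (hf : ContinuousOn f A) (hg : ContinuousOn g B) (mf : MapsTo f A B)
    (mg : MapsTo g B A) (H : ℝ × X → X) (hH : ContinuousOn H (Icc 0 1 ×ˢ A))
    (hm : MapsTo H (Icc 0 1 ×ˢ A) A) (h0 : ∀ x ∈ A, H (0, x) = g (f x))
    (h1 : ∀ x ∈ A, H (1, x) = x) (h : P c k B) : P c k A := by
  intro a ha ⟨p, hp⟩
  have uf := hA.uniformContinuousOn_of_continuous hf
  have ug := hB.uniformContinuousOn_of_continuous hg
  obtain ⟨t, ht⟩ := h (fun l => a (l.map g)) ((ha.map ug mg).one fun l h => by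
    rw [dd, d_map]; exact h) ⟨fun l => p (l.map g), (hp.map ug mg).one fun l h => by
    rw [dd, d_map]; exact h⟩
  obtain ⟨u, hu⟩ := homot hA H hH hm a ha
  obtain ⟨e, he, hh⟩ := (ht.map uf mf).two hu
    (c := fun l => a ((l.map f).map g) + (a (l.map fun x => H (1, x))
      - a (l.map fun x => H (0, x)))) (c' := dd fun m => t (m.map f) + u m) fun l e1 e2 => by
    rw [e1, e2, dd, dd, dd, d_add, d_map]
  refine ⟨_, e, he, fun l hl => Eq.trans ?_ (hh l hl)⟩
  have e0 : (l.map fun x => H (0, x)) = (l.map f).map g := by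
    rw [List.map_map]; exact List.map_congr_left fun x hx => h0 x (hl.2.1 x hx)
  have e1 : (l.map fun x => H (1, x)) = l := by
    conv_rhs => rw [← List.map_id l]
    exact List.map_congr_left fun x hx => h1 x (hl.2.1 x hx)
  simp only [e0, e1]; ring

theorem P_pt (c : R) (k : ℕ) (p : X) : P c k {p} := by
  intro a ⟨e, he, ha⟩ _
  refine ⟨fun m => a (p :: m), e, he, fun l hl => ?_⟩
  have hm : ∀ x ∈ p :: l, x = p := by
    intro x hx
    rcases List.mem_cons.mp hx with h | h
    exacts [h, hl.2.1 x h]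
  have := ha (p :: l) ⟨by simp [hl.1], hm, fun x hx y hy => by simp [hm x hx, hm y hy, he]⟩
  exact sub_eq_zero.mp this

theorem P_contr (c : R) (k : ℕ) {A : Set X} (hA : IsCompact A) (p : X) (hp : p ∈ A)
    (H : ℝ × X → X) (hH : ContinuousOn H (Icc 0 1 ×ˢ A)) (hm : MapsTo H (Icc 0 1 ×ˢ A) A)
    (h0 : ∀ x ∈ A, H (0, x) = p) (h1 : ∀ x ∈ A, H (1, x) = x) : P c k A :=
  dom hA isCompact_singleton (fun _ => p) id continuousOn_const continuousOn_id
    (fun _ _ => rfl) (fun _ h => h ▸ hp) H hH hm h0 h1 (P_pt c k p)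

theorem P_empty (c : R) (k : ℕ) : P c (k + 1) (∅ : Set X) := by
  intro a _ _
  refine ⟨0, 1, one_pos, fun l hl => ?_⟩
  cases l with
  | nil => exact absurd hl.1 (by simp)
  | cons x l => exact (hl.2.1 x (by simp)).elim

theorem P_one (A : Set X) : P (2 : ℤ) 1 A := by
  intro a _ ⟨f, e, he, h⟩
  refine ⟨fun _ => f [] / 2, e, he, fun l hl => ?_⟩
  obtain ⟨x, rfl⟩ := List.length_eq_one_iff.mp hl.1
  have := h _ hl
  simp only [dd, d, sub_zero] at this ⊢
  omega

theorem P_zero {k : ℕ} {A : Set X} (h : P (0 : R) k A) (a : List X → R)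
    (ha : Z (k + 1) A (dd a) 0) : ∃ t, Z k A a (dd t) :=
  h a ha ⟨0, 1, one_pos, fun l _ =>
    (zero_mul _).trans (d_zero _ _ fun _ _ _ => rfl).symm⟩

theorem mv {c : R} {k : ℕ} {S : Set X} (h : X → ℝ) (hh : UniformContinuousOn h S)
    (a1 : P (0 : R) (k + 1) (S ∩ {x | -1 ≤ h x})) (a2 : P (0 : R) (k + 2) (S ∩ {x | -1 ≤ h x}))
    (b1 : P (0 : R) (k + 1) (S ∩ {x | h x ≤ 1})) (b2 : P (0 : R) (k + 2) (S ∩ {x | h x ≤ 1}))
    (ab : P c (k + 1) (S ∩ {x | -1 ≤ h x ∧ h x ≤ 1})) : P c (k + 2) S := by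
  classical
  intro s hs ⟨f, hf⟩
  have iA : S ∩ {x | -1 ≤ h x ∧ h x ≤ 1} ⊆ S ∩ {x | -1 ≤ h x} := fun x hx => ⟨hx.1, hx.2.1⟩
  have iB : S ∩ {x | -1 ≤ h x ∧ h x ≤ 1} ⊆ S ∩ {x | h x ≤ 1} := fun x hx => ⟨hx.1, hx.2.2⟩
  obtain ⟨a, ha⟩ := P_zero a2 s (hs.mono inter_subset_left)
  obtain ⟨b, hb⟩ := P_zero b2 s (hs.mono inter_subset_left)
  have aux : ∀ {A : Set X} {a : List X → R}, A ⊆ S → Z (k + 2) A s (dd a) →
      Z (k + 2) A (dd fun l => c * a l - f l) 0 := fun hA ha =>
    (hf.mono hA).two ha fun l e1 e2 => by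
      simp only [dd, d_sub, d_mul, Pi.zero_apply] at *; rw [← e1, ← e2, sub_self]
  obtain ⟨a', ha'⟩ := P_zero a1 _ (aux inter_subset_left ha)
  obtain ⟨b', hb'⟩ := P_zero b1 _ (aux inter_subset_left hb)
  obtain ⟨u, hu⟩ := ab (fun l => a l - b l) ((ha.mono iA).two (hb.mono iB) fun l e1 e2 => by
      simp only [dd, d_sub, Pi.zero_apply] at *; rw [← e1, ← e2, sub_self])
    ⟨fun l => a' l - b' l, (ha'.mono iA).two (hb'.mono iB) fun l e1 e2 => by
      simp only [dd, d_sub] at *; linear_combination e1 - e2⟩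
  obtain ⟨r, hr, h1⟩ := Metric.uniformContinuousOn_iff.mp hh 1 one_pos
  obtain ⟨e0, he0, hu⟩ := hu
  obtain ⟨e1, he1, ha⟩ := ha
  obtain ⟨e2, he2, hb⟩ := hb
  let t : List X → R := fun l => if ∃ x ∈ l, 0 ≤ h x then a l - d l u else b l
  refine ⟨t, min (min r e0) (min e1 e2), by positivity, fun l hl => ?_⟩
  have cl : ∀ x ∈ l, ∀ y ∈ l, h x - h y < 1 := fun x hx y hy => by
    have := h1 x (hl.2.1 x hx) y (hl.2.1 y hy)
      ((hl.2.2 x hx y hy).trans_le ((min_le_left _ _).trans (min_le_left _ _)))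
    rw [Real.dist_eq] at this
    exact (le_abs_self _).trans_lt this
  by_cases hx : ∃ x ∈ l, 0 ≤ h x
  · obtain ⟨x, hx, h0⟩ := hx
    have hA : ∀ y ∈ l, -1 ≤ h y := fun y hy => by linarith [cl x hx y hy]
    rw [ha l ⟨hl.1, fun y hy => ⟨hl.2.1 y hy, hA y hy⟩, fun y hy z hz =>
      (hl.2.2 y hy z hz).trans_le ((min_le_right _ _).trans (min_le_left _ _))⟩]
    have : d l a = d l fun m => a m - d m u := by rw [d_sub, d_d, sub_zero]
    rw [dd, this]
    refine d_congr _ _ _ fun m hm e => ?_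
    by_cases hy : ∃ y ∈ m, 0 ≤ h y
    · exact (if_pos hy).symm
    · have hm' := hl.sub hm e
      push Not at hy
      have := hu m ⟨hm'.1, fun y h' => ⟨hm'.2.1 y h', hA y (hm.subset h'),
        by linarith [hy y h']⟩, fun y hy z hz =>
        (hm'.2.2 y hy z hz).trans_le ((min_le_left _ _).trans (min_le_right _ _))⟩
      have e3 : t m = b m := if_neg (by push Not; exact hy)
      rw [e3]
      simp only [dd] at this
      linear_combination this
  · push Not at hx
    rw [hb l ⟨hl.1, fun y hy => ⟨hl.2.1 y hy, (hx y hy).le.trans zero_le_one⟩, fun y hy z hz =>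
      (hl.2.2 y hy z hz).trans_le ((min_le_right _ _).trans (min_le_right _ _))⟩]
    refine d_congr _ _ _ fun m hm _ => (if_neg ?_).symm
    rintro ⟨y, hy, h0⟩
    linarith [hx y (hm.subset hy)]

theorem disj {c : R} {k : ℕ} {ι : Type} [Finite ι] (A : ι → Set X) (r : ℝ) (hr : 0 < r)
    (hs : ∀ i j, ∀ x ∈ A i, ∀ y ∈ A j, dist x y < r → i = j) (h : ∀ i, P c (k + 2) (A i)) :
    P c (k + 2) (⋃ i, A i) := by
  classical
  intro s hs' ⟨f, hf⟩
  choose t ht using fun i => h i s (hs'.mono (subset_iUnion A i)) ⟨f, hf.mono (subset_iUnion A i)⟩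
  obtain ⟨e, he, ht⟩ := Z.fin ht
  let u : List X → R := fun l => if h : ∃ i, ∀ x ∈ l, x ∈ A i then t h.choose l else 0
  refine ⟨u, min r e, lt_min hr he, fun l hl => ?_⟩
  obtain ⟨x, hx⟩ := List.exists_mem_of_length_pos (l := l) (by rw [hl.1]; omega)
  obtain ⟨i, hi⟩ := mem_iUnion.mp (hl.2.1 x hx)
  have hA : ∀ y ∈ l, y ∈ A i := fun y hy => by
    obtain ⟨j, hj⟩ := mem_iUnion.mp (hl.2.1 y hy)
    rwa [hs i j x hi y hj ((hl.2.2 x hx y hy).trans_le (min_le_left _ _))]
  rw [ht i l ⟨hl.1, hA, fun y hy z hz => (hl.2.2 y hy z hz).trans_le (min_le_right _ _)⟩]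
  refine d_congr _ _ _ fun m hm e => ?_
  have h1 : ∃ i, ∀ x ∈ m, x ∈ A i := ⟨i, fun y hy => hA y (hm.subset hy)⟩
  obtain ⟨y, hy⟩ := List.exists_mem_of_length_pos (l := m) (by have := hl.1; omega)
  have : h1.choose = i := hs _ _ y (h1.choose_spec y hy) y (hA y (hm.subset hy)) (by simpa)
  simp only [u, dif_pos h1, this]

end Pool.Agent.Lib.helper7.AS
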