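import Pool.Agent.Lib.helper7.AS

set_option autoImplicit false

/-! The integral Alexander-Spanier cohomology of a finite wedge of spheres has no 2-torsion. -/

namespace Pool.Agent.Lib.helper7.AS

open Set

def Sph (n : ℕ) : Set (Fin n → ℝ) := {x | ∑ j, x j ^ 2 = 1}

theorem Sph_abs {n : ℕ} {x : Fin n → ℝ} (h : x ∈ Sph n) (j : Fin n) : x j ∈ Icc (-1 : ℝ) 1 := by
  have : x j ^ 2 ≤ 1 := (Finset.single_le_sum (f := fun j => x j ^ 2) (fun _ _ => sq_nonneg _)
    (Finset.mem_univ j)).trans_eq h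
  exact ⟨by nlinarith, by nlinarith⟩

theorem Sph_cpt (n : ℕ) : IsCompact (Sph n) :=
  (isCompact_univ_pi fun _ => isCompact_Icc (a := (-1 : ℝ)) (b := 1)).of_isClosed_subset
    (isClosed_eq (by fun_prop) continuous_const) fun _ h j _ => Sph_abs h j

/-- move the first coordinate to `z`, scale the others by `√ r` -/
noncomputable def mvz {n : ℕ} (z r : ℝ) (x : Fin (n + 1) → ℝ) : Fin (n + 1) → ℝ :=
  Fin.cons z fun j => √r * x j.succ

theorem mvz_mem {n : ℕ} {z r : ℝ} {x : Fin (n + 1) → ℝ} (h : x ∈ Sph (n + 1)) (hr : 0 ≤ r)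
    (e : r * (1 - x 0 ^ 2) = 1 - z ^ 2) : mvz z r x ∈ Sph (n + 1) := by
  simp only [Sph, mem_ofPred_eq, Fin.sum_univ_succ, mvz, Fin.cons_zero, Fin.cons_succ, mul_pow,
    Real.sq_sqrt hr, ← Finset.mul_sum] at h ⊢
  rw [eq_sub_of_add_eq' h, e]; ring

theorem mvz_one {n : ℕ} (x : Fin (n + 1) → ℝ) : mvz (x 0) 1 x = x := by
  funext j; refine Fin.cases rfl (fun j => ?_) j; simp [mvz]

theorem mvz_cont {n : ℕ} {T : Type} [TopologicalSpace T] {s : Set T} {z r : T → ℝ}
    {x : T → Fin (n + 1) → ℝ} (hz : ContinuousOn z s) (hr : ContinuousOn r s)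
    (hx : ContinuousOn x s) : ContinuousOn (fun t => mvz (z t) (r t) (x t)) s := by
  refine continuousOn_pi.mpr fun j => Fin.cases hz (fun j => ?_) j
  exact hr.sqrt.mul ((continuous_apply j.succ).comp_continuousOn hx)

/-- contraction of a cap to the pole `s e_0` -/
noncomputable def cp {n : ℕ} (s : ℝ) (p : ℝ × (Fin (n + 1) → ℝ)) : Fin (n + 1) → ℝ :=
  mvz ((1 - p.1) * s + p.1 * p.2 0)
    (p.1 * (1 + s * ((1 - p.1) * s + p.1 * p.2 0)) / (1 + s * p.2 0)) p.2

theorem cp_mem {n : ℕ} {s t : ℝ} (hs : s ^ 2 = 1) (ht : t ∈ Icc (0 : ℝ) 1) {x : Fin (n + 1) → ℝ}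
    (h : x ∈ Sph (n + 1)) (h0 : 0 < 1 + s * x 0) : cp s (t, x) ∈ Sph (n + 1) := by
  refine mvz_mem h (div_nonneg (mul_nonneg ht.1 ?_) h0.le) ?_
  · nlinarith [ht.1, ht.2, mul_nonneg ht.1 h0.le]
  · simp only
    rw [div_mul_eq_mul_div, div_eq_iff h0.ne']
    linear_combination ((1 - t) * (1 + s * x 0) + t * x 0 ^ 2 * (1 + s * ((1 - t) * s + t * x 0))
      - t * (1 - t) * (s * x 0 + s ^ 2 * x 0 ^ 2)
      - t ^ 2 * x 0 ^ 2 * (1 + s * x 0)) * hs

theorem cp_zero {n : ℕ} (s : ℝ) (x : Fin (n + 1) → ℝ) : cp s (0, x) = Pi.single 0 s := by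
  funext j; refine Fin.cases ?_ (fun j => ?_) j <;> simp [cp, mvz]

theorem cp_one {n : ℕ} {s : ℝ} {x : Fin (n + 1) → ℝ} (h0 : 0 < 1 + s * x 0) : cp s (1, x) = x := by
  simp [cp, div_self h0.ne', mvz_one]

theorem cp_base {n : ℕ} (t : ℝ) : cp 1 (t, (Pi.single 0 1 : Fin (n + 1) → ℝ)) = Pi.single 0 1 := by
  funext j; refine Fin.cases ?_ (fun j => ?_) j <;> simp [cp, mvz]

theorem cp_cont {n : ℕ} {T : Type} [TopologicalSpace T] {A : Set T} (s : ℝ) {t : T → ℝ}
    {x : T → Fin (n + 1) → ℝ} (ht : Continuous t) (hx : Continuous x)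
    (h : ∀ a ∈ A, 0 < 1 + s * x a 0) : ContinuousOn (fun a => cp s (t a, x a)) A :=
  mvz_cont (by fun_prop) (ContinuousOn.div (by fun_prop) (by fun_prop) fun a ha => (h a ha).ne')
    hx.continuousOn

theorem P_cap {R : Type} [CommRing R] (c : R) (k n : ℕ) (s : ℝ) (hs : s ^ 2 = 1) :
    P c k (Sph (n + 1) ∩ {x | -1 ≤ 2 * (s * x 0)}) := by
  have h0 : ∀ x ∈ Sph (n + 1) ∩ {x | -1 ≤ 2 * (s * x 0)}, 0 < 1 + s * x 0 := fun x hx => by
    have := hx.2; simp only [mem_ofPred_eq] at this; linarith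
  refine P_contr c k ((Sph_cpt _).inter_right (isClosed_le (by fun_prop) (by fun_prop)))
    (Pi.single 0 s) ⟨?_, ?_⟩ (cp s) (cp_cont s continuous_fst continuous_snd fun a ha => h0 _ ha.2)
    (fun p hp => ⟨cp_mem hs hp.1 hp.2.1 (h0 _ hp.2), ?_⟩) (fun x _ => cp_zero s x)
    fun x hx => cp_one (h0 x hx)
  · simp [Sph, Fin.sum_univ_succ, hs]
  · simp only [mem_ofPred_eq, Pi.single_eq_same]; nlinarith
  · have h1 := hp.2.2
    simp only [mem_ofPred_eq, cp, mvz, Fin.cons_zero] at h1 ⊢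
    nlinarith [hp.1.1, hp.1.2, mul_nonneg hp.1.1 (by linarith : 0 ≤ 1 + 2 * (s * p.2 0))]

theorem P_cap1 {R : Type} [CommRing R] (c : R) (k n : ℕ) :
    P c k (Sph (n + 1) ∩ {x | -1 ≤ 2 * x 0}) := by simpa using P_cap c k n 1 (by norm_num)

theorem P_cap2 {R : Type} [CommRing R] (c : R) (k n : ℕ) :
    P c k (Sph (n + 1) ∩ {x | 2 * x 0 ≤ 1}) := by simpa using P_cap c k n (-1) (by norm_num)

theorem P_band {R : Type} [CommRing R] (c : R) (k n : ℕ) (h : P c k (Sph n)) :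
    P c k (Sph (n + 1) ∩ {x | -1 ≤ 2 * x 0 ∧ 2 * x 0 ≤ 1}) := by
  have h0 : ∀ x ∈ Sph (n + 1) ∩ {x | -1 ≤ 2 * x 0 ∧ 2 * x 0 ≤ 1}, 0 < 1 - x 0 ^ 2 := fun x hx => by
    obtain ⟨h1, h2⟩ := hx.2; nlinarith
  refine dom ((Sph_cpt _).inter_right (isClosed_Icc.preimage
    (f := fun x : Fin (n + 1) → ℝ => 2 * x 0) (by fun_prop))) (Sph_cpt n)
    (fun x j => √(1 / (1 - x 0 ^ 2)) * x j.succ) (fun y => Fin.cons 0 y) ?_ ?_ ?_ ?_
    (fun p => mvz (p.1 * p.2 0) ((1 - (p.1 * p.2 0) ^ 2) / (1 - p.2 0 ^ 2)) p.2) ?_ ?_ ?_ ?_ h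
  · refine continuousOn_pi.mpr fun j => ContinuousOn.mul (ContinuousOn.sqrt ?_) (by fun_prop)
    exact ContinuousOn.div (by fun_prop) (by fun_prop) fun a ha => (h0 a ha).ne'
  · refine (continuous_pi fun j => Fin.cases continuous_const (fun j => ?_) j).continuousOn
    exact continuous_apply j
  · intro x hx
    have := mvz_mem (z := 0) hx.1 (one_div_pos.mpr (h0 x hx)).le
      (by rw [one_div_mul_cancel (h0 x hx).ne']; ring)
    simpa [Sph, Fin.sum_univ_succ, mvz] using this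
  · intro y hy
    simpa [Sph, Fin.sum_univ_succ] using hy
  · exact mvz_cont (by fun_prop) (ContinuousOn.div (by fun_prop) (by fun_prop)
      fun a ha => (h0 _ ha.2).ne') (by fun_prop)
  · rintro ⟨t, x⟩ ⟨ht, hx⟩
    obtain ⟨h1, h2⟩ := hx.2
    simp only at ht hx h1 h2
    have h3 : -1 ≤ 2 * (t * x 0) ∧ 2 * (t * x 0) ≤ 1 := ⟨by nlinarith [ht.1, ht.2], by
      nlinarith [ht.1, ht.2]⟩
    exact ⟨mvz_mem hx.1 (div_nonneg (by nlinarith [h3.1, h3.2]) (h0 x hx).le)
      (div_mul_cancel₀ _ (h0 x hx).ne'), h3⟩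
  · intro x _
    simp [mvz]
  · intro x hx
    simp [div_self (h0 x hx).ne', mvz_one]

theorem P_sph (k : ℕ) : ∀ n, P (2 : ℤ) (k + 1) (Sph n) := by
  induction k with
  | zero => exact fun _ => P_one _
  | succ k ih =>
    rintro (_ | n)
    · have : Sph 0 = ∅ := by simp [Sph]
      rw [this]; exact P_empty _ _
    · exact mv (fun x => 2 * x 0) ((Sph_cpt _).uniformContinuousOn_of_continuous (by fun_prop))
        (P_cap1 _ _ _) (P_cap1 _ _ _) (P_cap2 _ _ _) (P_cap2 _ _ _) (P_band _ _ _ (ih n))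

def Wedge {m : ℕ} (D : Fin m → ℕ) : Set ((i : Fin m) → Fin (D i + 1) → ℝ) :=
  {y | (∀ i, ∑ j, y i j ^ 2 = 1) ∧ ∀ i i', i ≠ i' → y i = Pi.single 0 1 ∨ y i' = Pi.single 0 1}

theorem Wedge_cpt {m : ℕ} (D : Fin m → ℕ) : IsCompact (Wedge D) := by
  refine (isCompact_univ_pi fun i => Sph_cpt (D i + 1)).of_isClosed_subset ?_ fun _ h i _ => h.1 i
  simp only [Wedge, ofPred_and, ofPred_forall, ofPred_or]
  refine (isClosed_iInter fun i => isClosed_eq (by fun_prop) continuous_const).inter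
    (isClosed_iInter fun i => isClosed_iInter fun j => isClosed_iInter fun _ => ?_)
  exact (isClosed_eq (by fun_prop) continuous_const).union
    (isClosed_eq (by fun_prop) continuous_const)

theorem P_pieces {R : Type} [CommRing R] (c : R) (k : ℕ) {m : ℕ} (D : Fin m → ℕ) (I : ℝ → Prop)
    (hI : IsClosed {r | I r}) (h1 : ∀ r, I r → r ≤ 1)
    (h : ∀ i, P c (k + 2) (Sph (D i + 1) ∩ {x | I (2 * x 0)})) :
    P c (k + 2) (Wedge D ∩ {y | I (2 * (1 - ∑ i, (1 - y i 0)))}) := by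
  let A : Fin m → Set ((i : Fin m) → Fin (D i + 1) → ℝ) := fun i =>
    Function.update (fun _ => Pi.single 0 1) i '' (Sph (D i + 1) ∩ {x | I (2 * x 0)})
  have hs : ∀ i (x : Fin (D i + 1) → ℝ), 1 - ∑ j, (1 - Function.update
      (β := fun i => Fin (D i + 1) → ℝ) (fun _ => Pi.single 0 1) i x j 0) = x 0 := by
    intro i x
    rw [Finset.sum_eq_single i (fun j _ hj => by simp [Function.update_of_ne hj]) (by simp)]
    simp
  have e : Wedge D ∩ {y | I (2 * (1 - ∑ i, (1 - y i 0)))} = ⋃ i, A i := by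
    ext y
    simp only [mem_iUnion, A]
    constructor
    · rintro ⟨hy, hI⟩
      obtain ⟨i, hi⟩ : ∃ i, y i ≠ Pi.single 0 1 := by
        by_contra hn
        push Not at hn
        have := h1 _ hI
        simp [hn] at this
      have : Function.update (fun _ => Pi.single 0 1) i (y i) = y := by
        funext j
        by_cases hj : j = i
        · subst hj; simp
        · rw [Function.update_of_ne hj]; exact ((hy.2 j i hj).resolve_right hi).symm
      refine ⟨i, y i, ⟨hy.1 i, ?_⟩, this⟩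
      rw [← this, mem_ofPred_eq, hs] at hI
      exact hI
    · rintro ⟨i, x, hx, rfl⟩
      refine ⟨⟨fun j => ?_, fun j j' hj => ?_⟩, by rw [mem_ofPred_eq, hs]; exact hx.2⟩
      · by_cases hj : j = i
        · subst hj; simpa [Sph] using hx.1
        · simp [Function.update_of_ne hj, Fin.sum_univ_succ]
      · by_cases hj' : j = i
        · exact Or.inr (Function.update_of_ne (hj' ▸ hj.symm) _ _)
        · exact Or.inl (Function.update_of_ne hj' _ _)
  rw [e]
  refine disj A (1 / 2) (by norm_num) ?_ fun i => ?_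
  · rintro i j _ ⟨x, hx, rfl⟩ _ ⟨y, _, rfl⟩ hd
    by_contra hij
    have h2 := (dist_le_pi_dist _ _ i).trans_lt hd
    have := (dist_le_pi_dist _ _ (0 : Fin (D i + 1))).trans_lt h2
    rw [Function.update_self, Function.update_of_ne hij, Pi.single_eq_same, Real.dist_eq] at this
    linarith [h1 _ hx.2, (abs_lt.mp this).1]
  · have hc : IsCompact (Sph (D i + 1) ∩ {x | I (2 * x 0)}) :=
      (Sph_cpt _).inter_right (hI.preimage (f := fun x : Fin (D i + 1) → ℝ => 2 * x 0) (by fun_prop))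
    have hu : Continuous (Function.update (β := fun i => Fin (D i + 1) → ℝ)
        (fun _ => Pi.single 0 1) i) := continuous_const.update i continuous_id
    refine dom (hc.image hu) hc (fun y => y i) _ (by fun_prop) hu.continuousOn ?_
      (mapsTo_image _ _) Prod.snd (by fun_prop) (fun p hp => hp.2) ?_ (fun _ _ => rfl) (h i)
    · rintro _ ⟨x, hx, rfl⟩; simpa using hx
    · rintro _ ⟨x, hx, rfl⟩; simp

theorem P_wedge (k : ℕ) {m : ℕ} (D : Fin m → ℕ) : P (2 : ℤ) (k + 3) (Wedge D) := by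
  have hA : ∀ k, P (0 : ℤ) k (Wedge D ∩ {y | -1 ≤ 2 * (1 - ∑ i, (1 - y i 0))}) := by
    intro k
    have h0 : ∀ y ∈ Wedge D ∩ {y | -1 ≤ 2 * (1 - ∑ i, (1 - y i 0))}, ∀ i, 0 < 1 + 1 * y i 0 := by
      intro y hy i
      have h1 := Finset.single_le_sum (f := fun i => 1 - y i 0)
        (fun j _ => sub_nonneg.mpr (Sph_abs (hy.1.1 j) 0).2) (Finset.mem_univ i)
      have h2 := hy.2
      simp only [mem_ofPred_eq] at h1 h2
      linarith
    refine P_contr 0 k ((Wedge_cpt _).inter_right (isClosed_le (by fun_prop) (by fun_prop)))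
      (fun _ => Pi.single 0 1) ⟨⟨?_, fun _ _ _ => Or.inl rfl⟩, by norm_num⟩
      (fun p i => cp 1 (p.1, p.2 i)) (continuousOn_pi.mpr fun i =>
        cp_cont 1 continuous_fst (by fun_prop) fun a ha => h0 _ ha.2 i)
      (fun p hp => ⟨⟨fun i => cp_mem (by norm_num) hp.1 (hp.2.1.1 i) (h0 _ hp.2 i),
        fun i j hij => ?_⟩, ?_⟩) (fun x _ => funext fun i => cp_zero 1 _)
      fun x hx => funext fun i => cp_one (h0 x hx i)
    · simp [Fin.sum_univ_succ]
    · exact (hp.2.1.2 i j hij).imp (fun h => by simp only [h, cp_base])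
        fun h => by simp only [h, cp_base]
    · have h1 := hp.2.2
      have : ∑ i, (1 - cp 1 (p.1, p.2 i) 0) = p.1 * ∑ i, (1 - p.2 i 0) := by
        rw [Finset.mul_sum]
        refine Finset.sum_congr rfl fun i _ => ?_
        simp only [cp, mvz, Fin.cons_zero]; ring
      simp only [mem_ofPred_eq, this] at h1 ⊢
      nlinarith [hp.1.1, hp.1.2]
  exact mv (fun y => 2 * (1 - ∑ i, (1 - y i 0)))
    ((Wedge_cpt _).uniformContinuousOn_of_continuous (by fun_prop)) (hA _) (hA _)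
    (P_pieces 0 _ D (· ≤ 1) isClosed_Iic (fun _ h => h) fun i => P_cap2 _ _ _)
    (P_pieces 0 _ D (· ≤ 1) isClosed_Iic (fun _ h => h) fun i => P_cap2 _ _ _)
    (P_pieces 2 _ D (fun r => -1 ≤ r ∧ r ≤ 1) isClosed_Icc (fun _ h => h.2)
      fun i => P_band _ _ _ (P_sph _ _))

theorem P_equiv {R : Type} [CommRing R] {X Y : Type} [PseudoMetricSpace X] [PseudoMetricSpace Y]
    {c : R} {k : ℕ} {A : Set X} {B : Set Y} (hA : IsCompact A) (hB : IsCompact B)
    (e : ContinuousMap.HomotopyEquiv A B) (h : P c (k + 1) B) : P c (k + 1) A := by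
  classical
  rcases A.eq_empty_or_nonempty with rfl | ⟨x0, hx0⟩
  · exact P_empty _ _
  obtain ⟨H⟩ := e.left_inv
  refine dom hA hB (fun x => if h : x ∈ A then e.toFun ⟨x, h⟩ else e.toFun ⟨x0, hx0⟩)
    (fun y => if h : y ∈ B then e.invFun ⟨y, h⟩ else x0) ?_ ?_ ?_ ?_
    (fun p => if h : p.2 ∈ A then H (projIcc 0 1 zero_le_one p.1, ⟨p.2, h⟩) else x0)
    ?_ ?_ ?_ ?_ h
  · rw [continuousOn_iff_continuous_domRestrict]
    exact (continuous_subtype_val.comp e.toFun.continuous).congr fun x => by simp [x.2]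
  · rw [continuousOn_iff_continuous_domRestrict]
    exact (continuous_subtype_val.comp e.invFun.continuous).congr fun x => by simp [x.2]
  · intro x hx; simp [hx]
  · intro x hx; simp [hx]
  · rw [continuousOn_iff_continuous_domRestrict]
    refine (continuous_subtype_val.comp (H.continuous.comp
      (f := fun p : (Icc (0 : ℝ) 1 ×ˢ A : Set (ℝ × X)) =>
        (projIcc 0 1 zero_le_one p.1.1, (⟨p.1.2, p.2.2⟩ : A))) (by fun_prop))).congr fun p => ?_
    have := p.2.2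
    simp [this]
  · intro p hp; simp [hp.2]
  · intro x hx; simp [hx]
  · intro x hx; simp [hx]

end Pool.Agent.Lib.helper7.AS
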