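import Pool.Agent.Lib.helper7.ASW

set_option autoImplicit false

/-! A simplicial Bockstein obstruction survives in the Alexander-Spanier cohomology of the
geometric realisation of an order complex. -/

namespace Pool.Agent.Lib.helper7.AS

open Set

theorem d_ofFn {X : Type} (n : ℕ) (x : Fin (n + 1) → X) (a : List X → ZMod 2) :
    d (List.ofFn x) a = ∑ j : Fin (n + 1), a (List.ofFn (x ∘ j.succAbove)) := by
  induction n generalizing a with
  | zero => simp [d]
  | succ n ih =>
    rw [List.ofFn_succ, d, ih, Fin.sum_univ_succ _ (n := n + 1), CharTwo.sub_eq_add]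
    congr 1
    refine Finset.sum_congr rfl fun j _ => ?_
    rw [List.ofFn_succ (f := x ∘ j.succ.succAbove)]
    simp only [Function.comp_def, Fin.succ_succAbove_zero, Fin.succ_succAbove_succ]

theorem d_perm {X : Type} {l m : List X} (h : l.Perm m) (a : List X → ZMod 2)
    (ha : ∀ l m, l.Perm m → a l = a m) : d l a = d m a := by
  induction h generalizing a with
  | nil => rfl
  | cons x h ih => rw [d, d, ha _ _ h, ih _ fun l m h => ha _ _ (h.cons x)]
  | swap x y l =>
    simp only [d, CharTwo.sub_eq_add]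
    rw [show (fun m => a (y :: x :: m)) = fun m => a (x :: y :: m) from
      funext fun m => ha _ _ (List.Perm.swap _ _ _)]
    ring
  | trans _ _ ih ih' => rw [ih a ha, ih' a ha]

variable {T : Type} [Fintype T] [DecidableEq T]

def K (s : Set T) : Set (T → ℝ) := {x | (∀ t, 0 ≤ x t) ∧ (∀ t, x t ≠ 0 → t ∈ s) ∧ ∑ t, x t = 1}

omit [DecidableEq T] in
theorem K_mono {s s' : Set T} (h : s ⊆ s') : K s ⊆ K s' :=
  fun _ hx => ⟨hx.1, fun t ht => h (hx.2.1 t ht), hx.2.2⟩

theorem K_single {s : Set T} {t : T} (h : t ∈ s) : (Pi.single t 1 : T → ℝ) ∈ K s :=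
  ⟨fun u => by rw [Pi.single_apply]; split_ifs <;> norm_num,
    fun u hu => by by_contra hn; exact hu (Pi.single_eq_of_ne (fun e => hn (by rwa [e])) _), by simp⟩

omit [DecidableEq T] [Fintype T] in
theorem imp_closed (t : T) (p : Prop) : IsClosed {x : T → ℝ | x t ≠ 0 → p} := by
  by_cases h : p
  · simp [h]
  · simpa [h] using isClosed_eq (continuous_apply t) continuous_const

omit [DecidableEq T] in
theorem K_cpt (s : Set T) : IsCompact (K s) := by
  refine (isCompact_stdSimplex ℝ T).of_isClosed_subset ?_ fun _ h => ⟨h.1, h.2.2⟩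
  simp only [K, ofPred_and, ofPred_forall (p := fun t (x : T → ℝ) => 0 ≤ x t),
    ofPred_forall (p := fun t (x : T → ℝ) => x t ≠ 0 → t ∈ s)]
  exact (isClosed_iInter fun t => isClosed_le continuous_const (continuous_apply t)).inter
    ((isClosed_iInter fun t => imp_closed t _).inter (isClosed_eq (by fun_prop) continuous_const))

theorem K_lift {R : Type} [CommRing R] {s : Set T} {t : T} (ht : t ∈ s) (k : ℕ)
    (g : List (T → ℝ) → R) (h1 : Z (k + 1) (K s) g 0)
    (h2 : ∀ l, l.length = k + 2 → (∀ x ∈ l, x ∈ K s) → d l g = 0) :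
    ∃ u, Z k (K s) u 0 ∧ ∀ l, l.length = k + 1 → (∀ x ∈ l, x ∈ K s) → g l = d l u := by
  have hp := K_single ht
  have hP : P (0 : R) k (K s) := by
    refine P_contr 0 k (K_cpt s) _ hp (fun p => (1 - p.1) • Pi.single t 1 + p.1 • p.2)
      (by fun_prop) ?_ (by simp) (by simp)
    rintro ⟨r, x⟩ ⟨hr, hx⟩
    refine ⟨fun u => add_nonneg (mul_nonneg (sub_nonneg.mpr hr.2) (hp.1 u))
      (mul_nonneg hr.1 (hx.1 u)), fun u hu => ?_, ?_⟩
    · by_contra hn
      have e1 : (Pi.single t 1 : T → ℝ) u = 0 := by_contra fun h => hn (hp.2.1 u h)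
      have e2 : x u = 0 := by_contra fun h => hn (hx.2.1 u h)
      simp [e1, e2] at hu
    · have := hx.2.2
      simp only at this
      simp [Finset.sum_add_distrib, ← Finset.mul_sum, this]
  have e : ∀ l, l.length = k + 1 → (∀ x ∈ l, x ∈ K s) →
      g l = d l fun m => g (Pi.single t 1 :: m) := fun l hl hx =>
    sub_eq_zero.mp (h2 (Pi.single t 1 :: l) (by simp [hl]) fun x h => by
      rcases List.mem_cons.mp h with rfl | h
      exacts [hp, hx x h])
  obtain ⟨r, hr, h1⟩ := h1
  obtain ⟨b, hb⟩ := P_zero hP (fun m => g (Pi.single t 1 :: m))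
    ⟨r, hr, fun l hl => (e l hl.1 hl.2.1).symm.trans (h1 l hl)⟩
  exact ⟨fun m => g (Pi.single t 1 :: m) - d m b, hb.one fun l h => sub_eq_zero.mpr h,
    fun l hl hx => by rw [d_sub, d_d, sub_zero, e l hl hx]⟩

theorem zig (q : ℕ) (G : (Fin (q + 1) → T) → List (T → ℝ) → ZMod 2)
    (hb : ∀ c, Z (q + 1) (K (range c)) (G c) 0)
    (hc : ∀ c l, l.length = q + 2 → (∀ x ∈ l, x ∈ K (range c)) → d l (G c) = 0)
    (hd : ∀ (r : Fin q → T) l, l.length = q + 1 → (∀ x ∈ l, x ∈ K (range r)) →
      ∑ c, ∑ j : Fin (q + 1), (if c ∘ j.succAbove = r then G c l else 0) = 0) :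
    ∑ c, G c (List.ofFn fun i => Pi.single (c i) 1) = 0 := by
  induction q with
  | zero =>
    refine Finset.sum_eq_zero fun c _ => ?_
    obtain ⟨e, he, h⟩ := hb c
    refine h _ ⟨by simp, fun x hx => ?_, fun x hx y hy => ?_⟩
    · obtain ⟨i, rfl⟩ := List.mem_ofFn.mp hx
      exact K_single ⟨i, rfl⟩
    · obtain ⟨i, rfl⟩ := List.mem_ofFn.mp hx
      obtain ⟨j, rfl⟩ := List.mem_ofFn.mp hy
      rw [Subsingleton.elim (α := Fin 1) i j, dist_self]; exact he
  | succ q ih =>
    choose u hu hu' using fun c => K_lift (mem_range_self (f := c) 0) (q + 1) (G c) (hb c) (hc c)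
    have hK : ∀ (c : Fin (q + 2) → T) (j : Fin (q + 2)),
        K (range (c ∘ j.succAbove)) ⊆ K (range c) := fun c j => K_mono (range_comp_subset_range _ _)
    have := ih (fun r l => ∑ c, ∑ j : Fin (q + 2), if c ∘ j.succAbove = r then u c l else 0)
      (fun r => ?_) (fun r l hl hx => ?_) fun p l _ _ => ?_
    · rw [Finset.sum_comm] at this
      refine Eq.trans (Finset.sum_congr rfl fun c _ => ?_) this
      rw [hu' c _ (by simp) fun x hx => by
        obtain ⟨i, rfl⟩ := List.mem_ofFn.mp hx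
        exact K_single ⟨i, rfl⟩, d_ofFn, Finset.sum_comm]
      simp only [Finset.sum_ite_eq, Finset.mem_univ, if_true]
      rfl
    · obtain ⟨e, he, h⟩ := Z.fin hu
      refine ⟨e, he, fun l hl => Finset.sum_eq_zero fun c _ => Finset.sum_eq_zero fun j _ => ?_⟩
      split_ifs with h'
      · exact h c l (hl.mono le_rfl (h' ▸ hK c j))
      · rfl
    · refine Eq.trans ?_ (hd r l hl hx)
      rw [d_sum]
      refine Finset.sum_congr rfl fun c _ => ?_
      rw [d_sum]
      refine Finset.sum_congr rfl fun j _ => ?_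
      split_ifs with h'
      · exact (hu' c l hl fun x h => hK c j (h' ▸ hx x h)).symm
      · exact d_zero _ _ fun _ _ _ => rfl
    · have : ∀ r : Fin (q + 1) → T, ∀ k : Fin (q + 1), (if r ∘ k.succAbove = p then
          ∑ c, ∑ j : Fin (q + 2), (if c ∘ j.succAbove = r then u c l else 0) else 0) =
          ∑ c, ∑ j : Fin (q + 2), if c ∘ j.succAbove = r then
            (if r ∘ k.succAbove = p then u c l else 0) else 0 := by
        intro r k; split_ifs <;> simp
      simp only [this]
      rw [Finset.sum_comm]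
      have : ∀ k : Fin (q + 1), (∑ r : Fin (q + 1) → T, ∑ c, ∑ j : Fin (q + 2),
          if c ∘ j.succAbove = r then (if r ∘ k.succAbove = p then u c l else 0) else 0) =
          ∑ c, ∑ j : Fin (q + 2), if (c ∘ j.succAbove) ∘ k.succAbove = p then u c l else 0 := by
        intro k
        rw [Finset.sum_comm]
        refine Finset.sum_congr rfl fun c _ => ?_
        rw [Finset.sum_comm]
        simp only [Finset.sum_ite_eq, Finset.mem_univ, if_true]
      simp only [this]
      rw [Finset.sum_comm]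
      refine Finset.sum_eq_zero fun c _ => ?_
      rw [← Fintype.sum_prod_type']
      refine Finset.sum_involution (fun w _ => (w.1.predAbove w.2, w.2.succAbove w.1))
        (fun w _ => ?_) (fun w _ _ h => Fin.succAbove_ne _ _ (congrArg Prod.snd h))
        (fun _ _ => Finset.mem_univ _) fun w _ => ?_
      · have : (c ∘ (w.2.succAbove w.1).succAbove) ∘ (w.1.predAbove w.2).succAbove
            = (c ∘ w.2.succAbove) ∘ w.1.succAbove :=
          funext fun i => congrArg c (Fin.succAbove_succAbove_succAbove_predAbove _ _ _)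
        simp only [this, CharTwo.add_self_eq_zero]
      · simp only [Fin.predAbove_predAbove_succAbove, Fin.succAbove_succAbove_predAbove]

variable [PartialOrder T]

/-- geometric realisation of the order complex of `Q` -/
def Rl (Q : Set T) : Set (T → ℝ) := {x | (∀ t, 0 ≤ x t) ∧ (∀ t, x t ≠ 0 → t ∈ Q) ∧
  ∑ t, x t = 1 ∧ ∀ a b, x a ≠ 0 → x b ≠ 0 → a ≤ b ∨ b ≤ a}

omit [DecidableEq T] in
theorem Rl_cpt (Q : Set T) : IsCompact (Rl Q) := by
  have : Rl Q = K Q ∩ ⋂ a, ⋂ b, ({x | x a ≠ 0 → False} ∪ {x | x b ≠ 0 → a ≤ b ∨ b ≤ a}) := by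
    ext x
    simp only [Rl, K, mem_inter_iff, mem_ofPred_eq, mem_iInter, mem_union, and_assoc, imp_iff_not_or,
      or_false]
  rw [this]
  exact (K_cpt Q).inter_right (isClosed_iInter fun a => isClosed_iInter fun b =>
    (imp_closed _ _).union (imp_closed _ _))

theorem notP [Nonempty T] (Q : Set T) (q : ℕ) {ι : Type} (A : Finset ι) (g : ι → Fin (q + 1) → T)
    (hg : ∀ a ∈ A, StrictMono (g a) ∧ ∀ i, g a i ∈ Q)
    (hf : ∀ (j : Fin (q + 1)) (f : (Fin q → T) → ZMod 2), ∑ a ∈ A, f (g a ∘ j.succAbove) = 0)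
    (p : List T → ℤ) (hp : ∀ l, l.length = q + 1 → (∀ t ∈ l, t ∈ Q) →
      (∀ a ∈ l, ∀ b ∈ l, a ≤ b ∨ b ≤ a) → 2 ∣ d l p)
    (hs : (∑ a ∈ A, d (List.ofFn (g a)) p) % 4 = 2) : ¬ P (2 : ℤ) (q + 1) (Rl Q) := by
  intro h
  have hN : (0 : ℝ) < 1 / Fintype.card T := by have := Fintype.card_pos (α := T); positivity
  let v : (T → ℝ) → T := fun x => Classical.epsilon fun t => 1 / (Fintype.card T : ℝ) ≤ x t
  have hv : ∀ x : T → ℝ, ∑ t, x t = 1 → 1 / (Fintype.card T : ℝ) ≤ x (v x) := fun x hx => by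
    refine Classical.epsilon_spec (p := fun t => 1 / (Fintype.card T : ℝ) ≤ x t) ?_
    by_contra hn
    push Not at hn
    have := Finset.sum_lt_sum_of_nonempty Finset.univ_nonempty fun t _ => hn t
    rw [hx, Finset.sum_const, Finset.card_univ, nsmul_eq_mul, mul_one_div_cancel] at this
    · exact lt_irrefl _ this
    · have := Fintype.card_pos (α := T); positivity
  let good : List (T → ℝ) → Prop := fun l => ∃ y ∈ Rl Q, ∀ x ∈ l, y (v x) ≠ 0
  let a : List (T → ℝ) → ℤ := fun l => d l (fun m => p (m.map v)) / 2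
  have h2 : ∀ l, good l → l.length = q + 1 → 2 * a l = d l fun m => p (m.map v) := by
    rintro l ⟨y, hy, hl⟩ e
    refine Int.mul_ediv_cancel' ?_
    rw [d_map]
    refine hp _ (by simp [e]) (fun t ht => ?_) fun t ht t' ht' => ?_
    · obtain ⟨x, hx, rfl⟩ := List.mem_map.mp ht
      exact hy.2.1 _ (hl x hx)
    · obtain ⟨x, hx, rfl⟩ := List.mem_map.mp ht
      obtain ⟨x', hx', rfl⟩ := List.mem_map.mp ht'
      exact hy.2.2.2 _ _ (hl x hx) (hl x' hx')
  have h3 : ∀ l, good l → l.length = q + 2 → d l a = 0 := by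
    rintro l ⟨y, hy, hl⟩ e
    have := d_congr l (fun m => 2 * a m) _ fun m hm e' =>
      h2 m ⟨y, hy, fun x hx => hl x (hm.subset hx)⟩ (by omega)
    rw [d_mul, d_d] at this
    omega
  have g1 : ∀ k l, Sm (1 / (Fintype.card T : ℝ)) (k + 1) (Rl Q) l → good l := fun k l hl => by
    obtain ⟨y, hy⟩ := List.exists_mem_of_length_pos (l := l) (by rw [hl.1]; omega)
    refine ⟨y, hl.2.1 y hy, fun x hx => ?_⟩
    have h1 := (dist_le_pi_dist _ _ (v x)).trans_lt (hl.2.2 x hx y hy)
    rw [Real.dist_eq] at h1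
    linarith [hv x (hl.2.1 x hx).2.2.1, (abs_lt.mp h1).2]
  have sub : ∀ b ∈ A, K (range (g b)) ⊆ Rl Q := by
    rintro b hb x hx
    refine ⟨hx.1, fun t ht => ?_, hx.2.2, fun t t' ht ht' => ?_⟩
    · obtain ⟨i, rfl⟩ := hx.2.1 t ht
      exact (hg b hb).2 i
    · obtain ⟨i, rfl⟩ := hx.2.1 t ht
      obtain ⟨j, rfl⟩ := hx.2.1 t' ht'
      exact (le_total i j).imp (fun h => (hg b hb).1.monotone h) fun h => (hg b hb).1.monotone h
  have g2 : ∀ b ∈ A, ∀ l, (∀ x ∈ l, x ∈ K (range (g b))) → good l := by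
    classical
    intro b hb l hl
    refine ⟨fun t => if t ∈ range (g b) then 1 / (q + 1 : ℝ) else 0,
      sub b hb ⟨fun t => by positivity, fun t ht => by_contra fun hn => ht (if_neg hn), ?_⟩,
      fun x hx => ?_⟩
    · rw [← Finset.sum_filter, Finset.sum_const, show Finset.univ.filter (· ∈ range (g b))
        = Finset.univ.image (g b) by ext; simp,
        Finset.card_image_of_injective _ (hg b hb).1.injective]
      simp only [Finset.card_univ, Fintype.card_fin, nsmul_eq_mul]
      push_cast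
      exact mul_one_div_cancel (by positivity)
    · beta_reduce
      rw [if_pos ((hl x hx).2.1 _ (hN.trans_le (hv x (hl x hx).2.2)).ne')]
      positivity
  obtain ⟨t, ht⟩ := h a ⟨_, hN, fun l hl => h3 l (g1 _ l hl) hl.1⟩
    ⟨fun m => p (m.map v), _, hN, fun l hl => h2 l (g1 _ l hl) hl.1⟩
  let y : List (T → ℝ) → ZMod 2 := fun l => ((a l - d l t : ℤ) : ZMod 2)
  have := zig q (fun c l => ∑ b ∈ A, if g b = c then y l else 0) (fun c => ?_)
    (fun c l hl hx => ?_) fun r l _ _ => ?_
  · rw [Finset.sum_comm] at this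
    simp only [Finset.sum_ite_eq, Finset.mem_univ, if_true, y, Int.cast_sub,
      Finset.sum_sub_distrib] at this
    have e1 : ∑ b ∈ A, ((d (List.ofFn fun i => Pi.single (g b i) 1) t : ℤ) : ZMod 2) = 0 := by
      have := fun l => d_hom (Int.castRingHom (ZMod 2)) l t
      simp only [eq_intCast] at this
      simp only [this, d_ofFn]
      rw [Finset.sum_comm]
      exact Finset.sum_eq_zero fun j _ =>
        hf j fun r => (t (List.ofFn fun i => Pi.single (r i) 1) : ZMod 2)
    rw [e1, sub_zero, ← Int.cast_sum] at this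
    have e2 := (ZMod.intCast_zmod_eq_zero_iff_dvd _ 2).mp this
    have e3 : ∑ b ∈ A, d (List.ofFn (g b)) p
        = 2 * ∑ b ∈ A, a (List.ofFn fun i => Pi.single (g b i) 1) := by
      rw [Finset.mul_sum]
      refine Finset.sum_congr rfl fun b hb => ?_
      rw [h2 _ (g2 b hb _ fun x hx => by
        obtain ⟨i, rfl⟩ := List.mem_ofFn.mp hx
        exact K_single ⟨i, rfl⟩) (by simp), d_map, List.map_ofFn]
      congr 2
      funext i
      exact ((K_single (mem_singleton (g b i))).2.1 _ (hN.trans_le (hv _ (by simp))).ne').symm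
    omega
  · obtain ⟨e, he, ht⟩ := ht
    refine ⟨e, he, fun l hl => Finset.sum_eq_zero fun b hb => ?_⟩
    split_ifs with h'
    · have := ht l (hl.mono le_rfl (h' ▸ sub b hb))
      simp only [y, this, dd, sub_self, Int.cast_zero]
    · rfl
  · rw [d_sum]
    refine Finset.sum_eq_zero fun b hb => ?_
    split_ifs with h'
    · have := d_hom (Int.castRingHom (ZMod 2)) l fun m => a m - d m t
      rw [d_sub, d_d, h3 l (g2 b hb l (h' ▸ hx)) hl] at this
      exact this.symm
    · exact d_zero _ _ fun _ _ _ => rfl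
  · rw [Finset.sum_comm]
    refine Finset.sum_eq_zero fun j _ => Eq.trans ?_ (hf j fun r' => if r' = r then y l else 0)
    have : ∀ c : Fin (q + 1) → T, (if c ∘ j.succAbove = r then
        ∑ b ∈ A, (if g b = c then y l else 0) else 0) =
        ∑ b ∈ A, if g b = c then (if c ∘ j.succAbove = r then y l else 0) else 0 := by
      intro c; split_ifs <;> simp
    simp only [this]
    rw [Finset.sum_comm]
    simp only [Finset.sum_ite_eq, Finset.mem_univ, if_true]

end Pool.Agent.Lib.helper7.AS
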