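import Mathlib

namespace Pool.Agent.Lib.helper7.Brauer

open Finset Filter

/-- finite van der Waerden -/
theorem vdw (K : ℕ) (κ : Type) [Finite κ] : ∃ N : ℕ, ∀ C : ℕ → κ, ∃ a b : ℕ,
    0 < a ∧ 0 < b ∧ a ≤ N ∧ b ≤ N ∧ ∀ s, s ≤ K → C (b + s * a) = C b := by
  classical
  obtain ⟨ι, _, h⟩ := Combinatorics.Line.exists_mono_in_high_dimension (Fin (K + 1)) κ
  refine ⟨1 + Fintype.card ι * (K + 1), fun C => ?_⟩
  obtain ⟨l, c, hl⟩ := h (fun v => C (1 + ∑ i, (v i).val))
  set a := (univ.filter (fun i => l.idxFun i = none)).card with ha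
  have key : ∀ s : Fin (K + 1), ∑ i, (l s i).val = ∑ i, (l 0 i).val + s.val * a := by
    intro s
    rw [ha, card_filter, mul_sum, ← sum_add_distrib]
    refine sum_congr rfl (fun i _ => ?_)
    rcases e : l.idxFun i with _ | x
    · simp [Combinatorics.Line.coe_apply, e]
    · simp [Combinatorics.Line.coe_apply, e]
  refine ⟨a, 1 + ∑ i, (l 0 i).val, card_pos.2 ⟨l.proper.choose, by simpa using l.proper.choose_spec⟩,
    by omega, ?_, ?_, fun s hs => ?_⟩
  · have : a ≤ Fintype.card ι := card_le_univ _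
    nlinarith
  · have : ∑ i, (l 0 i).val ≤ ∑ _i : ι, (K + 1) := sum_le_sum (fun i _ => (l 0 i).2.le)
    simp only [sum_const, card_univ, smul_eq_mul] at this
    omega
  · have h1 := hl ⟨s, by omega⟩
    have h2 := hl 0
    simp only at h1 h2
    rw [key] at h1
    rw [h2, add_assoc, h1]

/-- no finite colouring avoids y, z, y + m z in every colour (m may depend on the colour) -/
theorem brauer (κ : Type) [Finite κ] (m : κ → ℕ) (C : ℕ → κ) :
    ∃ y z, 0 < y ∧ 0 < z ∧ C z = C y ∧ C (y + m (C y) * z) = C y := by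
  classical
  have := Fintype.ofFinite κ
  set M := univ.sup m with hM
  have main : ∀ k : ℕ, ∃ T : ℕ, 0 < T ∧ ∀ C : ℕ → κ,
      (∀ y z, 0 < y → 0 < z → C z = C y → C (y + m (C y) * z) ≠ C y) →
      ∃ S : Finset κ, S.card = k ∧ ∀ c ∈ S, ∃ t, 0 < t ∧ t ≤ T ∧ C t = c := by
    intro k
    induction k with
    | zero => exact ⟨1, one_pos, fun C _ => ⟨∅, rfl, by simp⟩⟩
    | succ k ih =>
      obtain ⟨T, T0, hT⟩ := ih
      obtain ⟨N, hN⟩ := vdw (M * T) κ
      obtain ⟨a', -, a0', -, aN', -⟩ := hN C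
      refine ⟨N * T, Nat.mul_pos (by omega) T0, fun C hC => ?_⟩
      obtain ⟨a, b, a0, b0, aN, bN, hab⟩ := hN C
      obtain ⟨S, hS, hS'⟩ := hT (fun t => C (a * t)) (fun y z y0 z0 h1 h2 =>
        hC (a * y) (a * z) (by positivity) (by positivity) h1 (by
          rw [← h2]; congr 1; simp only [h2]; ring))
      have hn : C b ∉ S := by
        intro hb
        obtain ⟨t, t0, tT, ht⟩ := hS' _ hb
        refine hC b (a * t) b0 (by positivity) ht ?_
        have : m (C b) ≤ M := le_sup (f := m) (mem_univ _)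
        rw [← hab (m (C b) * t) (Nat.mul_le_mul this tT)]
        congr 1
        rw [hab (m (C b) * t) (Nat.mul_le_mul this tT)]; ring
      refine ⟨insert (C b) S, by rw [card_insert_of_notMem hn, hS], fun c hc => ?_⟩
      rcases mem_insert.1 hc with rfl | hc
      · exact ⟨b, b0, le_trans bN (Nat.le_mul_of_pos_right _ T0), rfl⟩
      · obtain ⟨t, t0, tT, ht⟩ := hS' c hc
        exact ⟨a * t, by positivity, Nat.mul_le_mul aN tT, ht⟩
  by_contra hcon
  push Not at hcon
  obtain ⟨T, -, hT⟩ := main (Fintype.card κ + 1)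
  obtain ⟨S, hS, -⟩ := hT C hcon
  have := card_le_univ S
  omega

def Q (A : Set ℕ) : Prop := ∀ m : ℕ, ∃ y z, 0 < y ∧ 0 < z ∧ y ∈ A ∧ z ∈ A ∧ y + m * z ∈ A

attribute [local instance] Ultrafilter.mul Ultrafilter.semigroup

theorem exists_idem : ∃ U : Ultrafilter ℕ, (∀ A ∈ U, Q A) ∧
    ∀ A ∈ U, ∀ᶠ w in U, ∀ᶠ z in U, w * z ∈ A := by
  classical
  let S : Set (Ultrafilter ℕ) := ⋂ A : {A : Set ℕ // ¬ Q A}, {U | (A.1)ᶜ ∈ U}
  have hS : ∀ U : Ultrafilter ℕ, U ∈ S ↔ ∀ A ∈ U, Q A := by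
    intro U
    simp only [S, Set.mem_iInter, Set.mem_ofPred_eq, Ultrafilter.compl_mem_iff_notMem, Subtype.forall]
    exact ⟨fun h A hA => by_contra (fun c => h A c hA), fun h A c hA => c (h A hA)⟩
  have h := exists_idempotent_in_compact_subsemigroup
    (M := Ultrafilter ℕ) Ultrafilter.continuous_mul_left S ?_
    (IsClosed.isCompact (isClosed_iInter fun i => ultrafilter_isClosed_basic _)) ?_
  · obtain ⟨U, hU, idem⟩ := h
    refine ⟨U, (hS U).1 hU, fun A hA => ?_⟩
    rw [← idem] at hA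
    exact hA
  · obtain ⟨U, hU⟩ := Ultrafilter.exists_ultrafilter_of_finite_inter_nonempty
      {B : Set ℕ | ¬ Q Bᶜ} (fun T hT => by
        by_contra hne
        have h1 : ∀ n : ℕ, ∃ B : T, n ∉ B.1 := by
          intro n
          by_contra c
          push Not at c
          exact hne ⟨n, fun B hB => c ⟨B, hB⟩⟩
        choose C hC using h1
        have h2 : ∀ B : T, ∃ m : ℕ, ∀ y z, 0 < y → 0 < z → y ∉ B.1 → z ∉ B.1 → y + m * z ∈ B.1 := by
          intro B
          have := hT B.2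
          simp only [Set.mem_ofPred_eq, Q] at this
          push Not at this
          simpa using this
        choose m hm using h2
        obtain ⟨y, z, y0, z0, e1, e2⟩ := brauer T m C
        refine hC (y + m (C y) * z) ?_
        rw [e2]
        exact hm _ y z y0 z0 (hC y) (by rw [← e1]; exact hC z))
    refine ⟨U, Set.mem_iInter.2 (fun A => hU ?_)⟩
    simpa using A.2
  · intro U hU V hV
    rw [hS] at hU hV ⊢
    intro A hA
    have h0 : ∀ᶠ a in U, 0 < a := by
      by_contra c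
      have : {a : ℕ | 0 < a}ᶜ ∈ U := Ultrafilter.compl_mem_iff_notMem.2 c
      obtain ⟨y, -, y0, -, hy, -⟩ := hU _ this 0
      exact hy y0
    have hA' : ∀ᶠ a in U, ∀ᶠ b in V, a * b ∈ A := hA
    obtain ⟨a, a0, ha⟩ := (h0.and hA').exists
    intro m
    obtain ⟨y, z, y0, z0, h1, h2, h3⟩ := hV _ ha m
    refine ⟨a * y, a * z, by positivity, by positivity, h1, h2, ?_⟩
    have : a * y + m * (a * z) = a * (y + m * z) := by ring
    rw [this]; exact h3

/-- one colour class has a multiplicative Schur triple and all patterns y, z, y + m z -/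
theorem both (κ : Type) [Finite κ] (C : ℕ → κ) : ∃ c, Q {n | C n = c} ∧
    ∃ w z, 0 < w ∧ 0 < z ∧ C w = c ∧ C z = c ∧ C (w * z) = c := by
  obtain ⟨U, h1, h2⟩ := exists_idem
  obtain ⟨c, hc⟩ : ∃ c, {n | C n = c} ∈ U := by
    have : (⋃ c, {n | C n = c}) ∈ U := by
      rw [show (⋃ c, {n | C n = c}) = Set.univ by ext; simp]; exact Filter.univ_mem
    rw [← Set.biUnion_univ, Ultrafilter.finite_biUnion_mem_iff Set.finite_univ] at this
    obtain ⟨c, -, hc⟩ := this
    exact ⟨c, hc⟩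
  have h0 : ∀ᶠ a in U, 0 < a := by
    by_contra c
    have : {a : ℕ | 0 < a}ᶜ ∈ U := Ultrafilter.compl_mem_iff_notMem.2 c
    obtain ⟨y, -, y0, -, hy, -⟩ := h1 _ this 0
    exact hy y0
  have hc' : ∀ᶠ a in U, C a = c := hc
  obtain ⟨w, ⟨w0, hw⟩, hw'⟩ := ((h0.and hc').and (h2 _ hc)).exists
  obtain ⟨z, ⟨z0, hz⟩, hz'⟩ := ((h0.and hc').and hw').exists
  exact ⟨c, h1 _ hc, w, z, w0, z0, hw, hz, hz'⟩

end Pool.Agent.Lib.helper7.Brauer
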