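import Pool.Agent.Lib.lead.CXGraphRed

/-! Hamiltonian cycles: local description, transfer to graphs with named vertices, membership in NP. -/

namespace Pool.Agent.Lib.helper7
open Pool.Agent.Lib.CX SimpleGraph

variable {W V : Type} [DecidableEq W] [DecidableEq V]

abbrev Ham (G : SimpleGraph W) : Prop := ∃ v, ∃ p : G.Walk v v, p.IsHamiltonianCycle

theorem ham_of [Finite W] (G : SimpleGraph W) (R L : W → W) (u0 : W)
    (h : ∀ u, G.Adj u (R u) ∧ G.Adj u (L u) ∧ R u ≠ L u ∧ (R (R u) = u ∨ L (R u) = u) ∧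
      (R (L u) = u ∨ L (L u) = u))
    (c : ∀ S : W → Prop, (∀ u, (S u ↔ S (R u)) ∧ (S u ↔ S (L u))) → S u0 → ∀ u, S u) : Ham G := by
  let H : SimpleGraph W :=
    { Adj := fun u w => w = R u ∨ w = L u
      symm := ⟨fun u w e => by have := h u; grind⟩
      loopless := ⟨fun u e => by have := (h u).1.ne; have := (h u).2.1.ne; grind⟩ }
  have hH : H ≤ G := by
    rintro u w (rfl | rfl)
    exacts [(h u).1, (h u).2.1]
  have hc : H.IsCycles := fun u _ => by
    rw [show H.neighborSet u = {R u, L u} from rfl, Set.ncard_pair (h u).2.2.1]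
  obtain ⟨p, h1, h2⟩ := hc.exists_cycle_toSubgraph_verts_eq_connectedComponentSupp
    (c := H.connectedComponentMk u0) (v := u0) rfl ⟨R u0, Or.inl rfl⟩
  have h3 : ∀ u, H.Reachable u0 u := c _ (fun u =>
    ⟨⟨fun r => r.trans (Adj.reachable (Or.inl rfl)), fun r => r.trans (Adj.reachable (Or.inl rfl)).symm⟩,
     ⟨fun r => r.trans (Adj.reachable (Or.inr rfl)), fun r => r.trans (Adj.reachable (Or.inr rfl)).symm⟩⟩) .rfl
  have h4 : p.IsHamiltonianCycle := by
    rw [Walk.isHamiltonianCycle_iff_isCycle_and_support_count_tail_eq_one]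
    refine ⟨h1, fun u => List.count_eq_one_of_mem h1.support_nodup ?_⟩
    have : u ∈ p.support := by
      rw [← Walk.mem_verts_toSubgraph, h2]
      exact ConnectedComponent.sound (h3 u).symm
    rw [← p.cons_tail_support, List.mem_cons] at this
    rcases this with rfl | e
    · exact p.end_mem_tail_support h1.not_nil
    · exact e
  exact ⟨_, _, h4.map (f := Hom.ofLE hH) Function.bijective_id⟩

omit [DecidableEq W] in
theorem walk_cut {G : SimpleGraph W} (S : W → Prop) {u v : W} (p : G.Walk u v) (h1 : S u) (h2 : ¬S v) :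
    ∃ a b, S a ∧ ¬S b ∧ s(a, b) ∈ p.edges := by
  obtain ⟨d, hd, a, b⟩ := p.exists_boundary_dart {x | S x} h1 h2
  exact ⟨_, _, a, b, List.mem_map_of_mem hd⟩

theorem ham_to {G : SimpleGraph W} (h : Ham G) : ∃ x : W → W → Prop, (∀ u v, x u v → x v u) ∧
    (∀ u v, x u v → G.Adj u v) ∧ (∀ u, ∃ p q, p ≠ q ∧ ∀ w, x u w ↔ w = p ∨ w = q) ∧
    ∀ (S : W → Prop) u v, S u → ¬S v → ∃ a b, S a ∧ ¬S b ∧ x a b := by
  obtain ⟨a, p, hp⟩ := h
  refine ⟨fun u v => s(u, v) ∈ p.edges, fun u v h => by beta_reduce; rwa [Sym2.eq_swap], fun u v h => p.adj_of_mem_edges h,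
    fun u => ?_, fun S u v h1 h2 => ?_⟩
  · obtain ⟨b, c, h1, h2⟩ := Set.ncard_eq_two.1 (hp.isCycle.ncard_neighborSet_toSubgraph_eq_two (hp.mem_support u))
    exact ⟨b, c, h1, fun w => by
      beta_reduce; rw [← Walk.adj_toSubgraph_iff_mem_edges, ← Subgraph.mem_neighborSet, h2]; rfl⟩
  · by_cases ha : S a
    · obtain ⟨b, c, h3, h4, h5⟩ := walk_cut S (p.takeUntil v (hp.mem_support v)) ha h2
      exact ⟨b, c, h3, h4, p.edges_takeUntil_subset_edges _ h5⟩
    · obtain ⟨b, c, h3, h4, h5⟩ := walk_cut S (p.dropUntil u (hp.mem_support u)) h1 ha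
      exact ⟨b, c, h3, h4, p.edges_dropUntil_subset_edges _ h5⟩

theorem ham_iso {G : SimpleGraph W} {G' : SimpleGraph V} (e : G ≃g G') (h : Ham G) : Ham G' :=
  let ⟨_, _, hp⟩ := h
  ⟨_, _, hp.map (f := e.toHom) e.bijective⟩

/-- adjacency of named vertices -/
def NA (es : List (V × V)) (u v : V) : Prop := u ≠ v ∧ ((u, v) ∈ es ∨ (v, u) ∈ es)

theorem mk_ham_of (vs : List V) (es : List (V × V)) (R L : V → V) (u0 : V) (h0 : u0 ∈ vs)
    (h : ∀ u ∈ vs, R u ∈ vs ∧ L u ∈ vs ∧ NA es u (R u) ∧ NA es u (L u) ∧ R u ≠ L u ∧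
      (R (R u) = u ∨ L (R u) = u) ∧ (R (L u) = u ∨ L (L u) = u))
    (c : ∀ S : V → Prop, (∀ u ∈ vs, (S u ↔ S (R u)) ∧ (S u ↔ S (L u))) → S u0 → ∀ u ∈ vs, S u) :
    Ham (mkGr vs es).G := by
  have : Finite {x | x ∈ vs} := vs.finite_toSet
  refine ham_iso (mkGrIso vs es).symm (ham_of _ (fun u => ⟨R u.1, (h _ u.2).1⟩)
    (fun u => ⟨L u.1, (h _ u.2).2.1⟩) ⟨u0, h0⟩ (fun u => ?_) fun S h1 h2 u => ?_)
  · simpa [NA, Subtype.ext_iff] using (h _ u.2).2.2
  · obtain ⟨_, e⟩ := c (fun x => ∃ hx : x ∈ vs, S ⟨x, hx⟩) (fun x hx => by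
      have := h1 ⟨x, hx⟩
      simp only [hx, (h x hx).1, (h x hx).2.1, exists_true_left]
      exact this) ⟨h0, h2⟩ u.1 u.2
    exact e

theorem mk_ham_to {vs : List V} {es : List (V × V)} (h : Ham (mkGr vs es).G) : ∃ x : V → V → Prop,
    (∀ u v, x u v → x v u) ∧ (∀ u v, x u v → u ∈ vs ∧ v ∈ vs ∧ NA es u v) ∧
    (∀ u ∈ vs, ∃ p q, p ≠ q ∧ ∀ w, x u w ↔ w = p ∨ w = q) ∧
    ∀ S : V → Prop, ∀ u ∈ vs, ∀ v ∈ vs, S u → ¬S v → ∃ a b, S a ∧ ¬S b ∧ x a b := by
  obtain ⟨x, h1, h2, h3, h4⟩ := ham_to (ham_iso (mkGrIso vs es) h)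
  refine ⟨fun u v => ∃ hu hv, x ⟨u, hu⟩ ⟨v, hv⟩, fun u v ⟨a, b, c⟩ => ⟨b, a, h1 _ _ c⟩,
    fun u v ⟨a, b, c⟩ => ⟨a, b, by simpa [NA] using h2 _ _ c⟩, fun u hu => ?_, fun S u hu v hv a b => ?_⟩
  · obtain ⟨p, q, a, b⟩ := h3 ⟨u, hu⟩
    refine ⟨p, q, fun e => a (Subtype.ext e), fun w => ⟨fun ⟨_, _, c⟩ => ?_, ?_⟩⟩
    · simpa [Subtype.ext_iff] using (b _).1 c
    · rintro (rfl | rfl)
      exacts [⟨hu, p.2, (b _).2 (.inl rfl)⟩, ⟨hu, q.2, (b _).2 (.inr rfl)⟩]
  · obtain ⟨p, q, c, d, e⟩ := h4 (fun z => S z.1) ⟨u, hu⟩ ⟨v, hv⟩ a b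
    exact ⟨p, q, c, d, p.2, q.2, e⟩

theorem ham_np : InNP fun a : Gr => Ham a.G := by
  refine InNP.of_cert' (fun a (c : List ℕ) => 3 ≤ a.n ∧ (∀ v < a.n, ∃ k < a.n, c.getD k 0 = v) ∧
    ∀ k < a.n, a.adjB (c.getD k 0) (c.getD (if k + 1 < a.n then k + 1 else 0) 0) = true)
    (fun a => a.n * (3 * a.n + 3) + 2) (by fun_prop) (by fun_prop) ?_ ?_
  · rintro a c ⟨h1, h2, h3⟩
    have hl : ∀ k : Fin a.n, c.getD k 0 < a.n := fun k => by
      have := h3 k k.2
      simp only [Gr.adjB, decide_eq_true_eq] at this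
      exact this.1
    let f : Fin a.n → Fin a.n := fun k => ⟨_, hl k⟩
    have hf : f.Surjective := fun v => let ⟨k, b, e⟩ := h2 v v.2; ⟨⟨k, b⟩, Fin.ext e⟩
    let e := Equiv.ofBijective f (Finite.surjective_iff_bijective.1 hf)
    let R : Fin a.n → Fin a.n := fun k => ⟨if k + 1 < a.n then k + 1 else 0, by split <;> omega⟩
    let L : Fin a.n → Fin a.n := fun k => ⟨if k.1 = 0 then a.n - 1 else k - 1, by split <;> omega⟩
    have hR : ∀ k, (a.G.comap e).Adj k (R k) := fun k => (a.adjB_iff (f k) (f (R k))).1 (h3 k k.2)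
    have hRL : ∀ k, R (L k) = k := fun k => by
      have := k.2; simp only [R, L, Fin.ext_iff]; split_ifs <;> omega
    refine ham_iso (Iso.comap e a.G) (ham_of _ R L ⟨0, by omega⟩ (fun u => ⟨hR u, ?_, ?_, .inr ?_, .inl (hRL u)⟩)
      fun S h4 h5 ⟨u, hu⟩ => ?_)
    · simpa only [hRL] using (hR (L u)).symm
    · have := u.2; simp only [R, L, Ne, Fin.ext_iff]; split_ifs <;> omega
    · have := u.2; simp only [R, L, Fin.ext_iff]; split_ifs <;> first | omega | contradiction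
    · induction u with
      | zero => exact h5
      | succ u ih => simpa only [R, hu, if_true] using (h4 _).1.1 (ih (by omega))
  · rintro a ⟨v, p, hp⟩
    have hl : p.length = a.n := by simpa using hp.length_eq
    have h3 := hp.isCycle.three_le_length
    have hg : ∀ k < a.n, ((List.range a.n).map fun k => (p.getVert k).1).getD k 0 = (p.getVert k).1 :=
      fun k hk => by simp [List.getD_eq_getElem?_getD, hk]
    refine ⟨(List.range a.n).map fun k => (p.getVert k).1, ?_, by omega, fun u hu => ?_, fun k hk => ?_⟩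
    · refine (size_list_le (B := 3 * a.n + 2) fun x hx => ?_).trans (by simp)
      obtain ⟨k, -, rfl⟩ := List.mem_map.1 hx
      have := size_nat_le (p.getVert k).1
      have := (p.getVert k).2
      omega
    · obtain ⟨k, e, hk⟩ := Walk.mem_support_iff_exists_getVert.1 (hp.mem_support ⟨u, hu⟩)
      by_cases c : k < a.n
      · exact ⟨k, c, by rw [hg k c, e]⟩
      · refine ⟨0, by omega, ?_⟩
        rw [hg 0 (by omega), p.getVert_zero, ← p.getVert_of_length_le (i := k) (by omega), e]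
    · have := p.adj_getVert_succ (i := k) (by omega)
      rw [hg k hk, hg _ (by split <;> omega), a.adjB_iff]
      split
      · exact this
      · rw [p.getVert_of_length_le (i := k + 1) (by omega)] at this
        rwa [p.getVert_zero]

end Pool.Agent.Lib.helper7
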