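import Pool.Agent.Lib.lead.CXNP

namespace Pool.Agent.Lib.helper7

open Pool.Agent.Lib.CX

/-- if P = NP for bit strings then every typed NP problem is in P -/
theorem inP_of {γ : Type} [Enc γ] [Dec γ] {P : γ → Prop} (h : InNP P)
    (H : ∀ A : List Bool → Prop, InNP A → InP A) : InP P := by
  obtain ⟨q, V, hV, e⟩ := h
  have h1 : InNP fun x : List Bool => ∃ c : γ, enc c = x ∧ P c := by
    refine InNP.of_cert' (fun (x : List Bool) (c : γ × List Bool) =>
      enc c.1 = x ∧ c.2.length = q.eval (size c.1) ∧ V (c.1, c.2) = true)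
      (fun x => x.length + 3 * q.eval x.length + 3) (by fun_prop) (by fun_prop) ?_ ?_
    · rintro x ⟨c, y⟩ ⟨h1, h2⟩
      exact ⟨c, h1, (e c).2 ⟨y, h2⟩⟩
    · rintro x ⟨c, rfl, h1⟩
      obtain ⟨y, h2, h3⟩ := (e c).1 h1
      refine ⟨(c, y), ?_, rfl, h2, h3⟩
      rw [size_pair, size_bits, h2]
      simp only [size]
      omega
  refine (H _ h1).red ⟨fun c => enc c, PT.id.enc, fun c => ⟨fun h => ⟨c, rfl, h⟩, ?_⟩⟩
  rintro ⟨d, h2, h3⟩
  exact enc_inj h2 ▸ h3

/-- search reduces to decision: if P = NP then certificates can be found in polynomial time -/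
theorem search_of {α γ : Type} [Enc α] [Dec α] [Enc γ] [Dec γ] (V : α → γ → Bool) (B : α → ℕ)
    (hV : PT fun p : α × γ => V p.1 p.2) (hB : PB B) (H : ∀ A : List Bool → Prop, InNP A → InP A) :
    ∃ f : α → γ, PT f ∧ ∀ a c, size c ≤ B a → V a c = true → V a (f a) = true := by
  obtain ⟨q, hq⟩ := hB
  let W : α → List Bool → Bool := fun a y => V a (Dec.dec (parse y))
  have hW : PT fun p : α × List Bool => W p.1 p.2 :=
    hV.comp (PT.fst'.pair (Dec.pt.comp (PT.parse.comp PT.snd')))
  let L : α → ℕ := fun a => 2 * q.eval (size a)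
  have hL : PT L := by unfold L; fun_prop
  have hL' : PB L := by unfold L; fun_prop
  let E : α × List Bool → Prop := fun p => ∃ z : List Bool, (p.2 ++ z).length = L p.1 ∧ W p.1 (p.2 ++ z) = true
  have hE : InNP E := by
    refine InNP.of_cert (fun (p : α × List Bool) (z : List Bool) =>
      decide ((p.2 ++ z).length = L p.1) && W p.1 (p.2 ++ z)) (fun p => 3 * L p.1 + 2) ?_ (by fun_prop) ?_ ?_
    · have : PT fun r : (α × List Bool) × List Bool => W r.1.1 (r.1.2 ++ r.2) :=
        hW.comp (g := fun r : (α × List Bool) × List Bool => (r.1.1, r.1.2 ++ r.2)) (by fun_prop)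
      fun_prop
    · intro p z h
      exact ⟨z, by simpa using h⟩
    · rintro p ⟨z, h1, h2⟩
      refine ⟨z, ?_, by simp only [h1, h2, decide_true, Bool.and_self]⟩
      rw [size_bits]
      simp at h1
      omega
  obtain ⟨g, hg, eg⟩ := inP_of hE H
  let F : α → List Bool → List Bool := fun a y => y ++ [g (a, y ++ [true])]
  have hF : PT fun p : α × List Bool => F p.1 p.2 := by
    have : PT fun p : α × List Bool => g (p.1, p.2 ++ [true]) :=
      hg.comp (g := fun p : α × List Bool => (p.1, p.2 ++ [true])) (by fun_prop)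
    unfold F
    fun_prop
  have hlen : ∀ a k, ((F a)^[k] []).length = k := fun a k => by
    induction k with
    | zero => rfl
    | succ k ih => rw [Function.iterate_succ_apply']; simp [F, ih]
  have hf : PT fun a => (F a)^[L a] [] :=
    PT.iterate (F := F) (i := fun _ => []) (B := fun a => 3 * L a + 2) hF (by fun_prop) hL hL' (by fun_prop)
      fun a k hk => by rw [size_bits, hlen]; omega
  refine ⟨fun a => Dec.dec (parse ((F a)^[L a] [])), Dec.pt.comp (PT.parse.comp hf), fun a c hc h => ?_⟩
  have inv : ∀ k ≤ L a, E (a, (F a)^[k] []) := by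
    intro k
    induction k with
    | zero =>
      intro _
      have h1 := post_length (Enc.tr c)
      have h2 : size (Enc.tr c) = size c := rfl
      have h3 := hq a
      refine ⟨(Enc.tr c).post ++ List.replicate (2 * q.eval (size a) - (Enc.tr c).post.length) false,
        by simp [L]; omega, ?_⟩
      simp only [W, Function.iterate_zero, id, List.nil_append, parse, List.foldl_append, parse_post, parse_pad,
        List.headD_cons, Dec.dec_tr, h]
    | succ k ih =>
      intro hk
      obtain ⟨z, h1, h2⟩ := ih (by omega)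
      rw [Function.iterate_succ_apply']
      have h3 := hlen a k
      generalize (F a)^[k] [] = y at h1 h2 h3
      by_cases hg' : g (a, y ++ [true]) = true
      · have := (eg _).2 hg'
        simpa only [F, hg'] using this
      · rcases z with _ | ⟨_ | _, z⟩
        · simp at h1; omega
        · exact ⟨z, by simpa [F, hg'] using h1, by simpa [F, hg'] using h2⟩
        · exact absurd ((eg _).1 ⟨z, by simpa using h1, by simpa using h2⟩) hg'
  obtain ⟨z, h1, h2⟩ := inv _ le_rfl
  have hz : z = [] := by
    have := hlen a (L a)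
    simp only [List.length_append] at h1
    exact List.eq_nil_of_length_eq_zero (by omega)
  simpa [hz] using h2

end Pool.Agent.Lib.helper7
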