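import Pool.Agent.Lib.lead.CXDefs

/-! Counting complexity: the class of functions counting certificates, and non-adaptive oracle reductions. -/

namespace Pool.Agent.Lib.CX

variable {α β : Type} [Enc α] [Enc β]

/-- `f` counts the certificates of polynomial length accepted by a polynomial-time verifier -/
def InSharpP (f : α → ℕ) : Prop :=
  ∃ (q : Polynomial ℕ) (V : α × List Bool → Bool), PT V ∧
    ∀ a, f a = {y : List Bool | y.length = q.eval (size a) ∧ V (a, y) = true}.ncard

/-- `f` is computed in polynomial time from the values of `g` on a polynomial-time computable list of queries -/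
def TRed (f : α → ℕ) (g : β → ℕ) : Prop :=
  ∃ (Q : α → List β) (h : α × List ℕ → ℕ), PT Q ∧ PT h ∧ ∀ a, f a = h (a, (Q a).map g)

def SharpPHard (g : β → ℕ) : Prop := ∀ f : List Bool → ℕ, InSharpP f → TRed f g

def SharpPComplete (g : β → ℕ) : Prop := InSharpP g ∧ SharpPHard g

end Pool.Agent.Lib.CX
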