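import Mathlib

namespace Pool.Agent.Lib.helper7.Descartes

/-- any two distinct vertices have at most one common neighbour -/
def NoC4 {V : Type} (G : SimpleGraph V) : Prop :=
  ∀ u u' v v', G.Adj u v → G.Adj u v' → G.Adj u' v → G.Adj u' v' → u = u' ∨ v = v'

def step {V : Type} (G : SimpleGraph V) (X : Type) : SimpleGraph (X ⊕ ((V ↪ X) × V)) where
  Adj
    | .inl _, .inl _ => False
    | .inl x, .inr a => a.1 a.2 = x
    | .inr a, .inl x => a.1 a.2 = x
    | .inr a, .inr b => a.1 = b.1 ∧ G.Adj a.2 b.2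
  symm := ⟨by
    rintro (x | a) (y | b) h
    · exact h
    · exact h
    · exact h
    · exact ⟨h.1.symm, h.2.symm⟩⟩
  loopless := ⟨by
    rintro (x | a) h
    · exact h
    · exact G.loopless.1 _ h.2⟩

lemma step_noC4 {V : Type} (G : SimpleGraph V) (X : Type) (h : NoC4 G) : NoC4 (step G X) := by
  rintro (u | ⟨f, u⟩) (u' | ⟨f', u'⟩) (v | ⟨g, v⟩) (v' | ⟨g', v'⟩) h1 h2 h3 h4 <;>
    simp only [step] at h1 h2 h3 h4
  · left; rw [← h1, h3]
  · obtain ⟨rfl, -⟩ := h3
    obtain ⟨rfl, -⟩ := h4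
    right; rw [f'.injective (h1.trans h2.symm)]
  · obtain ⟨rfl, -⟩ := h1
    obtain ⟨rfl, -⟩ := h2
    right; rw [f.injective (h3.trans h4.symm)]
  · right; rw [← h1, h2]
  · obtain ⟨rfl, -⟩ := h2
    obtain ⟨rfl, -⟩ := h4
    left; rw [f'.injective (h1.trans h3.symm)]
  · obtain ⟨rfl, -⟩ := h1
    obtain ⟨rfl, -⟩ := h3
    left; rw [f'.injective (h2.trans h4.symm)]
  · obtain ⟨rfl, a1⟩ := h1
    obtain ⟨rfl, a2⟩ := h2
    obtain ⟨rfl, a3⟩ := h3
    rcases h u u' v v' a1 a2 a3 h4.2 with rfl | rfl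
    · left; rfl
    · right; rfl

/-- Tutte's (Blanche Descartes) construction: graphs without 4-cycles of every chromatic number -/
theorem exists_noC4 (m : ℕ) : ∃ (V : Type) (_ : Finite V) (G : SimpleGraph V),
    NoC4 G ∧ G.Colorable (m + 1) ∧ ¬ G.Colorable m := by
  classical
  induction m with
  | zero =>
    refine ⟨Unit, inferInstance, ⊥, fun _ _ _ _ h => h.elim, ⟨SimpleGraph.Coloring.mk (fun _ => 0)
      fun h => h.elim⟩, ?_⟩
    rintro ⟨c⟩
    exact (c ()).elim0
  | succ m ih =>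
    obtain ⟨V, hV, G, h1, ⟨c⟩, h3⟩ := ih
    have := Fintype.ofFinite V
    refine ⟨_, inferInstance, step G (Fin ((m + 1) * Fintype.card V)), step_noC4 G _ h1,
      ⟨SimpleGraph.Coloring.mk (Sum.elim (fun _ => Fin.last _) fun a => (c a.2).castSucc) ?_⟩, ?_⟩
    · rintro (x | a) (y | b) h
      · exact h.elim
      · exact (Fin.castSucc_lt_last _).ne'
      · exact (Fin.castSucc_lt_last _).ne
      · exact fun e => c.valid h.2 (Fin.castSucc_injective _ e)
    · rintro ⟨d⟩
      obtain ⟨a, ha⟩ := Fintype.exists_le_card_fiber_of_mul_le_card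
        (fun x : Fin ((m + 1) * Fintype.card V) => d (.inl x)) (n := Fintype.card V) (by simp)
      obtain ⟨f⟩ : Nonempty (V ↪ {x : Fin ((m + 1) * Fintype.card V) // d (.inl x) = a}) := by
        apply Function.Embedding.nonempty_of_card_le
        rwa [Fintype.card_subtype]
      let g : V ↪ Fin ((m + 1) * Fintype.card V) := f.trans (Function.Embedding.subtype _)
      have hne : ∀ v, d (.inr (g, v)) ≠ a := by
        intro v e
        have : (step G _).Adj (.inr (g, v)) (.inl (g v)) := rfl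
        exact d.valid this (e.trans (f v).2.symm)
      apply h3
      have c' : G.Coloring {x : Fin (m + 1) // x ≠ a} :=
        SimpleGraph.Coloring.mk (fun v => ⟨d (.inr (g, v)), hne v⟩) fun {v w} h e =>
          d.valid (show (step G _).Adj (.inr (g, v)) (.inr (g, w)) from ⟨rfl, h⟩)
            (congrArg Subtype.val e)
      simpa using c'.colorable

theorem exists_noC4_fin (m : ℕ) : ∃ (n : ℕ) (G : SimpleGraph (Fin n)),
    NoC4 G ∧ G.Colorable (m + 1) ∧ ¬ G.Colorable m := by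
  obtain ⟨V, hV, G, h1, h2, h3⟩ := exists_noC4 m
  obtain ⟨n, ⟨e⟩⟩ := Finite.exists_equiv_fin V
  refine ⟨n, G.comap e.symm, fun u u' v v' a b c d => ?_, h2.of_hom (SimpleGraph.Hom.comap _ _),
    fun h => h3 (h.of_hom ⟨e, fun {a b} hab => by simpa using hab⟩)⟩
  simpa using h1 _ _ _ _ a b c d

end Pool.Agent.Lib.helper7.Descartes
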