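import Pool.Agent.Lib.helper7.SignDet

namespace Pool.Agent.Lib.helper7.Mag

open Classical ComplexOrder

def Pot {V : Type} (G : SimpleGraph V) (s : V → V → ℂ) : Prop :=
  ∀ x y, G.Adj x y → ‖s x y‖ = 1 ∧ s y x = (s x y)⁻¹

noncomputable def lam {V : Type} [Fintype V] (G : SimpleGraph V) (s : V → V → ℂ) : ℝ :=
  sInf {t : ℝ | ∃ f : V → ℂ, f ≠ 0 ∧
    ∀ x, ∑ y ∈ G.neighborFinset x, (f x - s x y * f y) = t * f x}

noncomputable def nu {V : Type} [Fintype V] (G : SimpleGraph V) : ℝ :=
  sSup {t | ∃ s, Pot G s ∧ lam G s = t}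

variable {V : Type} [Fintype V] (G : SimpleGraph V) (s : V → V → ℂ)

lemma bdd (hs : Pot G s) : BddBelow {t : ℝ | ∃ f : V → ℂ, f ≠ 0 ∧
    ∀ x, ∑ y ∈ G.neighborFinset x, (f x - s x y * f y) = t * f x} := by
  refine ⟨0, ?_⟩
  rintro t ⟨f, hf, h⟩
  obtain ⟨z, hz⟩ := Function.ne_iff.1 hf
  obtain ⟨x, -, hx⟩ := Finset.exists_max_image Finset.univ (fun x => ‖f x‖) ⟨z, by simp⟩
  have h0 : 0 < ‖f x‖ := (norm_pos_iff.2 hz).trans_le (hx z (by simp))
  have h1 : ((G.degree x - t : ℝ) : ℂ) * f x = ∑ y ∈ G.neighborFinset x, s x y * f y := by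
    have := h x
    rw [Finset.sum_sub_distrib, Finset.sum_const, SimpleGraph.card_neighborFinset_eq_degree] at this
    push_cast
    rw [nsmul_eq_mul] at this
    linear_combination this
  have h2 : ‖∑ y ∈ G.neighborFinset x, s x y * f y‖ ≤ G.degree x * ‖f x‖ := by
    refine (norm_sum_le _ _).trans ((Finset.sum_le_card_nsmul _ _ ‖f x‖ fun y hy => ?_).trans ?_)
    · rw [norm_mul, (hs x y (by simpa using hy)).1, one_mul]
      exact hx y (by simp)
    · simp
  rw [← h1, norm_mul, Complex.norm_real] at h2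
  have h3 := le_of_mul_le_mul_right h2 h0
  have := le_abs_self (G.degree x - t : ℝ)
  rw [Real.norm_eq_abs] at h3
  linarith

lemma eig (hs : Pot G s) (b : ℝ) (g : V → ℂ) (hg : g ≠ 0)
    (h : (∑ x, star (g x) * (∑ y ∈ G.neighborFinset x, (g x - s x y * g y) - b * g x)).re ≤ 0) :
    ∃ t ≤ b, ∃ f : V → ℂ, f ≠ 0 ∧
      ∀ x, ∑ y ∈ G.neighborFinset x, (f x - s x y * f y) = t * f x := by
  let N : Matrix V V ℂ := fun x y =>
    (if x = y then ((G.degree x - b : ℝ) : ℂ) else 0) - if G.Adj x y then s x y else 0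
  have hN : ∀ f x, N.mulVec f x = ∑ y ∈ G.neighborFinset x, (f x - s x y * f y) - b * f x := by
    intro f x
    simp only [N, Matrix.mulVec, dotProduct, sub_mul, Finset.sum_sub_distrib, ite_mul, zero_mul,
      Finset.sum_ite_eq, Finset.mem_univ, if_true, Finset.sum_const,
      SimpleGraph.card_neighborFinset_eq_degree, nsmul_eq_mul]
    rw [SimpleGraph.neighborFinset_eq_filter, Finset.sum_filter]
    push_cast
    ring
  have hH : N.IsHermitian := by
    ext x y
    simp only [N, Matrix.conjTranspose_apply, star_sub, G.adj_comm y x]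
    congr 1
    · split_ifs with h1 h2 h2
      · subst h1; simp
      · exact absurd h1.symm h2
      · exact absurd h2.symm h1
      · simp
    · split_ifs with h1
      · rw [(hs x y h1).2, Complex.inv_eq_conj (hs x y h1).1]; simp
      · simp
  by_contra hn
  have hP : N.PosDef := by
    rw [hH.posDef_iff_eigenvalues_pos]
    intro i
    by_contra hi
    refine hn ⟨hH.eigenvalues i + b, by linarith, ⇑(hH.eigenvectorBasis i), fun h0 =>
      (hH.eigenvectorBasis.orthonormal.ne_zero i) (by ext x; exact congrFun h0 x), fun x => ?_⟩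
    have := congrFun (hH.mulVec_eigenvectorBasis i) x
    rw [hN] at this
    simp only [Pi.smul_apply, Complex.real_smul] at this
    push_cast
    linear_combination this
  have h3 := (Complex.lt_def.1 (hP.dotProduct_mulVec_pos hg)).1
  simp only [dotProduct, hN, Pi.star_apply, Complex.zero_re] at h3
  linarith

lemma lam_le (hs : Pot G s) (b : ℝ) (g : V → ℂ) (hg : g ≠ 0)
    (h : (∑ x, star (g x) * (∑ y ∈ G.neighborFinset x, (g x - s x y * g y) - b * g x)).re ≤ 0) :
    lam G s ≤ b := by
  obtain ⟨t, ht, hf⟩ := eig G s hs b g hg h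
  exact (csInf_le (bdd G s hs) hf).trans ht

lemma eig_deg (hs : Pot G s) (v : V) : ∃ t ≤ (G.degree v : ℝ), ∃ f : V → ℂ, f ≠ 0 ∧
    ∀ x, ∑ y ∈ G.neighborFinset x, (f x - s x y * f y) = t * f x := by
  refine eig G s hs _ (fun x => if x = v then 1 else 0) (fun h => by simpa using congrFun h v) ?_
  rw [Finset.sum_eq_single v (fun x _ hx => by simp [hx]) (by simp)]
  rw [Finset.sum_congr rfl (g := fun _ => (1 : ℂ)) fun y hy => by
    have : y ≠ v := by rintro rfl; simp at hy
    simp [this]]
  simp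

lemma nu_bdd (v : V) : BddAbove {t | ∃ s, Pot G s ∧ lam G s = t} := by
  refine ⟨G.degree v, ?_⟩
  rintro t ⟨s, hs, rfl⟩
  obtain ⟨t, ht, hf⟩ := eig_deg G s hs v
  exact (csInf_le (bdd G s hs) hf).trans ht

lemma lam_le_nu (v : V) (hs : Pot G s) : lam G s ≤ nu G := le_csSup (nu_bdd G v) ⟨s, hs, rfl⟩

open Finset Matrix SignDet in
/-- a positive supersolution of the tree recursion bounds the height from below -/
theorem le_nu (c : ℝ) (o : V) (ρ : V → V → ℝ) (hρ : ∀ v u, G.Adj v u → 0 < ρ v u)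
    (h1 : ∀ v u, G.Adj v u → u ≠ o →
      ρ v u + ∑ w ∈ ((G.neighborFinset u).erase v).erase o, 1 / ρ u w ≤ G.degree u - c)
    (h2 : ∀ u, ∑ w ∈ (G.neighborFinset u).erase o, 1 / ρ u w < G.degree u - c) : c ≤ nu G := by
  obtain ⟨e, he⟩ := exists_signing G (fun u => G.degree u - c) o ρ hρ h1 h2
  have hs : Pot G fun x y => (sg e x y : ℂ) := by
    intro x y _
    simp only [sg, Sym2.eq_swap (a := y)]
    split_ifs <;> simp
  refine le_trans ?_ (lam_le_nu G _ o hs)
  obtain ⟨t, -, ht⟩ := eig_deg G _ hs o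
  refine le_csInf ⟨t, ht⟩ ?_
  rintro t ⟨f, hf, h⟩
  have key : ∀ g : V → ℝ, g ≠ 0 →
      (∀ x, ∑ y ∈ G.neighborFinset x, (g x - sg e x y * g y) = t * g x) → c ≤ t := by
    intro g hg h
    have h3 : mat G (fun u => G.degree u - c) univ e *ᵥ g = (t - c) • g := by
      ext x
      have h4 : ∀ y, mat G (fun u => G.degree u - c) univ e x y * g y =
          (if x = y then (G.degree x - c) * g y else 0) -
            if G.Adj x y then sg e x y * g y else 0 := by
        intro y
        by_cases h5 : x = y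
        · subst h5; simp [mat]
        · by_cases h6 : G.Adj x y <;> simp [mat, h5, h6]
      have h5 := h x
      rw [sum_sub_distrib, sum_const, SimpleGraph.card_neighborFinset_eq_degree,
        SimpleGraph.neighborFinset_eq_filter, sum_filter, nsmul_eq_mul] at h5
      simp only [mulVec, dotProduct, h4, sum_sub_distrib, sum_ite_eq, mem_univ, if_true,
        Pi.smul_apply, smul_eq_mul]
      linear_combination h5
    have h4 := he.dotProduct_mulVec_pos hg
    rw [h3, star_trivial, dotProduct_smul, smul_eq_mul] at h4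
    have h5 : 0 ≤ g ⬝ᵥ g := sum_nonneg fun x _ => mul_self_nonneg _
    by_contra hn
    nlinarith
  by_cases hr : (fun x => (f x).re) = 0
  · refine key (fun x => (f x).im) (fun hi => hf ?_) fun x => ?_
    · ext x
      exact Complex.ext (congrFun hr x) (congrFun hi x)
    · simpa using congrArg Complex.im (h x)
  · refine key _ hr fun x => ?_
    simpa using congrArg Complex.re (h x)

end Pool.Agent.Lib.helper7.Mag
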