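import Mathlib

namespace Pool.Agent.Lib.helper7.MatInter

open Finset

variable {α : Type} [DecidableEq α]

structure Rk (r : Finset α → ℤ) : Prop where
  emp : r ∅ = 0
  mono : ∀ X Y, X ⊆ Y → r X ≤ r Y
  unit : ∀ e X, r (insert e X) ≤ r X + 1
  sub : ∀ X Y, r (X ∩ Y) + r (X ∪ Y) ≤ r X + r Y

lemma Rk.con {r : Finset α → ℤ} (h : Rk r) {e : α} (he : r {e} = 1) :
    Rk fun Y => r (insert e Y) - 1 where
  emp := by simp [he]
  mono X Y hXY := by have := h.mono _ _ (insert_subset_insert e hXY); omega
  unit a X := by have := h.unit a (insert e X); rw [insert_comm] at this; omega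
  sub X Y := by
    have := h.sub (insert e X) (insert e Y)
    rw [← insert_inter_distrib, ← insert_union_distrib] at this
    omega

lemma Rk.one {r : Finset α → ℤ} (h : Rk r) {e : α} {X : Finset α} (hx : r X < r (insert e X)) :
    r {e} = 1 := by
  have h1 := h.sub {e} X
  have h2 := h.mono ∅ ({e} ∩ X) (empty_subset _)
  have h3 := h.unit e ∅
  rw [← insert_eq] at h1
  rw [h.emp] at h2 h3
  have : (insert e ∅ : Finset α) = {e} := rfl
  rw [this] at h3
  omega

/-- Edmonds' matroid intersection theorem for rank functions -/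
theorem inter (S : Finset α) : ∀ (r1 r2 : Finset α → ℤ), Rk r1 → Rk r2 → ∀ k : ℕ,
    (∀ X ⊆ S, (k : ℤ) ≤ r1 X + r2 (S \ X)) → ∃ I ⊆ S, I.card = k ∧ r1 I = k ∧ r2 I = k := by
  induction S using Finset.induction_on with
  | empty =>
    intro r1 r2 h1 h2 k h
    have := h ∅ (Subset.refl _)
    simp only [sdiff_self, bot_eq_empty, h1.emp, h2.emp] at this
    have : k = 0 := by omega
    subst this
    exact ⟨∅, Subset.refl _, rfl, h1.emp, h2.emp⟩
  | insert e S he ih =>
    intro r1 r2 h1 h2 k h
    by_cases hA : ∀ X ⊆ S, (k : ℤ) ≤ r1 X + r2 (S \ X)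
    · obtain ⟨I, a, b⟩ := ih r1 r2 h1 h2 k hA
      exact ⟨I, a.trans (subset_insert _ _), b⟩
    push Not at hA
    obtain ⟨X, hX, hlt⟩ := hA
    have eX : e ∉ X := fun h => he (hX h)
    have a1 := h (insert e X) (insert_subset_insert e hX)
    have a2 := h X (hX.trans (subset_insert _ _))
    have s1 : insert e S \ insert e X = S \ X := by
      ext x; simp only [mem_sdiff, mem_insert]; grind
    rw [s1] at a1
    rw [insert_sdiff_of_notMem _ eX] at a2
    have e1 : r1 {e} = 1 := h1.one (X := X) (by omega)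
    have e2 : r2 {e} = 1 := h2.one (X := S \ X) (by omega)
    have p1 := h1.mono ∅ X (empty_subset _)
    have p2 := h2.mono ∅ (S \ X) (empty_subset _)
    rw [h1.emp] at p1
    rw [h2.emp] at p2
    obtain ⟨k, rfl⟩ : ∃ j, k = j + 1 := ⟨k - 1, by omega⟩
    obtain ⟨I, a, b, c, d⟩ := ih _ _ (h1.con e1) (h2.con e2) k (by
      intro Y hY
      have b1 := h1.sub X (insert e Y)
      have b2 := h2.sub (S \ X) (insert e (S \ Y))
      have b3 := h (X ∩ insert e Y) (inter_subset_left.trans (hX.trans (subset_insert _ _)))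
      have b4 := h (X ∪ insert e Y) (union_subset (hX.trans (subset_insert _ _))
        (insert_subset_insert e hY))
      have s2 : insert e S \ (X ∩ insert e Y) = S \ X ∪ insert e (S \ Y) := by
        ext x; simp only [mem_sdiff, mem_insert, mem_inter, mem_union]; grind
      have s3 : insert e S \ (X ∪ insert e Y) = S \ X ∩ insert e (S \ Y) := by
        ext x; simp only [mem_sdiff, mem_insert, mem_inter, mem_union]; grind
      rw [s2] at b3
      rw [s3] at b4
      push_cast at *
      omega)
    refine ⟨insert e I, insert_subset_insert e a, ?_, ?_, ?_⟩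
    · rw [card_insert_of_notMem fun h => he (a h), b]
    · push_cast; omega
    · push_cast; omega

noncomputable def rk (M : Matroid α) (X : Finset α) : ℕ := (M.eRk X).toNat

omit [DecidableEq α] in
lemma rk_coe (M : Matroid α) (X : Finset α) : (rk M X : ℕ∞) = M.eRk X :=
  ENat.natCast_toNat ((M.eRk_le_encard _).trans_lt X.finite_toSet.encard_lt_top).ne

lemma rk_Rk (M : Matroid α) : Rk fun X => (rk M X : ℤ) where
  emp := by simp [rk]
  mono X Y h := by
    have := M.eRk_mono (Finset.coe_subset.2 h)
    rw [← rk_coe, ← rk_coe] at this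
    exact_mod_cast this
  unit e X := by
    have := M.eRk_insert_le_add_one e X
    rw [← Finset.coe_insert, ← rk_coe, ← rk_coe] at this
    exact_mod_cast this
  sub X Y := by
    have := M.eRk_inter_add_eRk_union_le X Y
    rw [← Finset.coe_inter, ← Finset.coe_union, ← rk_coe, ← rk_coe, ← rk_coe, ← rk_coe] at this
    exact_mod_cast this

omit [DecidableEq α] in
lemma indep_of_rk (M : Matroid α) (I : Finset α) (h : rk M I = I.card) : M.Indep I := by
  rw [Matroid.indep_iff_eRk_eq_encard_of_finite I.finite_toSet, ← rk_coe, h,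
    Set.encard_coe_eq_coe_finsetCard]

omit [DecidableEq α] in
lemma ncard_le_rk (M : Matroid α) {I : Set α} (hI : M.Indep I) (X : Finset α) (h : I ⊆ X) :
    I.ncard ≤ rk M X := by
  have := hI.encard_le_eRk_of_subset h
  rw [← rk_coe, ← (X.finite_toSet.subset h).cast_ncard_eq] at this
  exact_mod_cast this

/-- Edmonds' matroid intersection theorem -/
theorem matroid_inter (M N : Matroid α) (S : Finset α) : ∃ A ⊆ S, ∃ I ⊆ S, M.Indep I ∧ N.Indep I ∧
    I.card = rk M A + rk N (S \ A) := by
  obtain ⟨A, hA, hmin⟩ := S.powerset.exists_min_image (fun A => rk M A + rk N (S \ A))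
    ⟨∅, by simp⟩
  obtain ⟨I, a, b, c, d⟩ := inter S _ _ (rk_Rk M) (rk_Rk N) (rk M A + rk N (S \ A)) fun X hX => by
    exact_mod_cast hmin X (mem_powerset.2 hX)
  exact ⟨A, mem_powerset.1 hA, I, a, indep_of_rk M I (by rw [b]; exact_mod_cast c),
    indep_of_rk N I (by rw [b]; exact_mod_cast d), b⟩

end Pool.Agent.Lib.helper7.MatInter
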