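import Mathlib

set_option autoImplicit false

/-! Reduced integral homology of order complexes. -/

namespace Pool.Agent.Lib.helper7.OrdHom

variable {X : Type} [PartialOrder X]

/-- integral chains of the order complex of `P` on `k`-element chains `c 0 < ... < c (k-1)` -/
def Chains (P : Set X) (k : ℕ) : Submodule ℤ ((Fin k → X) →₀ ℤ) :=
  Finsupp.supported ℤ ℤ {c | StrictMono c ∧ ∀ i, c i ∈ P}

/-- simplicial boundary: alternating sum of the chains with one element removed -/
noncomputable def bd (X : Type) (k : ℕ) : ((Fin (k + 1) → X) →₀ ℤ) →ₗ[ℤ] ((Fin k → X) →₀ ℤ) :=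
  Finsupp.linearCombination ℤ fun c =>
    ∑ j : Fin (k + 1), (-1 : ℤ) ^ (j : ℕ) • Finsupp.single (c ∘ j.succAbove) (1 : ℤ)

/-- `i`-cycles of the augmented chain complex -/
noncomputable def Cyc (P : Set X) (i : ℕ) : Submodule ℤ ((Fin (i + 1) → X) →₀ ℤ) :=
  Chains P (i + 1) ⊓ LinearMap.ker (bd X i)

/-- `i`-boundaries -/
noncomputable def Bdy (P : Set X) (i : ℕ) : Submodule ℤ ((Fin (i + 1) → X) →₀ ℤ) :=
  (Chains P (i + 2)).map (bd X (i + 1))

/-- reduced integral homology of the order complex of `P` in degree `i` -/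
abbrev Hom (P : Set X) (i : ℕ) : Type :=
  Cyc P i ⧸ (Bdy P i).submoduleOf (Cyc P i)

end Pool.Agent.Lib.helper7.OrdHom
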