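import Mathlib

namespace Pool.Agent.Lib.helper7.Paley

open Finset Matrix

variable {F : Type*} [Field F] [Fintype F] [DecidableEq F]

lemma sum_shift (hF : ringChar F ≠ 2) {a b : F} (h : a ≠ b) :
    ∑ x, quadraticChar F (x - a) * quadraticChar F (x - b) = -1 := by
  have hχ := quadraticChar_ne_one hF
  have hJ := jacobiSum_nontrivial_inv hχ
  rw [(quadraticChar_isQuadratic F).inv, jacobiSum] at hJ
  have hd : b - a ≠ 0 := sub_ne_zero.2 h.symm
  rw [← Equiv.sum_comp ((Equiv.mulLeft₀ (b - a) hd).trans (Equiv.addRight a))]
  have e : ∀ x : F, quadraticChar F ((b - a) * x + a - a) * quadraticChar F ((b - a) * x + a - b) =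
      quadraticChar F (-1) * (quadraticChar F x * quadraticChar F (1 - x)) := by
    intro x
    rw [show (b - a) * x + a - a = (b - a) * x by ring,
      show (b - a) * x + a - b = (b - a) * (-1 * (1 - x)) by ring, map_mul, map_mul, map_mul]
    have := quadraticChar_sq_one hd
    linear_combination (quadraticChar F (-1) * (quadraticChar F x * quadraticChar F (1 - x))) * this
  simp only [Equiv.trans_apply, Equiv.mulLeft₀_apply, Equiv.coe_addRight, e]
  rw [← Finset.mul_sum, hJ]
  have := quadraticChar_sq_one (F := F) (a := -1) (by simp)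
  linear_combination (-1) * this

/-- the normalised Paley matrix -/
def pal (F : Type*) [Field F] [Fintype F] [DecidableEq F] : Matrix (Option F) (Option F) ℤ
  | none, _ => 1
  | some _, none => 1
  | some a, some b => quadraticChar F (b - a) - if b = a then 1 else 0

theorem pal_had (h4 : Fintype.card F % 4 = 3) : (pal F).IsHadamard := by
  have hF : ringChar F ≠ 2 := by
    intro h
    have := FiniteField.even_card_of_char_two h
    omega
  have hm : quadraticChar F (-1) = -1 := by
    rw [quadraticChar_neg_one hF]
    exact ZMod.χ₄_nat_three_mod_four h4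
  have hs : ∀ a : F, ∑ b, quadraticChar F (b - a) = 0 := by
    intro a
    rw [← quadraticChar_sum_zero hF]
    exact Equiv.sum_comp (Equiv.subRight a) _
  have hpm : ∀ i j, pal F i j = 1 ∨ pal F i j = -1 := by
    intro i j
    match i, j with
    | none, _ => exact Or.inl rfl
    | some _, none => exact Or.inl rfl
    | some a, some b =>
      by_cases e : b = a
      · subst e; right; simp [pal]
      · simp only [pal, if_neg e, sub_zero]
        exact quadraticChar_dichotomy (sub_ne_zero.2 e)
  refine IsHadamard.of_mul_conjTranspose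
    (fun i j => Unitary.mem_iff_eq_one_or_eq_neg_one.2 (hpm i j)) ?_
    (IsRegular.of_ne_zero (by simp; omega))
  ext i j
  by_cases e : i = j
  · subst e
    have : ∀ k, pal F i k * pal F i k = 1 := fun k => by rcases hpm i k with h | h <;> simp [h]
    simp [Matrix.mul_apply, this]
  rw [Matrix.mul_apply, Matrix.smul_apply, Matrix.one_apply_ne e, smul_zero, Fintype.sum_option]
  simp only [conjTranspose_apply, star_trivial]
  match i, j, e with
  | none, none, e => exact absurd rfl e
  | none, some a, _ => simpa [pal, Finset.sum_sub_distrib] using hs a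
  | some a, none, _ => simpa [pal, Finset.sum_sub_distrib] using hs a
  | some a, some b, e =>
    have hab : a ≠ b := fun h => e (congrArg some h)
    have h1 : quadraticChar F (a - b) = -quadraticChar F (b - a) := by
      rw [show a - b = -1 * (b - a) by ring, map_mul, hm]; ring
    simp only [pal, mul_sub, sub_mul, Finset.sum_sub_distrib, sum_shift hF hab, mul_ite, ite_mul,
      mul_one, one_mul, mul_zero, zero_mul, Finset.sum_ite_eq', Finset.mem_univ, if_true]
    rw [h1]
    simp [hab.symm]

theorem exists_had {q v : ℕ} (hq : q.Prime) (h4 : q % 4 = 3) (hv : v = q + 1) :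
    ∃ H : Matrix (Fin v) (Fin v) ℤ, H.IsHadamard ∧
      ∀ i j : Fin v, i.val = 0 ∨ j.val = 0 → H i j = 1 := by
  subst hv
  have := Fact.mk hq
  let e : Fin (q + 1) ≃ Option (ZMod q) :=
    (finSuccEquiv q).trans (Equiv.optionCongr (ZMod.finEquiv q).toEquiv)
  have e0 : e 0 = none := by simp [e]
  refine ⟨(pal (ZMod q)).submatrix e e,
    (isHadamard_submatrix_equiv_iff e e).2 (pal_had (by simpa using h4)), ?_⟩
  rintro i j (h | h)
  · have : i = 0 := Fin.ext h
    subst this
    simp [e0, pal]
  · have : j = 0 := Fin.ext h
    subst this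
    rw [submatrix_apply, e0]
    cases e i <;> rfl

end Pool.Agent.Lib.helper7.Paley
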