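import Mathlib

set_option autoImplicit false

/-! Lopsided local lemma for random permutations (counting form). -/

namespace Pool.Agent.Lib.helper7.PermLLL

open Finset

variable {n k : ℕ}

abbrev Ev (n k : ℕ) := (Fin k → Fin n) × (Fin k → Fin n)

def occ (π : Equiv.Perm (Fin n)) (e : Ev n k) : Prop := ∀ i, π (e.1 i) = e.2 i

instance (π : Equiv.Perm (Fin n)) (e : Ev n k) : Decidable (occ π e) := by
  unfold occ; infer_instance

def supp (e : Ev n k) : Finset (Fin n ⊕ Fin n) :=
  univ.image (fun i => Sum.inl (e.1 i)) ∪ univ.image (fun i => Sum.inr (e.2 i))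

def Om (E : Finset (Ev n k)) (W : Finset (Fin n ⊕ Fin n)) : Finset (Equiv.Perm (Fin n)) :=
  univ.filter fun π => ∀ e ∈ E, supp e ⊆ W → ¬ occ π e

lemma supp_card (e : Ev n k) : (supp e).card ≤ 2 * k := by
  refine (card_union_le _ _).trans ?_
  have h1 := card_image_le (s := (univ : Finset (Fin k)))
    (f := fun i => (Sum.inl (e.1 i) : Fin n ⊕ Fin n))
  have h2 := card_image_le (s := (univ : Finset (Fin k)))
    (f := fun i => (Sum.inr (e.2 i) : Fin n ⊕ Fin n))
  simp only [card_univ, Fintype.card_fin] at h1 h2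
  omega

lemma exists_swap (v v' : Fin k → Fin n) (hv : Function.Injective v)
    (hv' : Function.Injective v') : ∃ σ : Equiv.Perm (Fin n), (∀ i, σ (v i) = v' i) ∧
      ∀ x, x ∉ Set.range v → σ x = x ∨ σ x ∈ Set.range v := by
  let Y := {y : Fin n // y ∉ Set.range v ∧ y ∉ Set.range v'}
  have inj : ∀ w : Fin k → Fin n, Function.Injective w → (∀ y : Y, y.1 ∉ Set.range w) →
      Function.Injective (Sum.elim w (fun y : Y => y.1)) := by
    intro w hw h
    rintro (a | a) (b | b) e
    · exact congrArg _ (hw e)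
    · exact absurd ⟨a, e⟩ (h b)
    · exact absurd ⟨b, e.symm⟩ (h a)
    · exact congrArg _ (Subtype.ext e)
  obtain ⟨σ, hσ⟩ := Equiv.Perm.exists_extending_pair _ _ (inj v hv fun y => y.2.1)
    (inj v' hv' fun y => y.2.2)
  refine ⟨σ, fun i => hσ (Sum.inl i), fun x hx => ?_⟩
  by_contra hc
  push Not at hc
  have h1 : σ x ∉ Set.range v' := by
    rintro ⟨i, hi⟩
    have : σ (v i) = v' i := hσ (Sum.inl i)
    exact hx ⟨i, σ.injective (this.trans hi)⟩
  have h2 : σ (σ x) = σ x := hσ (Sum.inr ⟨σ x, hc.2, h1⟩)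
  exact hc.1 (σ.injective h2)

lemma swap_bound (E : Finset (Ev n k)) (W : Finset (Fin n ⊕ Fin n)) (e : Ev n k)
    (h1 : Function.Injective e.1) (h2 : Function.Injective e.2) (hd : Disjoint W (supp e)) :
    n.descFactorial k * ((Om E W).filter (occ · e)).card ≤ (Om E W).card := by
  have key : ∀ v' : Fin k ↪ Fin n, ((Om E W).filter (occ · e)).card ≤
      ((Om E W).filter fun π : Equiv.Perm (Fin n) =>
        (⟨π ∘ e.1, π.injective.comp h1⟩ : Fin k ↪ Fin n) = v').card := by
    intro v'
    obtain ⟨σ, s1, s2⟩ := exists_swap e.2 v' h2 v'.injective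
    apply card_le_card_of_injOn (fun π => σ * π)
    · intro π hπ
      simp only [coe_filter, Set.mem_ofPred_eq, Om, mem_filter, mem_univ, true_and] at hπ ⊢
      refine ⟨fun N hN hs ho => hπ.1 N hN hs fun l => ?_, ?_⟩
      · have a1 : (Sum.inl (N.1 l) : Fin n ⊕ Fin n) ∉ supp e :=
          disjoint_left.1 hd (hs (by simp [supp]))
        have a2 : (Sum.inr (N.2 l) : Fin n ⊕ Fin n) ∉ supp e :=
          disjoint_left.1 hd (hs (by simp [supp]))
        have a3 : σ (π (N.1 l)) = N.2 l := ho l
        rcases s2 (π (N.1 l)) (by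
          rintro ⟨i, hi⟩
          apply a1
          have : e.1 i = N.1 l := π.injective ((hπ.2 i).trans hi)
          simp only [supp, mem_union, mem_image, mem_univ, true_and]
          exact Or.inl ⟨i, by rw [this]⟩) with h | ⟨i, hi⟩
        · rw [← h, a3]
        · exfalso; apply a2
          simp only [supp, mem_union, mem_image, mem_univ, true_and]
          exact Or.inr ⟨i, by rw [hi, a3]⟩
      · ext i
        simp only [Function.Embedding.coeFn_mk, Function.comp, Equiv.Perm.mul_apply]
        rw [hπ.2 i, s1]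
    · intro a _ b _ h
      exact mul_left_cancel h
  have := card_eq_sum_card_fiberwise (s := Om E W) (t := (univ : Finset (Fin k ↪ Fin n)))
    (f := fun π : Equiv.Perm (Fin n) => (⟨π ∘ e.1, π.injective.comp h1⟩ : Fin k ↪ Fin n))
    (fun _ _ => by simp)
  rw [this]
  refine le_trans (le_of_eq ?_) (sum_le_sum fun v' _ => key v')
  simp

lemma chain (E : Finset (Ev n k)) (m : ℕ)
    (H : ∀ W : Finset (Fin n ⊕ Fin n), W.card < m → ∀ z,
      (Om E W).card ≤ 2 * (Om E (insert z W)).card) (W A : Finset (Fin n ⊕ Fin n))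
    (hd : Disjoint W A) (h : W.card + A.card ≤ m) :
    (Om E W).card ≤ 2 ^ A.card * (Om E (W ∪ A)).card := by
  induction A using Finset.induction_on with
  | empty => simp
  | insert z A hz ih =>
    rw [card_insert_of_notMem hz] at h ⊢
    have hd' : Disjoint W A := hd.mono_right (subset_insert _ _)
    have h1 := ih hd' (by omega)
    have h2 := H (W ∪ A) (by rw [card_union_of_disjoint hd']; omega) z
    rw [union_insert, pow_succ, mul_assoc]
    exact h1.trans (Nat.mul_le_mul_left _ h2)

lemma step (E : Finset (Ev n k)) (D : ℕ)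
    (hE : ∀ e ∈ E, Function.Injective e.1 ∧ Function.Injective e.2)
    (hD : ∀ z, (E.filter fun e => z ∈ supp e).card ≤ D)
    (hpos : 0 < n.descFactorial k) (hb : 2 * (D * 2 ^ (2 * k)) ≤ n.descFactorial k) :
    ∀ (m : ℕ) (W : Finset (Fin n ⊕ Fin n)), W.card < m → ∀ z,
      (Om E W).card ≤ 2 * (Om E (insert z W)).card := by
  intro m
  induction m with
  | zero => intro W h; omega
  | succ m ih =>
    intro W hW z
    have sub : Om E W ⊆ Om E (insert z W) ∪ (E.filter fun e => z ∈ supp e).biUnion
        fun e => (Om E (W \ supp e)).filter (occ · e) := by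
      intro π hπ
      by_cases h : π ∈ Om E (insert z W)
      · exact mem_union_left _ h
      apply mem_union_right
      simp only [Om, mem_filter, mem_univ, true_and, mem_biUnion] at hπ h ⊢
      push Not at h
      obtain ⟨e, he, hs, ho⟩ := h
      refine ⟨e, ⟨he, ?_⟩, fun N hN hsN => hπ N hN (hsN.trans sdiff_subset), ho⟩
      by_contra hz
      exact hπ e he ((subset_insert_iff_of_notMem hz).1 hs) ho
    have each : ∀ e ∈ E.filter fun e => z ∈ supp e, n.descFactorial k *
        ((Om E (W \ supp e)).filter (occ · e)).card ≤ 2 ^ (2 * k) * (Om E W).card := by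
      intro e he
      have he' := (mem_filter.1 he).1
      have h1 := swap_bound E (W \ supp e) e (hE e he').1 (hE e he').2 sdiff_disjoint
      have h2 := chain E m ih (W \ supp e) (W ∩ supp e) (disjoint_sdiff_inter _ _)
        (by rw [card_sdiff_add_card_inter]; omega)
      rw [sdiff_union_inter] at h2
      refine h1.trans (h2.trans (Nat.mul_le_mul_right _ (Nat.pow_le_pow_right (by norm_num) ?_)))
      exact (card_le_card inter_subset_right).trans (supp_card e)
    have h1 := (card_le_card sub).trans (card_union_le _ _)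
    have h2 := card_biUnion_le (s := E.filter fun e => z ∈ supp e)
      (t := fun e => (Om E (W \ supp e)).filter (occ · e))
    have h3 := sum_le_card_nsmul _ _ _ each
    rw [← mul_sum, smul_eq_mul] at h3
    have h4 := Nat.mul_le_mul_right (2 ^ (2 * k) * (Om E W).card) (hD z)
    have h5 := Nat.mul_le_mul_right (Om E W).card hb
    have h6 : n.descFactorial k * (2 * ∑ e ∈ E.filter fun e => z ∈ supp e,
        ((Om E (W \ supp e)).filter (occ · e)).card) ≤ n.descFactorial k * (Om E W).card := by
      nlinarith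
    have h7 := Nat.le_of_mul_le_mul_left h6 hpos
    omega

/-- If every position and every value is used by at most `D` forbidden patterns of size `k`,
and `2 D 4^k ≤ n (n-1) ... (n-k+1)`, some permutation avoids all patterns. -/
theorem perm_lll (E : Finset (Ev n k)) (D : ℕ) (hk : 0 < k) (hkn : k ≤ n)
    (hE : ∀ e ∈ E, Function.Injective e.1 ∧ Function.Injective e.2)
    (hD : ∀ z, (E.filter fun e => z ∈ supp e).card ≤ D)
    (hb : 2 * (D * 2 ^ (2 * k)) ≤ n.descFactorial k) :
    ∃ π : Equiv.Perm (Fin n), ∀ e ∈ E, ¬ occ π e := by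
  have h := chain E _ (step E D hE hD (Nat.descFactorial_pos.2 hkn) hb _) ∅ univ
    (disjoint_empty_left _) le_rfl
  have h0 : 0 < (Om E ∅).card := by
    refine card_pos.2 ⟨1, ?_⟩
    simp only [Om, mem_filter, mem_univ, true_and]
    intro e _ hs
    have : (Sum.inl (e.1 ⟨0, hk⟩) : Fin n ⊕ Fin n) ∈ supp e := by simp [supp]
    exact absurd (hs this) (notMem_empty _)
  have h1 : 0 < (Om E (∅ ∪ univ)).card := by
    by_contra hc
    have : (Om E (∅ ∪ univ)).card = 0 := by omega
    rw [this] at h; omega
  obtain ⟨π, hπ⟩ := card_pos.1 h1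
  exact ⟨π, fun e he => (mem_filter.1 hπ).2 e he (by simp)⟩

end Pool.Agent.Lib.helper7.PermLLL
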