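import Mathlib

namespace Pool.Agent.Lib.helper7.SignDet

open Matrix Finset

variable {V : Type*} [Fintype V] [DecidableEq V]

lemma schur {N : Matrix V V ℝ} (hN : N.PosDef) (v : V) (hv : N *ᵥ Pi.single v 1 = Pi.single v 1)
    (b : V → ℝ) (hb : b v = 0) (μ : ℝ) (M : Matrix V V ℝ)
    (hM : M = N + (μ - 1) • vecMulVec (Pi.single v 1) (Pi.single v 1) -
      vecMulVec b (Pi.single v 1) - vecMulVec (Pi.single v 1) b) :
    M.det = (μ - b ⬝ᵥ (N⁻¹ *ᵥ b)) * N.det ∧ (0 < μ - b ⬝ᵥ (N⁻¹ *ᵥ b) → M.PosDef) ∧
      (M.PosDef → M⁻¹ v v * (μ - b ⬝ᵥ (N⁻¹ *ᵥ b)) = 1) := by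
  set e : V → ℝ := Pi.single v 1 with he
  set y := N⁻¹ *ᵥ b with hy
  set σ := μ - b ⬝ᵥ y with hσ
  have hu : IsUnit N.det := (isUnit_iff_isUnit_det N).1 hN.isUnit
  have hsym : Nᵀ = N := by simpa using hN.isHermitian.eq
  have hNy : N *ᵥ y = b := by rw [hy, mulVec_mulVec, mul_nonsing_inv _ hu, one_mulVec]
  have heN : e ᵥ* N = e := by rw [← mulVec_transpose, hsym, hv]
  have hyN : y ᵥ* N = b := by rw [← mulVec_transpose, hsym, hNy]
  have ee : e ⬝ᵥ e = 1 := by simp [he]
  have eb : e ⬝ᵥ b = 0 := by simp [he, hb]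
  have ey : e ⬝ᵥ y = 0 := by rw [← heN, ← dotProduct_mulVec, hNy, eb]
  let N' : Matrix V V ℝ := N + (σ - 1) • vecMulVec e e
  let E : Matrix V V ℝ := 1 - vecMulVec y e
  have hE : E.det = 1 := by
    have : E = 1 + replicateCol Unit (-y) * replicateRow Unit e := by
      simp only [E, ← vecMulVec_eq, neg_vecMulVec, sub_eq_add_neg]
    rw [this, det_one_add_replicateCol_mul_replicateRow, dotProduct_neg, ey]; simp
  have hN' : N' = N * (1 + replicateCol Unit ((σ - 1) • e) * replicateRow Unit e) := by
    rw [← vecMulVec_eq, mul_add, mul_one, mul_vecMulVec, mulVec_smul, hv, smul_vecMulVec]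
  have hfac : M = Eᵀ * N' * E := by
    have h1 : N' * E = N' - vecMulVec b e := by
      simp only [E, N', mul_sub, mul_one, mul_vecMulVec, add_mulVec, hNy, smul_mulVec,
        vecMulVec_mulVec, ey]
      simp
    have h2 : e ᵥ* (1 : Matrix V V ℝ) = e := vecMul_one e
    rw [mul_assoc, h1, hM]
    simp only [E, N', transpose_sub, transpose_one, transpose_vecMulVec, sub_mul, one_mul,
      vecMulVec_mul, vecMul_sub, vecMul_add, hyN, vecMul_smul, vecMul_vecMulVec,
      dotProduct_comm y e, ey, dotProduct_comm y b]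
    ext i j
    simp only [Matrix.sub_apply, Matrix.add_apply, Matrix.smul_apply, vecMulVec_apply, smul_eq_mul, Pi.sub_apply,
      Pi.add_apply, Pi.smul_apply, hσ]
    ring
  refine ⟨?_, fun h => ?_, fun h => ?_⟩
  · rw [hfac, det_mul, det_mul, det_transpose, hE, hN', det_mul,
      det_one_add_replicateCol_mul_replicateRow, dotProduct_smul, ee]
    simp only [smul_eq_mul]; ring
  · have hpd : N'.PosDef := by
      refine PosDef.of_dotProduct_mulVec_pos ?_ fun x hx => ?_
      · refine hN.isHermitian.add ?_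
        ext i j
        simp [vecMulVec_apply, mul_comm]
      · have hz : x = (x - x v • e) + x v • e := by simp
        have h0 : 0 ≤ (x - x v • e) ⬝ᵥ (N *ᵥ (x - x v • e)) := by
          simpa using hN.posSemidef.dotProduct_mulVec_nonneg (x - x v • e)
        have xe : x ⬝ᵥ e = x v := by simp [he]
        have ex : e ⬝ᵥ x = x v := by simp [he]
        have eNx : e ⬝ᵥ (N *ᵥ x) = x v := by rw [dotProduct_mulVec, heN, ex]
        have h1 : (x - x v • e) ⬝ᵥ (N *ᵥ (x - x v • e)) = x ⬝ᵥ (N *ᵥ x) - x v ^ 2 := by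
          simp only [mulVec_sub, mulVec_smul, hv, sub_dotProduct, dotProduct_sub, smul_dotProduct,
            dotProduct_smul, xe, ee, eNx, smul_eq_mul]
          ring
        have h2 : star x ⬝ᵥ (N' *ᵥ x) = x ⬝ᵥ (N *ᵥ x) + (σ - 1) * x v ^ 2 := by
          simp only [N', star_trivial, add_mulVec, smul_mulVec, vecMulVec_mulVec, dotProduct_add,
            dotProduct_smul, ex, smul_eq_mul, op_smul_eq_smul, xe]
          ring
        rw [h2]
        by_cases hxv : x v = 0
        · have := hN.dotProduct_mulVec_pos hx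
          simpa [hxv] using this
        · have : 0 < σ * x v ^ 2 := by positivity
          nlinarith
    have hEu : IsUnit E := (isUnit_iff_isUnit_det E).2 (by simp [hE])
    have := hpd.conjTranspose_mul_mul_same (B := E) (mulVec_injective_of_isUnit hEu)
    rw [hfac]
    simpa using this
  · have hMu : IsUnit M.det := (isUnit_iff_isUnit_det M).1 h.isUnit
    have h1 : M *ᵥ (e + y) = σ • e := by
      rw [hM]
      simp only [sub_mulVec, add_mulVec, smul_mulVec, mulVec_add, vecMulVec_mulVec, hv, hNy, ee,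
        ey, dotProduct_comm b e, eb, op_smul_eq_smul]
      ext i
      simp only [Pi.sub_apply, Pi.add_apply, Pi.smul_apply, smul_eq_mul, hσ]
      ring
    have h2 := congrArg (fun t => (M⁻¹ *ᵥ t) v) h1
    simp only [mulVec_mulVec, nonsing_inv_mul _ hMu, one_mulVec, mulVec_smul, Pi.smul_apply,
      Pi.add_apply, smul_eq_mul] at h2
    have h3 : y v = 0 := by simpa [he] using ey
    have h4 : (M⁻¹ *ᵥ e) v = M⁻¹ v v := by simp [he]
    rw [h3, h4] at h2
    rw [mul_comm, ← h2]; simp [he]

omit [Fintype V] in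
lemma signs (P : V → V → ℝ) (S : Finset V) : ∃ ε : V → Bool,
    ∑ u ∈ S, ∑ w ∈ S, (if ε u then (1 : ℝ) else -1) * P u w * (if ε w then 1 else -1) ≤
      ∑ u ∈ S, P u u := by
  induction S using Finset.induction_on with
  | empty => exact ⟨fun _ => true, by simp⟩
  | insert a S ha ih =>
    obtain ⟨ε, h⟩ := ih
    have key : ∀ c : Bool, ∑ u ∈ insert a S, ∑ w ∈ insert a S,
        (if Function.update ε a c u then (1 : ℝ) else -1) * P u w *
          (if Function.update ε a c w then 1 else -1) = P a a +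
        (if c then (1 : ℝ) else -1) * ∑ w ∈ S, (P a w + P w a) * (if ε w then (1 : ℝ) else -1) +
        ∑ u ∈ S, ∑ w ∈ S, (if ε u then (1 : ℝ) else -1) * P u w * (if ε w then 1 else -1) := by
      intro c
      have e1 : ∀ w ∈ S, Function.update ε a c w = ε w := fun w hw =>
        Function.update_of_ne (by rintro rfl; exact ha hw) _ _
      have A : ∑ w ∈ S, (if c then (1 : ℝ) else -1) * P a w *
          (if Function.update ε a c w then 1 else -1) = ∑ w ∈ S,
          (if c then (1 : ℝ) else -1) * P a w * (if ε w then 1 else -1) :=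
        sum_congr rfl fun w hw => by rw [e1 w hw]
      have B : ∑ u ∈ S, ∑ w ∈ insert a S, (if Function.update ε a c u then (1 : ℝ) else -1) *
          P u w * (if Function.update ε a c w then 1 else -1) = ∑ u ∈ S,
          ((if ε u then (1 : ℝ) else -1) * P u a * (if c then 1 else -1) +
            ∑ w ∈ S, (if ε u then (1 : ℝ) else -1) * P u w * (if ε w then 1 else -1)) :=
        sum_congr rfl fun u hu => by
          rw [sum_insert ha, e1 u hu, Function.update_self,
            sum_congr rfl fun w hw => by rw [e1 w hw]]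
      rw [sum_insert ha, sum_insert ha, B, Function.update_self, A, sum_add_distrib,
        Finset.mul_sum, ← add_assoc]
      congr 1
      rw [add_assoc, ← sum_add_distrib]
      congr 1
      · cases c <;> simp
      · exact sum_congr rfl fun w _ => by ring
    by_cases ht : ∑ w ∈ S, (P a w + P w a) * (if ε w then (1 : ℝ) else -1) ≤ 0
    · refine ⟨Function.update ε a true, ?_⟩
      rw [key, sum_insert ha]
      simp only [if_true]; linarith
    · refine ⟨Function.update ε a false, ?_⟩
      rw [key, sum_insert ha]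
      simp only [Bool.false_eq_true, if_false]; linarith

variable (G : SimpleGraph V) [DecidableRel G.Adj] (m : V → ℝ)

def sg (s : Sym2 V → Bool) (x y : V) : ℝ := if s s(x, y) then 1 else -1

def mat (H : Finset V) (s : Sym2 V → Bool) : Matrix V V ℝ := fun x y =>
  if x = y then (if x ∈ H then m x else 1) else
    if x ∈ H ∧ y ∈ H ∧ G.Adj x y then -sg s x y else 0

lemma mat_insert (H : Finset V) (s : Sym2 V → Bool) (v : V) (hv : v ∉ H) :
    mat G m H s *ᵥ Pi.single v 1 = Pi.single v 1 ∧
    mat G m (insert v H) s = mat G m H s + (m v - 1) • vecMulVec (Pi.single v 1) (Pi.single v 1) -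
      vecMulVec (fun u => if u ∈ H ∧ G.Adj v u then sg s v u else 0) (Pi.single v 1) -
      vecMulVec (Pi.single v 1) (fun u => if u ∈ H ∧ G.Adj v u then sg s v u else 0) := by
  constructor
  · ext x
    by_cases e : x = v
    · subst e; simp [mat, hv]
    · simp [mat, hv, e]
  · ext x y
    simp only [Matrix.sub_apply, Matrix.add_apply, Matrix.smul_apply, vecMulVec_apply, smul_eq_mul, mat, mem_insert]
    by_cases e1 : x = v <;> by_cases e2 : y = v
    · subst e1 e2; simp [hv]
    · subst e1
      simp [hv, e2, Ne.symm e2]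
      split_ifs <;> simp
    · subst e2
      simp [hv, e1, G.adj_comm x y, sg, Sym2.eq_swap (a := x)]
      split_ifs <;> simp
    · simp [e1, e2]

lemma mat_restrict (H : Finset V) (s : Sym2 V → Bool) (v : V) (hv : v ∉ H)
    (h : (mat G m (insert v H) s).PosDef) : (mat G m H s).PosDef := by
  obtain ⟨h1, h2⟩ := mat_insert G m H s v hv
  have hs : (mat G m H s).IsHermitian := by
    ext x y
    simp only [conjTranspose_apply, star_trivial, mat, eq_comm (a := y), sg, G.adj_comm y x,
      Sym2.eq_swap (a := y)]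
    by_cases e : x = y
    · simp [e]
    · simp [e, and_left_comm]
  refine PosDef.of_dotProduct_mulVec_pos hs fun x hx => ?_
  set e : V → ℝ := Pi.single v 1 with he
  set N := mat G m H s
  have heN : e ᵥ* N = e := by
    rw [← mulVec_transpose, show Nᵀ = N by simpa using hs.eq, h1]
  have ze : e ⬝ᵥ (x - x v • e) = 0 := by simp [he]
  have k1 : (x - x v • e) ⬝ᵥ (mat G m (insert v H) s *ᵥ (x - x v • e)) =
      (x - x v • e) ⬝ᵥ (N *ᵥ (x - x v • e)) := by
    rw [h2]
    simp only [sub_mulVec, add_mulVec, smul_mulVec, vecMulVec_mulVec, ze, dotProduct_sub,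
      dotProduct_add, dotProduct_smul, op_smul_eq_smul, dotProduct_comm _ e]
    simp
  have k2 : (x - x v • e) ⬝ᵥ (N *ᵥ (x - x v • e)) = x ⬝ᵥ (N *ᵥ x) - x v ^ 2 := by
    have xe : x ⬝ᵥ e = x v := by simp [he]
    have ex : e ⬝ᵥ x = x v := by simp [he]
    have ee : e ⬝ᵥ e = 1 := by simp [he]
    have eNx : e ⬝ᵥ (N *ᵥ x) = x v := by rw [dotProduct_mulVec, heN, ex]
    simp only [mulVec_sub, mulVec_smul, h1, sub_dotProduct, dotProduct_sub, smul_dotProduct,
      dotProduct_smul, xe, ee, eNx, smul_eq_mul]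
    ring
  rw [star_trivial]
  by_cases hz : x - x v • e = 0
  · have hxv : x v ≠ 0 := by
      intro h0; apply hx; simpa [h0] using hz
    rw [hz] at k2
    simp only [zero_dotProduct] at k2
    have : 0 < x v ^ 2 := by positivity
    linarith
  · have := h.dotProduct_mulVec_pos hz
    rw [star_trivial, k1, k2] at this
    nlinarith [sq_nonneg (x v)]

open Classical in
noncomputable def F (H : Finset V) : ℝ :=
  univ.sup' univ_nonempty fun s : Sym2 V → Bool =>
    if (mat G m H s).PosDef then (mat G m H s).det else 0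

open Classical in
lemma le_F {H : Finset V} {s : Sym2 V → Bool} (h : (mat G m H s).PosDef) :
    (mat G m H s).det ≤ F G m H := by
  unfold F
  refine le_trans ?_ (le_sup' _ (mem_univ s))
  rw [if_pos h]

open Classical in
lemma F_att {H : Finset V} (h : 0 < F G m H) :
    ∃ s, (mat G m H s).PosDef ∧ (mat G m H s).det = F G m H := by
  have : ∃ s, F G m H = if (mat G m H s).PosDef then (mat G m H s).det else 0 := by
    unfold F
    exact (exists_mem_eq_sup' univ_nonempty _).imp fun s hs => hs.2
  obtain ⟨s, hs'⟩ := this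
  split_ifs at hs' with hp
  · exact ⟨s, hp, hs'.symm⟩
  · linarith

lemma step (H : Finset V) (v : V) (hv : v ∉ H) (hF : 0 < F G m H) (ρ : V → ℝ)
    (hρ : ∀ u ∈ H, G.Adj v u → 0 < ρ u ∧ ρ u * F G m (H.erase u) ≤ F G m H) (τ : ℝ) (hτ : 0 < τ)
    (hτ' : τ + ∑ u ∈ H.filter (G.Adj v), 1 / ρ u ≤ m v) : τ * F G m H ≤ F G m (insert v H) := by
  obtain ⟨s, hs, hd⟩ := F_att G m hF
  obtain ⟨ε, hε⟩ := signs (fun u w => ((mat G m H s)⁻¹ : Matrix V V ℝ) u w) (H.filter (G.Adj v))
  let s' : Sym2 V → Bool := fun e => if h : v ∈ e then ε (Sym2.Mem.other' h) else s e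
  have e1 : mat G m H s' = mat G m H s := by
    ext x y
    simp only [mat]
    split_ifs with h1 h2 h3
    · rfl
    · rfl
    · have : v ∉ s(x, y) := by
        simp only [Sym2.mem_iff, not_or]
        exact ⟨by rintro rfl; exact hv h3.1, by rintro rfl; exact hv h3.2.1⟩
      simp only [sg, s', dif_neg this]
    · rfl
  have e2 : ∀ u, sg s' v u = if ε u then 1 else -1 := by
    intro u
    have h : v ∈ s(v, u) := Sym2.mem_mk_left v u
    have : Sym2.Mem.other' h = u := Sym2.congr_right.1 (Sym2.other_spec' h)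
    simp only [sg, s', dif_pos h, this]
  obtain ⟨h1, h2⟩ := mat_insert G m H s' v hv
  rw [e1] at h1 h2
  obtain ⟨k1, k2, -⟩ := schur hs v h1 _ (by simp) (m v) _ h2
  have diag : ∀ u ∈ H.filter (G.Adj v), (mat G m H s)⁻¹ u u ≤ 1 / ρ u := by
    intro u hu
    obtain ⟨hu1, hu2⟩ := mem_filter.1 hu
    obtain ⟨r1, r2⟩ := hρ u hu1 hu2
    have hi : insert u (H.erase u) = H := insert_erase hu1
    have hs' := mat_restrict G m (H.erase u) s u (notMem_erase u H) (by rw [hi]; exact hs)
    obtain ⟨a1, a2⟩ := mat_insert G m (H.erase u) s u (notMem_erase u H)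
    rw [hi] at a2
    obtain ⟨b1, -, b3⟩ := schur hs' u a1 _ (by simp) (m u) _ a2
    have b4 := b3 hs
    have b5 := le_F G m hs'
    have b6 := hs'.det_pos
    rw [hd] at b1
    generalize m u - _ = σ at b1 b4
    have hσ : 0 < σ := by
      by_contra hn
      have := mul_nonpos_of_nonpos_of_nonneg (not_lt.1 hn) b6.le
      linarith
    have : ρ u ≤ σ := by
      by_contra hn
      have := mul_lt_mul_of_pos_right (not_le.1 hn) b6
      nlinarith
    rw [eq_div_of_mul_eq hσ.ne' b4]
    exact one_div_le_one_div_of_le r1 this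
  have quad : (fun u => if u ∈ H ∧ G.Adj v u then sg s' v u else 0) ⬝ᵥ ((mat G m H s)⁻¹ *ᵥ
      fun u => if u ∈ H ∧ G.Adj v u then sg s' v u else 0) ≤ ∑ u ∈ H.filter (G.Adj v), 1 / ρ u := by
    refine le_trans (le_of_eq ?_) (hε.trans (sum_le_sum diag))
    have hf : H.filter (G.Adj v) = univ.filter fun u => u ∈ H ∧ G.Adj v u := by ext; simp
    simp only [hf, sum_filter, dotProduct, mulVec, e2, Finset.mul_sum]
    refine sum_congr rfl fun u _ => ?_
    split_ifs with h <;> first | (refine sum_congr rfl fun w _ => ?_; split_ifs <;> ring) | simp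
  have hp := k2 (by linarith)
  refine le_trans ?_ (le_F G m hp)
  rw [k1, hd]
  exact mul_le_mul_of_nonneg_right (by linarith) hF.le

/-- a positive supersolution of the tree recursion gives a positive definite signing -/
theorem exists_signing (o : V) (ρ : V → V → ℝ) (hρ : ∀ v u, G.Adj v u → 0 < ρ v u)
    (h1 : ∀ v u, G.Adj v u → u ≠ o →
      ρ v u + ∑ w ∈ ((G.neighborFinset u).erase v).erase o, 1 / ρ u w ≤ m u)
    (h2 : ∀ u, ∑ w ∈ (G.neighborFinset u).erase o, 1 / ρ u w < m u) :
    ∃ s, (mat G m univ s).PosDef := by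
  have sub : ∀ (u : V) (A B : Finset V), (∀ w ∈ B, G.Adj u w) → A ⊆ B →
      ∑ w ∈ A, 1 / ρ u w ≤ ∑ w ∈ B, 1 / ρ u w := fun u A B hB hAB =>
    sum_le_sum_of_subset_of_nonneg hAB fun w hw _ => (one_div_pos.2 (hρ u w (hB w hw))).le
  have grow : ∀ (H : Finset V) (u : V), u ∉ H → o ∉ H → 0 < F G m H →
      (∀ w ∈ H, ∀ v, v ∉ H → G.Adj v w → ρ v w * F G m (H.erase w) ≤ F G m H) →
      0 < F G m (insert u H) := by
    intro H u hu ho hF ih
    have a := sub u (H.filter (G.Adj u)) ((G.neighborFinset u).erase o)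
      (fun w hw => by simpa using (mem_erase.1 hw).2) fun w hw => by
        obtain ⟨b1, b2⟩ := mem_filter.1 hw
        exact mem_erase.2 ⟨by rintro rfl; exact ho b1, by simpa using b2⟩
    have b := h2 u
    have := step G m H u hu hF (ρ u) (fun w hw ha => ⟨hρ _ _ ha, ih w hw u hu ha⟩)
      (m u - ∑ w ∈ H.filter (G.Adj u), 1 / ρ u w) (by linarith) (by linarith)
    exact lt_of_lt_of_le (mul_pos (by linarith) hF) this
  have main : ∀ n (H : Finset V), H.card = n → o ∉ H → 0 < F G m H ∧
      ∀ w ∈ H, ∀ v, v ∉ H → G.Adj v w → ρ v w * F G m (H.erase w) ≤ F G m H := by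
    intro n
    induction n with
    | zero =>
      intro H hH _
      rw [card_eq_zero] at hH
      subst hH
      have : mat G m ∅ (fun _ => true) = 1 := by
        ext x y; simp [mat, one_apply]
      refine ⟨lt_of_lt_of_le ?_ (le_F G m (s := fun _ => true) (by rw [this]; exact PosDef.one)),
        by simp⟩
      rw [this]; simp
    | succ n ih =>
      intro H hH ho
      have ih' : ∀ u ∈ H, _ := fun u hu => ih (H.erase u) (by rw [card_erase_of_mem hu]; omega)
        fun h => ho (mem_of_mem_erase h)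
      constructor
      · obtain ⟨u, hu⟩ := card_pos.1 (by omega : 0 < H.card)
        have := grow (H.erase u) u (notMem_erase u H) (fun h => ho (mem_of_mem_erase h))
          (ih' u hu).1 (ih' u hu).2
        rwa [insert_erase hu] at this
      · intro u hu v hv ha
        have a := sub u ((H.erase u).filter (G.Adj u)) (((G.neighborFinset u).erase v).erase o)
          (fun w hw => by simpa using (mem_erase.1 (mem_erase.1 hw).2).2) fun w hw => by
            obtain ⟨b1, b2⟩ := mem_filter.1 hw
            have b3 := mem_of_mem_erase b1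
            exact mem_erase.2 ⟨by rintro rfl; exact ho b3,
              mem_erase.2 ⟨by rintro rfl; exact hv b3, by simpa using b2⟩⟩
        have b := h1 v u ha (by rintro rfl; exact ho hu)
        have := step G m (H.erase u) u (notMem_erase u H) (ih' u hu).1 (ρ u)
          (fun w hw ha => ⟨hρ _ _ ha, (ih' u hu).2 w hw u (notMem_erase u H) ha⟩)
          (ρ v u) (hρ v u ha) (by linarith)
        rwa [insert_erase hu] at this
  obtain ⟨a, b⟩ := main _ (univ.erase o) rfl (notMem_erase o _)
  have := grow _ o (notMem_erase o _) (notMem_erase o _) a b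
  rw [insert_erase (mem_univ o)] at this
  obtain ⟨s, hs, -⟩ := F_att G m this
  exact ⟨s, hs⟩

end Pool.Agent.Lib.helper7.SignDet
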