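import Mathlib

set_option autoImplicit false

/-! Straight-line embeddings of finite graphs in the flat torus, checked by computation. -/

namespace Pool.Agent.Lib.helper7.Torus

/-- the functional `l` separates the open segment from 0 to `D` from the open segment from
`w` to `w + E`. -/
def sep1 (l D w E : ℤ × ℤ) : Bool :=
  let A := l.1 * D.1 + l.2 * D.2
  let B := l.1 * w.1 + l.2 * w.2
  let C := l.1 * (w.1 + E.1) + l.2 * (w.2 + E.2)
  decide (0 ≤ B) && decide (A ≤ B) && decide (0 ≤ C) && decide (A ≤ C) &&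
    !(decide (A = 0) && decide (B = 0) && decide (C = 0))

def sep (D w E : ℤ × ℤ) : Bool :=
  sep1 (D.2, -D.1) D w E || sep1 (-D.2, D.1) D w E || sep1 (E.2, -E.1) D w E ||
    sep1 (-E.2, E.1) D w E || sep1 D D w E || sep1 (-D.1, -D.2) D w E

lemma sep1_sound {l D w E : ℤ × ℤ} (h : sep1 l D w E = true) {s t : ℝ} (s0 : 0 < s) (s1 : s < 1)
    (t0 : 0 < t) (t1 : t < 1) (e1 : s * D.1 = w.1 + t * E.1) (e2 : s * D.2 = w.2 + t * E.2) :
    False := by
  unfold sep1 at h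
  simp only [Bool.and_eq_true, decide_eq_true_eq, Bool.not_eq_true', Bool.and_eq_false_iff,
    decide_eq_false_iff_not] at h
  obtain ⟨⟨⟨⟨h1, h2⟩, h3⟩, h4⟩, h5⟩ := h
  have key : s * ((l.1 * D.1 + l.2 * D.2 : ℤ) : ℝ) =
      (1 - t) * ((l.1 * w.1 + l.2 * w.2 : ℤ) : ℝ) +
        t * ((l.1 * (w.1 + E.1) + l.2 * (w.2 + E.2) : ℤ) : ℝ) := by
    push_cast
    linear_combination (l.1 : ℝ) * e1 + (l.2 : ℝ) * e2
  generalize l.1 * D.1 + l.2 * D.2 = A at *
  generalize l.1 * w.1 + l.2 * w.2 = B at *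
  generalize l.1 * (w.1 + E.1) + l.2 * (w.2 + E.2) = C at *
  have g1 : (0 : ℝ) ≤ B := by exact_mod_cast h1
  have g2 : (A : ℝ) ≤ B := by exact_mod_cast h2
  have g3 : (0 : ℝ) ≤ C := by exact_mod_cast h3
  have g4 : (A : ℝ) ≤ C := by exact_mod_cast h4
  have t2 : 0 < 1 - t := by linarith
  have p1 : 0 ≤ (1 - t) * B := by positivity
  have p2 : 0 ≤ t * C := by positivity
  rcases lt_trichotomy (A : ℝ) 0 with hA | hA | hA
  · nlinarith
  · have hA' : A = 0 := by exact_mod_cast hA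
    rw [hA, mul_zero] at key
    have q1 : (1 - t) * B = 0 := by linarith
    have q2 : t * C = 0 := by linarith
    have hB : (B : ℝ) = 0 := (mul_eq_zero.mp q1).resolve_left t2.ne'
    have hC : (C : ℝ) = 0 := (mul_eq_zero.mp q2).resolve_left t0.ne'
    have hB' : B = 0 := by exact_mod_cast hB
    have hC' : C = 0 := by exact_mod_cast hC
    tauto
  · nlinarith

lemma sep_sound {D w E : ℤ × ℤ} (h : sep D w E = true) {s t : ℝ} (s0 : 0 < s) (s1 : s < 1)
    (t0 : 0 < t) (t1 : t < 1) (e1 : s * D.1 = w.1 + t * E.1) (e2 : s * D.2 = w.2 + t * E.2) :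
    False := by
  unfold sep at h
  simp only [Bool.or_eq_true] at h
  rcases h with ((((h | h) | h) | h) | h) | h <;> exact sep1_sound h s0 s1 t0 t1 e1 e2

/-- separation from all translates by `N * ℤ²` that can matter -/
def sepT (N : ℤ) (p D q E : ℤ × ℤ) : Bool :=
  [-2, -1, 0, 1, 2].all fun m : ℤ => [-2, -1, 0, 1, 2].all fun n : ℤ =>
    sep D (q.1 + N * m - p.1, q.2 + N * n - p.2) E

lemma coe_eq {N : ℤ} (hN : 0 < N) {a b : ℝ}
    (h : ((a / N : ℝ) : AddCircle (1 : ℝ)) = ((b / N : ℝ) : AddCircle (1 : ℝ))) :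
    ∃ m : ℤ, a = b + N * m := by
  rw [← sub_eq_zero, ← AddCircle.coe_sub, AddCircle.coe_eq_zero_iff] at h
  obtain ⟨m, hm⟩ := h
  refine ⟨m, ?_⟩
  have hN' : (0 : ℝ) < N := by exact_mod_cast hN
  rw [zsmul_eq_mul, mul_one] at hm
  field_simp at hm
  linarith

lemma coe_eq_of {N : ℤ} (hN : 0 < N) {a b : ℝ} (m : ℤ) (h : a = b + N * m) :
    ((a / N : ℝ) : AddCircle (1 : ℝ)) = ((b / N : ℝ) : AddCircle (1 : ℝ)) := by
  rw [← sub_eq_zero, ← AddCircle.coe_sub, AddCircle.coe_eq_zero_iff]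
  refine ⟨m, ?_⟩
  have hN' : (0 : ℝ) < N := by exact_mod_cast hN
  rw [zsmul_eq_mul, mul_one, h]
  field_simp
  ring

lemma range_m {N p q D E m : ℤ} (hN : 0 < N) (p0 : 0 ≤ p) (p1 : p < N) (q0 : 0 ≤ q) (q1 : q < N)
    (d : |D| < N) (e : |E| < N) {s t : ℝ} (s0 : 0 < s) (s1 : s < 1) (t0 : 0 < t) (t1 : t < 1)
    (h : (p : ℝ) + s * D = q + t * E + N * m) : m ∈ [(-2 : ℤ), -1, 0, 1, 2] := by
  have hN' : (0 : ℝ) < N := by exact_mod_cast hN
  have p0' : (0 : ℝ) ≤ p := by exact_mod_cast p0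
  have p1' : (p : ℝ) < N := by exact_mod_cast p1
  have q0' : (0 : ℝ) ≤ q := by exact_mod_cast q0
  have q1' : (q : ℝ) < N := by exact_mod_cast q1
  obtain ⟨d1, d2⟩ := abs_lt.mp d
  obtain ⟨e1, e2⟩ := abs_lt.mp e
  have d1' : -(N : ℝ) < D := by exact_mod_cast d1
  have d2' : (D : ℝ) < N := by exact_mod_cast d2
  have e1' : -(N : ℝ) < E := by exact_mod_cast e1
  have e2' : (E : ℝ) < N := by exact_mod_cast e2
  have a1 : s * D < N := by nlinarith
  have a2 : -(N : ℝ) < s * D := by nlinarith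
  have a3 : t * E < N := by nlinarith
  have a4 : -(N : ℝ) < t * E := by nlinarith
  have b1 : (N : ℝ) * m < N * 3 := by linarith
  have b2 : (N : ℝ) * (-3) < N * m := by linarith
  have c1 : (m : ℝ) < 3 := lt_of_mul_lt_mul_left b1 hN'.le
  have c2 : (-3 : ℝ) < m := lt_of_mul_lt_mul_left b2 hN'.le
  have c1' : m < 3 := by exact_mod_cast c1
  have c2' : -3 < m := by exact_mod_cast c2
  simp only [List.mem_cons, List.not_mem_nil, or_false]
  omega

lemma sepT_sound {N : ℤ} {p D q E : ℤ × ℤ} (hN : 0 < N)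
    (hp : 0 ≤ p.1 ∧ p.1 < N ∧ 0 ≤ p.2 ∧ p.2 < N) (hq : 0 ≤ q.1 ∧ q.1 < N ∧ 0 ≤ q.2 ∧ q.2 < N)
    (hD : |D.1| < N ∧ |D.2| < N) (hE : |E.1| < N ∧ |E.2| < N) (h : sepT N p D q E = true)
    {s t : ℝ} (s0 : 0 < s) (s1 : s < 1) (t0 : 0 < t) (t1 : t < 1)
    (e1 : (((p.1 + s * D.1) / N : ℝ) : AddCircle (1 : ℝ)) = (((q.1 + t * E.1) / N : ℝ)))
    (e2 : (((p.2 + s * D.2) / N : ℝ) : AddCircle (1 : ℝ)) = (((q.2 + t * E.2) / N : ℝ))) :
    False := by
  obtain ⟨m, hm⟩ := coe_eq hN e1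
  obtain ⟨n, hn⟩ := coe_eq hN e2
  have m1 := range_m hN hp.1 hp.2.1 hq.1 hq.2.1 hD.1 hE.1 s0 s1 t0 t1 hm
  have n1 := range_m hN hp.2.2.1 hp.2.2.2 hq.2.2.1 hq.2.2.2 hD.2 hE.2 s0 s1 t0 t1 hn
  have := List.all_eq_true.mp (List.all_eq_true.mp h m m1) n n1
  refine sep_sound this s0 s1 t0 t1 ?_ ?_
  · push_cast; linarith
  · push_cast; linarith

/-- The straight segment from `p / N` in direction `D / N`. -/
noncomputable def seg (N : ℤ) (p D : ℤ × ℤ) :
    C(unitInterval, AddCircle (1 : ℝ) × AddCircle (1 : ℝ)) where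
  toFun t := ((((p.1 + t * D.1) / N : ℝ) : AddCircle (1 : ℝ)),
    (((p.2 + t * D.2) / N : ℝ) : AddCircle (1 : ℝ)))
  continuous_toFun := by
    refine Continuous.prodMk ?_ ?_ <;>
    exact (AddCircle.continuous_mk' (1 : ℝ)).comp (by fun_prop)

theorem embed {V : Type} (G : SimpleGraph V) (N : ℤ) (P : V → ℤ × ℤ) (D : V → V → ℤ × ℤ)
    (hN : 0 < N) (hP : ∀ v, 0 ≤ (P v).1 ∧ (P v).1 < N ∧ 0 ≤ (P v).2 ∧ (P v).2 < N)
    (hinj : ∀ u v, P u = P v → u = v)
    (hD : ∀ u v, G.Adj u v → (|(D u v).1| < N ∧ |(D u v).2| < N) ∧ D u v ≠ 0 ∧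
      N ∣ (P u).1 + (D u v).1 - (P v).1 ∧ N ∣ (P u).2 + (D u v).2 - (P v).2)
    (hV : ∀ u v w, G.Adj u v → sepT N (P u) (D u v) (P w) (0, 0) = true)
    (hE : ∀ u v u' v', G.Adj u v → G.Adj u' v' → ¬ ((u = u' ∧ v = v') ∨ (u = v' ∧ v = u')) →
      sepT N (P u) (D u v) (P u') (D u' v') = true) :
    ∃ (p : V → AddCircle (1:ℝ) × AddCircle (1:ℝ))
         (γ : V → V → C(unitInterval, AddCircle (1:ℝ) × AddCircle (1:ℝ))),
         Function.Injective p ∧
         (∀ u v, G.Adj u v → γ u v 0 = p u ∧ γ u v 1 = p v ∧ Function.Injective (γ u v)) ∧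
         (∀ (u v w : V) (t : unitInterval), G.Adj u v → 0 < (t:ℝ) → (t:ℝ) < 1 →
            γ u v t ≠ p w) ∧
         (∀ (u v u' v' : V) (s t : unitInterval), G.Adj u v → G.Adj u' v' →
            ¬ ((u = u' ∧ v = v') ∨ (u = v' ∧ v = u')) →
            0 < (s:ℝ) → (s:ℝ) < 1 → 0 < (t:ℝ) → (t:ℝ) < 1 → γ u v s ≠ γ u' v' t) := by
  have hN' : (0 : ℝ) < N := by exact_mod_cast hN
  refine ⟨fun v => (((((P v).1 : ℝ) / N : ℝ) : AddCircle (1 : ℝ)),
      ((((P v).2 : ℝ) / N : ℝ) : AddCircle (1 : ℝ))), fun u v => seg N (P u) (D u v),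
      ?_, ?_, ?_, ?_⟩
  · intro u v h
    obtain ⟨m, hm⟩ := coe_eq hN (congrArg Prod.fst h)
    obtain ⟨n, hn⟩ := coe_eq hN (congrArg Prod.snd h)
    have hm' : (P u).1 = (P v).1 + N * m := by exact_mod_cast hm
    have hn' : (P u).2 = (P v).2 + N * n := by exact_mod_cast hn
    obtain ⟨a1, a2, a3, a4⟩ := hP u
    obtain ⟨b1, b2, b3, b4⟩ := hP v
    have m0 : m = 0 := by
      rcases lt_trichotomy m 0 with h | h | h
      · nlinarith
      · exact h
      · nlinarith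
    have n0 : n = 0 := by
      rcases lt_trichotomy n 0 with h | h | h
      · nlinarith
      · exact h
      · nlinarith
    apply hinj
    ext
    · rw [hm', m0]; ring
    · rw [hn', n0]; ring
  · intro u v huv
    obtain ⟨⟨d1, d2⟩, d0, ⟨m, hm⟩, ⟨n, hn⟩⟩ := hD u v huv
    refine ⟨?_, ?_, ?_⟩
    · simp [seg]
    · have hm' : ((P u).1 : ℝ) + (D u v).1 - (P v).1 = N * m := by exact_mod_cast hm
      have hn' : ((P u).2 : ℝ) + (D u v).2 - (P v).2 = N * n := by exact_mod_cast hn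
      refine Prod.ext (coe_eq_of hN m ?_) (coe_eq_of hN n ?_)
      · simp only [Set.Icc.coe_one, one_mul]; linarith
      · simp only [Set.Icc.coe_one, one_mul]; linarith
    · intro s t h
      obtain ⟨a, ha⟩ := coe_eq hN (congrArg Prod.fst h)
      obtain ⟨b, hb⟩ := coe_eq hN (congrArg Prod.snd h)
      have aux : ∀ (d c : ℤ), |d| < N → ((s : ℝ) - t) * d = N * c → ((s : ℝ) - t) * d = 0 := by
        intro d c hd hc
        have hd' : |(d : ℝ)| < N := by exact_mod_cast hd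
        have h1 : |(s : ℝ) - t| ≤ 1 := by
          have := s.2.1; have := s.2.2; have := t.2.1; have := t.2.2
          rw [abs_le]; constructor <;> linarith
        have h2 : |(N : ℝ) * c| < N := by
          rw [← hc, abs_mul]
          nlinarith [abs_nonneg (d : ℝ), abs_nonneg ((s : ℝ) - t)]
        rw [abs_mul, abs_of_pos hN'] at h2
        have h3 : |(c : ℝ)| < 1 := by nlinarith [abs_nonneg (c : ℝ)]
        have h4 : |c| < 1 := by exact_mod_cast h3
        have h5 : c = 0 := by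
          have := abs_lt.mp h4
          omega
        rw [hc, h5]; simp
      have e1 := aux _ a d1 (by linarith)
      have e2 := aux _ b d2 (by linarith)
      by_contra hst
      have hst' : (s : ℝ) - t ≠ 0 := fun h => hst (Subtype.ext (by linarith))
      have z1 : ((D u v).1 : ℝ) = 0 := (mul_eq_zero.mp e1).resolve_left hst'
      have z2 : ((D u v).2 : ℝ) = 0 := (mul_eq_zero.mp e2).resolve_left hst'
      exact d0 (Prod.ext (by exact_mod_cast z1) (by exact_mod_cast z2))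
  · intro u v w t huv t0 t1 h
    refine sepT_sound hN (hP u) (hP w) (hD u v huv).1 (by simpa using hN) (hV u v w huv) t0 t1
      (t := 1 / 2) (by norm_num) (by norm_num) ?_ ?_
    · simpa [seg] using congrArg Prod.fst h
    · simpa [seg] using congrArg Prod.snd h
  · intro u v u' v' s t huv huv' hne s0 s1 t0 t1 h
    exact sepT_sound hN (hP u) (hP u') (hD u v huv).1 (hD u' v' huv').1
      (hE u v u' v' huv huv' hne) s0 s1 t0 t1 (congrArg Prod.fst h) (congrArg Prod.snd h)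

end Pool.Agent.Lib.helper7.Torus
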